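import Mathlib

/-! Five in a row on the infinite grid: abstract layer (game, relevance zones with phantom stones). -/

set_option autoImplicit false

namespace Pool.Agent.H88.FIR

abbrev P := ℤ × ℤ

def dirs : Finset P := {((1 : ℤ), (0 : ℤ)), ((0 : ℤ), (1 : ℤ)), ((1 : ℤ), (1 : ℤ)), ((1 : ℤ), (-1 : ℤ))}

def Five (S : Finset P) : Prop := ∃ a d : P, d ∈ dirs ∧ ∀ k : ℕ, k < 5 → a + (k : ℤ) • d ∈ S

/-- Black to move wins in at most `n` own moves (Black stones `B`, White stones `W`). -/
def WinN : ℕ → Finset P → Finset P → Prop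
  | 0, _, _ => False
  | n + 1, B, W => ∃ m, m ∉ B ∧ m ∉ W ∧ (Five (insert m B) ∨
      ∀ w, w ∉ insert m B → w ∉ W → ¬ Five (insert w W) ∧ WinN n (insert m B) (insert w W))

theorem Five.mono {S T : Finset P} (h : S ⊆ T) : Five S → Five T :=
  fun ⟨a, d, hd, hk⟩ => ⟨a, d, hd, fun k hk5 => h (hk k hk5)⟩

theorem WinN_mono {n : ℕ} : ∀ {B B₂ W W₂ : Finset P}, B ⊆ B₂ → W₂ ⊆ W → WinN n B W → WinN n B₂ W₂ := by
  induction n with
  | zero => intro B B₂ W W₂ _ _ h; exact h.elim
  | succ n ih =>
    intro B B₂ W W₂ hB hW h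
    obtain ⟨m, hmB, hmW, h⟩ := h
    obtain ⟨m', hm'1, hm'2, hm'3⟩ : ∃ m', m' ∉ B₂ ∧ m' ∉ W₂ ∧ insert m B ⊆ insert m' B₂ := by
      by_cases hm : m ∈ B₂
      · obtain ⟨x, hx⟩ := Infinite.exists_notMem_finset (B₂ ∪ W₂)
        rw [Finset.mem_union, not_or] at hx
        exact ⟨x, hx.1, hx.2, fun y hy => by
          rw [Finset.mem_insert] at hy ⊢
          rcases hy with rfl | hy
          · exact Or.inr hm
          · exact Or.inr (hB hy)⟩
      · exact ⟨m, hm, fun h => hmW (hW h), Finset.insert_subset_insert _ hB⟩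
    refine ⟨m', hm'1, hm'2, ?_⟩
    rcases h with h | h
    · exact Or.inl (h.mono hm'3)
    · right
      intro w hw1 hw2
      obtain ⟨w', h1, h2, h3⟩ : ∃ w', w' ∉ insert m B ∧ w' ∉ W ∧ insert w W₂ ⊆ insert w' W := by
        by_cases hw : w ∈ W
        · obtain ⟨x, hx⟩ := Infinite.exists_notMem_finset (insert m B ∪ W)
          rw [Finset.mem_union, not_or] at hx
          exact ⟨x, hx.1, hx.2, fun y hy => by
            rw [Finset.mem_insert] at hy ⊢
            rcases hy with rfl | hy
            · exact Or.inr hw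
            · exact Or.inr (hW hy)⟩
        · exact ⟨w, fun h => hw1 (hm'3 h), hw, Finset.insert_subset_insert _ hW⟩
      obtain ⟨h4, h5⟩ := h w' h1 h2
      exact ⟨fun hf => h4 (hf.mono h3), ih hm'3 h3 h5⟩

theorem WinN_succ' {n : ℕ} : ∀ {B W : Finset P}, WinN n B W → WinN (n + 1) B W := by
  induction n with
  | zero => intro B W h; exact h.elim
  | succ n ih =>
    intro B W h
    obtain ⟨m, hmB, hmW, h⟩ := h
    refine ⟨m, hmB, hmW, ?_⟩
    rcases h with h | h
    · exact Or.inl h
    · exact Or.inr fun w h1 h2 => ⟨(h w h1 h2).1, ih (h w h1 h2).2⟩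

theorem WinN_succ {n m : ℕ} (h : n ≤ m) {B W : Finset P} : WinN n B W → WinN m B W := by
  induction h with
  | refl => exact id
  | step _ ih => exact fun h => WinN_succ' (ih h)

/-- the five cells of a window -/
def win (a d : P) : Finset P := (Finset.range 5).image (fun k : ℕ => a + (k : ℤ) • d)
def IsWin (ω : Finset P) : Prop := ∃ a d : P, d ∈ dirs ∧ ω = win a d

/-- bonus of a window: `g` if it meets `G`, else 0 -/
noncomputable def gw (G : Set P) (g : ℕ) (ω : Finset P) : ℕ := by
  classical exact if ∃ x ∈ ω, x ∈ G then g else 0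

/-- cells of a list of pairs -/
def pc (R : Finset (P × P)) : Finset P := R.image Prod.fst ∪ R.image Prod.snd

/-- A real position `(B', W')` is compatible with the recorded position `(B, W)`, zone `Z`, level `K`:
the unrecorded White stones are `Pf` (outside the zone, at most `K` in each `B'`-free window) and `Q`
(in `G`).  `R` is a finite set of pairs of empty cells of `G` which Black answers locally. -/
structure Compat (G : Set P) (g : ℕ) (K : ℕ) (B W Z : Finset P)
    (R : Finset (P × P)) (B' W' Pf Q : Finset P) : Prop where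
  hB : B ⊆ B'
  dis : Disjoint B' W'
  hW : W' ⊆ W ∪ Pf ∪ Q
  hPZ : Disjoint Pf Z
  hP : ∀ ω, IsWin ω → Disjoint ω B' → (Pf ∩ ω).card ≤ K
  hQG : ∀ q ∈ Q, q ∈ G
  hR : ∀ r ∈ R, r.1 ∈ G ∧ r.2 ∈ G ∧ r.1 ≠ r.2 ∧
    r.1 ∉ B' ∧ r.2 ∉ B' ∧ r.1 ∉ W' ∧ r.2 ∉ W'
  hRd : ∀ r ∈ R, ∀ r' ∈ R, r ≠ r' → r.1 ≠ r'.1 ∧ r.1 ≠ r'.2 ∧ r.2 ≠ r'.1 ∧ r.2 ≠ r'.2
  hQ : ∀ ω, IsWin ω → Disjoint ω B' →
    (∃ r ∈ R, r.1 ∈ ω ∧ r.2 ∈ ω) ∨ ((Q ∪ pc R) ∩ ω).card ≤ gw G g ω

/-- The claim proved by a certificate node. -/
def Sem (G : Set P) (g : ℕ) (K : ℕ) (B W Z : Finset P) : Prop :=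
  ∀ c : ℕ, ∃ n : ℕ, ∀ (R : Finset (P × P)) (B' W' Pf Q : Finset P), R.card ≤ c →
    Compat G g K B W Z R B' W' Pf Q → WinN n B' W'

/-- the flag condition (checked after Black's move, `Z` = zone without the move) -/
def FlagOK (G : Set P) (g : ℕ) (K : ℕ) (B W Z : Finset P) : Prop :=
  Disjoint Z W ∧ ∀ ω, IsWin ω → Disjoint ω B → 4 ≤ (W ∩ ω).card + K + gw G g ω →
    2 + gw G g ω ≤ (Z ∩ ω).card

theorem dirs_ne {d : P} (hd : d ∈ dirs) : d ≠ 0 := by
  rintro rfl
  revert hd
  decide

theorem line_inj {a d : P} (hd : d ∈ dirs) {i j : ℤ} (h : a + i • d = a + j • d) : i = j := by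
  have h1 : i • d = j • d := add_left_cancel h
  have h2 : (i - j) • d = 0 := by rw [sub_smul, h1, sub_self]
  rcases smul_eq_zero.1 h2 with h3 | h3
  · exact sub_eq_zero.1 h3
  · exact (dirs_ne hd h3).elim

theorem win_card {a d : P} (hd : d ∈ dirs) : (win a d).card = 5 := by
  unfold win
  rw [Finset.card_image_of_injective, Finset.card_range]
  intro i j h
  exact_mod_cast line_inj hd h

section lemmas
variable {G : Set P} {g : ℕ} {K : ℕ} {B W Z : Finset P}

theorem Compat.nofive {R : Finset (P × P)} {B' W' Pf Q : Finset P}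
    (hc : Compat G g K B W Z R B' W' Pf Q) (hf : FlagOK G g K B W Z) {w : P} (hw : w ∉ B') :
    ¬ Five (insert w W') := by
  rintro ⟨a, d, hd, h5⟩
  have hωc : (win a d).card = 5 := win_card hd
  have hω : IsWin (win a d) := ⟨a, d, hd, rfl⟩
  have hsub : win a d ⊆ insert w W' := by
    intro x hx
    unfold win at hx
    rw [Finset.mem_image] at hx
    obtain ⟨k, hk, rfl⟩ := hx
    exact h5 k (Finset.mem_range.1 hk)
  generalize win a d = ω at hωc hω hsub
  have hdis : Disjoint ω B' := by
    rw [Finset.disjoint_left]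
    intro x hx hxB
    rcases Finset.mem_insert.1 (hsub hx) with rfl | hx'
    · exact hw hxB
    · exact (Finset.disjoint_left.1 hc.dis hxB hx')
  rcases hc.hQ ω hω hdis with ⟨r, hr, h1, h2⟩ | hq
  · obtain ⟨-, -, h3, -, -, h4, h5⟩ := hc.hR r hr
    have e1 : r.1 = w := (Finset.mem_insert.1 (hsub h1)).resolve_right h4
    have e2 : r.2 = w := (Finset.mem_insert.1 (hsub h2)).resolve_right h5
    exact h3 (e1.trans e2.symm)
  · have hq' : (Q ∩ ω).card ≤ gw G g ω :=
      le_trans (Finset.card_le_card (Finset.inter_subset_inter_right Finset.subset_union_left)) hq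
    have c1 : 4 ≤ (W' ∩ ω).card := by
      have : ω ⊆ insert w (W' ∩ ω) := by
        intro x hx
        rcases Finset.mem_insert.1 (hsub hx) with rfl | hx'
        · exact Finset.mem_insert_self _ _
        · exact Finset.mem_insert_of_mem (Finset.mem_inter.2 ⟨hx', hx⟩)
      have h1 := Finset.card_le_card this
      have h2 := Finset.card_insert_le w (W' ∩ ω)
      omega
    have c2 : (W' ∩ ω).card ≤ (W ∩ ω).card + (Pf ∩ ω).card + (Q ∩ ω).card := by
      have : W' ∩ ω ⊆ ((W ∩ ω) ∪ (Pf ∩ ω)) ∪ (Q ∩ ω) := by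
        intro x hx
        rw [Finset.mem_inter] at hx
        have := hc.hW hx.1
        simp only [Finset.mem_union, Finset.mem_inter] at this ⊢
        tauto
      refine (Finset.card_le_card this).trans ?_
      refine (Finset.card_union_le _ _).trans ?_
      exact Nat.add_le_add_right (Finset.card_union_le _ _) _
    have c3 := hc.hP ω hω hdis
    have c4 := hf.2 ω hω (Finset.disjoint_of_subset_right hc.hB hdis) (by omega)
    have c5 : (Z ∩ ω).card ≤ (Q ∩ ω).card + 1 := by
      have : Z ∩ ω ⊆ insert w (Q ∩ ω) := by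
        intro x hx
        rw [Finset.mem_inter] at hx
        rcases Finset.mem_insert.1 (hsub hx.2) with rfl | hx'
        · exact Finset.mem_insert_self _ _
        · have h6 := hc.hW hx'
          simp only [Finset.mem_union] at h6
          rcases h6 with (h6 | h6) | h6
          · exact (Finset.disjoint_left.1 hf.1 hx.1 h6).elim
          · exact (Finset.disjoint_left.1 hc.hPZ h6 hx.1).elim
          · exact Finset.mem_insert_of_mem (Finset.mem_inter.2 ⟨h6, hx.2⟩)
      exact (Finset.card_le_card this).trans (Finset.card_insert_le _ _)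
    omega

theorem Compat.notW {R : Finset (P × P)} {B' W' Pf Q : Finset P}
    (hc : Compat G g K B W Z R B' W' Pf Q) {x : P} (h1 : x ∉ W) (h2 : x ∉ G) (h3 : x ∈ Z) :
    x ∉ W' := by
  intro hx
  have h6 := hc.hW hx
  simp only [Finset.mem_union] at h6
  rcases h6 with (h6 | h6) | h6
  · exact h1 h6
  · exact Finset.disjoint_left.1 hc.hPZ h6 h3
  · exact h2 (hc.hQG x h6)

theorem WinN_one {B' W' : Finset P} {a : P} (h5 : Five (insert a B')) (ha : a ∉ W') :
    WinN 1 B' W' := by
  by_cases h : a ∈ B'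
  · obtain ⟨x, hx⟩ := Infinite.exists_notMem_finset (B' ∪ W')
    rw [Finset.mem_union, not_or] at hx
    refine ⟨x, hx.1, hx.2, Or.inl ?_⟩
    rw [Finset.insert_eq_of_mem h] at h5
    exact h5.mono (Finset.subset_insert _ _)
  · exact ⟨a, h, ha, Or.inl h5⟩

theorem Compat.mono {R : Finset (P × P)} {B' W' Pf Q : Finset P} {Z' : Finset P} {K' : ℕ}
    (hc : Compat G g K B W Z R B' W' Pf Q) (hZ : Z' ⊆ Z) (hK : K ≤ K') :
    Compat G g K' B W Z' R B' W' Pf Q where
  hB := hc.hB
  dis := hc.dis
  hW := hc.hW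
  hPZ := Finset.disjoint_of_subset_right hZ hc.hPZ
  hP ω h1 h2 := (hc.hP ω h1 h2).trans hK
  hQG := hc.hQG
  hR := hc.hR
  hRd := hc.hRd
  hQ := hc.hQ

/-- Black plays `m` (or a fresh cell if `m` is already black). -/
theorem Compat.play {R : Finset (P × P)} {B' W' Pf Q : Finset P} {m : P}
    (hc : Compat G g K B W (insert m Z) R B' W' Pf Q) (hm : m ∉ B ∧ m ∉ W ∧ m ∉ G) :
    ∃ m', m' ∉ B' ∧ m' ∉ W' ∧ Compat G g K (insert m B) W Z R (insert m' B') W' Pf Q := by
  have hmW' : m ∉ W' := hc.notW hm.2.1 hm.2.2 (Finset.mem_insert_self _ _)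
  obtain ⟨m', h1, h2, h3, h4⟩ : ∃ m', m' ∉ B' ∧ m' ∉ W' ∧ insert m B ⊆ insert m' B' ∧
      ∀ r ∈ R, r.1 ≠ m' ∧ r.2 ≠ m' := by
    by_cases h : m ∈ B'
    · obtain ⟨x, hx⟩ := Infinite.exists_notMem_finset (B' ∪ W' ∪ pc R)
      simp only [Finset.mem_union, not_or, pc, Finset.mem_image, not_exists, not_and] at hx
      refine ⟨x, hx.1.1, hx.1.2, ?_, fun r hr => ⟨hx.2.1 r hr, hx.2.2 r hr⟩⟩
      intro y hy
      rw [Finset.mem_insert] at hy ⊢
      rcases hy with rfl | hy
      · exact Or.inr h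
      · exact Or.inr (hc.hB hy)
    · refine ⟨m, h, hmW', Finset.insert_subset_insert _ hc.hB, fun r hr => ⟨?_, ?_⟩⟩
      · intro e; exact hm.2.2 (e ▸ (hc.hR r hr).1)
      · intro e; exact hm.2.2 (e ▸ (hc.hR r hr).2.1)
  have hd : ∀ ω : Finset P, Disjoint ω (insert m' B') → Disjoint ω B' := fun ω h =>
    Finset.disjoint_of_subset_right (Finset.subset_insert _ _) h
  refine ⟨m', h1, h2, ?_⟩
  exact
    { hB := h3
      dis := by rw [Finset.disjoint_insert_left]; exact ⟨h2, hc.dis⟩
      hW := hc.hW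
      hPZ := Finset.disjoint_of_subset_right (Finset.subset_insert _ _) hc.hPZ
      hP := fun ω h1 h2 => hc.hP ω h1 (hd ω h2)
      hQG := hc.hQG
      hR := by
        intro r hr
        obtain ⟨a1, a2, a5, a6, a7, a8, a9⟩ := hc.hR r hr
        refine ⟨a1, a2, a5, ?_, ?_, a8, a9⟩
        · rw [Finset.mem_insert, not_or]; exact ⟨(h4 r hr).1, a6⟩
        · rw [Finset.mem_insert, not_or]; exact ⟨(h4 r hr).2, a7⟩
      hRd := hc.hRd
      hQ := fun ω h1 h2 => hc.hQ ω h1 (hd ω h2) }

theorem Sem_mono {Z' : Finset P} {K' : ℕ} (hZ : Z ⊆ Z') (hK : K' ≤ K) (h : Sem G g K B W Z) :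
    Sem G g K' B W Z' := by
  intro c
  obtain ⟨n, hn⟩ := h c
  exact ⟨n, fun R B' W' Pf Q hR hc => hn R B' W' Pf Q hR (hc.mono hZ hK)⟩

/-- node `f` -/
theorem Sem_five {m : P} (hm : m ∉ B ∧ m ∉ W ∧ m ∉ G) (h5 : Five (insert m B)) (hZ : m ∈ Z) :
    Sem G g K B W Z := by
  intro c
  refine ⟨1, fun R B' W' Pf Q _ hc => ?_⟩
  exact WinN_one (h5.mono (Finset.insert_subset_insert _ hc.hB)) (hc.notW hm.2.1 hm.2.2 hZ)

/-- node `d` -/
theorem Sem_double {m a b : P} (hm : m ∉ B ∧ m ∉ W ∧ m ∉ G)
    (ha : a ∉ insert m B ∧ a ∉ W ∧ a ∉ G) (hb : b ∉ insert m B ∧ b ∉ W ∧ b ∉ G) (hab : a ≠ b)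
    (h5a : Five (insert a (insert m B))) (h5b : Five (insert b (insert m B)))
    (haZ : a ∈ Z) (hbZ : b ∈ Z) (hf : FlagOK G g K (insert m B) W Z) :
    Sem G g K B W (insert m Z) := by
  intro c
  refine ⟨2, fun R B' W' Pf Q _ hc => ?_⟩
  obtain ⟨m', h1, h2, hc'⟩ := hc.play hm
  refine ⟨m', h1, h2, Or.inr fun w hw1 hw2 => ⟨hc'.nofive hf hw1, ?_⟩⟩
  by_cases haw : a = w
  · refine WinN_one (h5b.mono (Finset.insert_subset_insert _ hc'.hB)) ?_
    rw [Finset.mem_insert, not_or]
    exact ⟨fun e => hab (haw.trans e.symm), hc'.notW hb.2.1 hb.2.2 hbZ⟩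
  · refine WinN_one (h5a.mono (Finset.insert_subset_insert _ hc'.hB)) ?_
    rw [Finset.mem_insert, not_or]
    exact ⟨haw, hc'.notW ha.2.1 ha.2.2 haZ⟩

/-- node `s` -/
theorem Sem_single {m a : P} {Z1 : Finset P} (hm : m ∉ B ∧ m ∉ W ∧ m ∉ G)
    (ha : a ∉ insert m B ∧ a ∉ W ∧ a ∉ G)
    (h5a : Five (insert a (insert m B)))
    (hk : Sem G g K (insert m B) (insert a W) Z1) (hZ1 : Z1 ⊆ Z)
    (haZ : a ∈ Z) (hf : FlagOK G g K (insert m B) W Z) :
    Sem G g K B W (insert m Z) := by
  intro c
  obtain ⟨n, hn⟩ := hk c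
  refine ⟨(n + 1) + 1, fun R B' W' Pf Q hRc hc => ?_⟩
  obtain ⟨m', h1, h2, hc'⟩ := hc.play hm
  refine ⟨m', h1, h2, Or.inr fun w hw1 hw2 => ⟨hc'.nofive hf hw1, ?_⟩⟩
  by_cases haw : a = w
  · subst haw
    refine WinN_succ (Nat.le_succ n) (hn R _ _ Pf Q hRc ?_)
    exact
      { hB := hc'.hB
        dis := by rw [Finset.disjoint_insert_right]; exact ⟨hw1, hc'.dis⟩
        hW := by
          intro x hx
          rw [Finset.mem_insert] at hx
          simp only [Finset.mem_union, Finset.mem_insert]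
          rcases hx with rfl | hx
          · exact Or.inl (Or.inl (Or.inl rfl))
          · have := hc'.hW hx
            simp only [Finset.mem_union] at this
            tauto
        hPZ := Finset.disjoint_of_subset_right hZ1 hc'.hPZ
        hP := hc'.hP
        hQG := hc'.hQG
        hR := by
          intro r hr
          obtain ⟨a1, a2, a5, a6, a7, a8, a9⟩ := hc'.hR r hr
          refine ⟨a1, a2, a5, a6, a7, ?_, ?_⟩
          · rw [Finset.mem_insert, not_or]; exact ⟨fun e => ha.2.2 (e ▸ a1), a8⟩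
          · rw [Finset.mem_insert, not_or]; exact ⟨fun e => ha.2.2 (e ▸ a2), a9⟩
        hRd := hc'.hRd
        hQ := hc'.hQ }
  · refine WinN_succ (Nat.succ_le_succ (Nat.zero_le n)) (WinN_one (h5a.mono (Finset.insert_subset_insert _ hc'.hB)) ?_)
    rw [Finset.mem_insert, not_or]
    exact ⟨haw, hc'.notW ha.2.1 ha.2.2 haZ⟩

/-- a reply of the certificate: set of cells `A`, default flag `D`, zone `Z` -/
structure Kid where
  A : Finset P
  D : Bool
  Z : Finset P

theorem Sem_list (kids : List Kid) {B W : Finset P} {K : ℕ}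
    (hk : ∀ k ∈ kids, Sem G g (if k.D then K + 1 else K) B (W ∪ k.A) k.Z) (c : ℕ) :
    ∃ n : ℕ, ∀ k ∈ kids, ∀ (R : Finset (P × P)) (B' W' Pf Q : Finset P), R.card ≤ c →
      Compat G g (if k.D then K + 1 else K) B (W ∪ k.A) k.Z R B' W' Pf Q → WinN n B' W' := by
  induction kids with
  | nil => exact ⟨0, fun k hk => (List.not_mem_nil hk).elim⟩
  | cons k0 kids ih =>
    obtain ⟨n1, h1⟩ := ih (fun k hk' => hk k (List.mem_cons_of_mem _ hk'))
    obtain ⟨n2, h2⟩ := hk k0 List.mem_cons_self c
    refine ⟨max n1 n2, fun k hk R B' W' Pf Q hR hc => ?_⟩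
    rcases List.mem_cons.1 hk with rfl | hk
    · exact WinN_succ (le_max_right _ _) (h2 R B' W' Pf Q hR hc)
    · exact WinN_succ (le_max_left _ _) (h1 k hk R B' W' Pf Q hR hc)

/-- White to move at a general node. -/
theorem general_aux {I : Finset P} (kids : List Kid) {B W Z : Finset P}
    (hk : ∀ k ∈ kids, Sem G g (if k.D then K + 1 else K) B (W ∪ k.A) k.Z)
    (hkZ : ∀ k ∈ kids, k.Z ⊆ Z) (hkI : ∀ k ∈ kids, k.Z ⊆ I)
    (hdef : ∃ k ∈ kids, k.D = true)
    (hcov : ∀ x ∈ I, x ∉ B → x ∉ W → ∃ k ∈ kids, x ∈ k.A ∨ (k.D = true ∧ x ∉ k.Z))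
    (hf : FlagOK G g K B W Z) (c : ℕ) :
    ∃ n : ℕ, ∀ (R : Finset (P × P)) (B' W' Pf Q : Finset P), R.card ≤ c →
      Compat G g K B W Z R B' W' Pf Q → ∀ w, w ∉ B' → w ∉ W' →
        ¬ Five (insert w W') ∧ WinN n B' (insert w W') := by
  -- reply `w` outside the pair cells
  have base : ∀ c : ℕ, ∃ n : ℕ, ∀ (R : Finset (P × P)) (B' W' Pf Q : Finset P), R.card ≤ c →
      Compat G g K B W Z R B' W' Pf Q → ∀ w, w ∉ B' → w ∉ W' → w ∉ pc R →
        WinN n B' (insert w W') := by
    intro c
    obtain ⟨n, hn⟩ := Sem_list kids hk c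
    refine ⟨n, fun R B' W' Pf Q hRc hc w hwB hwW hwR => ?_⟩
    have hR' : ∀ r ∈ R, r.1 ≠ w ∧ r.2 ≠ w := by
      intro r hr
      unfold pc at hwR
      simp only [Finset.mem_union, not_or, Finset.mem_image, not_exists, not_and] at hwR
      exact ⟨hwR.1 r hr, hwR.2 r hr⟩
    have hRR : ∀ r ∈ R, r.1 ∈ G ∧ r.2 ∈ G ∧ r.1 ≠ r.2 ∧
        r.1 ∉ B' ∧ r.2 ∉ B' ∧ r.1 ∉ insert w W' ∧ r.2 ∉ insert w W' := by
      intro r hr
      obtain ⟨a1, a2, a5, a6, a7, a8, a9⟩ := hc.hR r hr
      refine ⟨a1, a2, a5, a6, a7, ?_, ?_⟩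
      · rw [Finset.mem_insert, not_or]; exact ⟨(hR' r hr).1, a8⟩
      · rw [Finset.mem_insert, not_or]; exact ⟨(hR' r hr).2, a9⟩
    have hdis : Disjoint B' (insert w W') := by
      rw [Finset.disjoint_insert_right]; exact ⟨hwB, hc.dis⟩
    -- recorded reply
    have hrec : ∀ k ∈ kids, w ∈ W ∪ k.A → WinN n B' (insert w W') := by
      intro k hkk hwk
      refine hn k hkk R B' (insert w W') Pf Q hRc ?_
      exact
        { hB := hc.hB
          dis := hdis
          hW := by
            intro x hx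
            rw [Finset.mem_insert] at hx
            rcases hx with rfl | hx
            · exact Finset.mem_union_left _ (Finset.mem_union_left _ hwk)
            · have := hc.hW hx
              simp only [Finset.mem_union] at this ⊢
              tauto
          hPZ := Finset.disjoint_of_subset_right (hkZ k hkk) hc.hPZ
          hP := fun ω h1 h2 => (hc.hP ω h1 h2).trans (by split_ifs <;> omega)
          hQG := hc.hQG
          hR := hRR
          hRd := hc.hRd
          hQ := hc.hQ }
    -- default reply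
    have hdflt : ∀ k ∈ kids, k.D = true → w ∉ k.Z → WinN n B' (insert w W') := by
      intro k hkk hD hwk
      refine hn k hkk R B' (insert w W') (insert w Pf) Q hRc ?_
      exact
        { hB := hc.hB
          dis := hdis
          hW := by
            intro x hx
            rw [Finset.mem_insert] at hx
            rcases hx with rfl | hx
            · exact Finset.mem_union_left _ (Finset.mem_union_right _ (Finset.mem_insert_self _ _))
            · have := hc.hW hx
              simp only [Finset.mem_union, Finset.mem_insert] at this ⊢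
              tauto
          hPZ := by
            rw [Finset.disjoint_insert_left]
            exact ⟨hwk, Finset.disjoint_of_subset_right (hkZ k hkk) hc.hPZ⟩
          hP := by
            intro ω h1 h2
            rw [if_pos hD]
            have h3 := hc.hP ω h1 h2
            have h4 : insert w Pf ∩ ω ⊆ insert w (Pf ∩ ω) := by
              intro x hx
              rw [Finset.mem_inter, Finset.mem_insert] at hx
              rw [Finset.mem_insert, Finset.mem_inter]
              tauto
            have h5 := (Finset.card_le_card h4).trans (Finset.card_insert_le _ _)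
            omega
          hQG := hc.hQG
          hR := hRR
          hRd := hc.hRd
          hQ := hc.hQ }
    obtain ⟨k0, hk0, hD0⟩ := hdef
    by_cases hwW0 : w ∈ W
    · exact hrec k0 hk0 (Finset.mem_union_left _ hwW0)
    by_cases hwI : w ∈ I
    · obtain ⟨k, hkk, h | ⟨h1, h2⟩⟩ := hcov w hwI (fun h => hwB (hc.hB h)) hwW0
      · exact hrec k hkk (Finset.mem_union_right _ h)
      · exact hdflt k hkk h1 h2
    · exact hdflt k0 hk0 hD0 (fun h => hwI (hkI k0 hk0 h))
  induction c with
  | zero =>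
    obtain ⟨n, hn⟩ := base 0
    refine ⟨n, fun R B' W' Pf Q hRc hc w hwB hwW => ⟨hc.nofive hf hwB, ?_⟩⟩
    refine hn R B' W' Pf Q hRc hc w hwB hwW ?_
    have : R = ∅ := Finset.card_eq_zero.1 (Nat.le_zero.1 hRc)
    subst this
    simp [pc]
  | succ c ih =>
    obtain ⟨n1, h1⟩ := ih
    obtain ⟨n2, h2⟩ := base (c + 1)
    refine ⟨max (n1 + 1) n2, fun R B' W' Pf Q hRc hc w hwB hwW => ⟨hc.nofive hf hwB, ?_⟩⟩
    by_cases hwR : w ∈ pc R
    · -- answer locally
      refine WinN_succ (le_max_left _ _) ?_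
      obtain ⟨r, hr, x, hx⟩ : ∃ r ∈ R, ∃ x, (w = r.1 ∧ x = r.2) ∨ (w = r.2 ∧ x = r.1) := by
        unfold pc at hwR
        rw [Finset.mem_union, Finset.mem_image, Finset.mem_image] at hwR
        rcases hwR with ⟨r, hr, e⟩ | ⟨r, hr, e⟩
        · exact ⟨r, hr, r.2, Or.inl ⟨e.symm, rfl⟩⟩
        · exact ⟨r, hr, r.1, Or.inr ⟨e.symm, rfl⟩⟩
      have hrr := hc.hR r hr
      have hxB : x ∉ B' := by
        rcases hx with ⟨-, rfl⟩ | ⟨-, rfl⟩
        · exact hrr.2.2.2.2.1
        · exact hrr.2.2.2.1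
      have hxW : x ∉ W' := by
        rcases hx with ⟨-, rfl⟩ | ⟨-, rfl⟩
        · exact hrr.2.2.2.2.2.2
        · exact hrr.2.2.2.2.2.1
      have hxw : x ≠ w := by
        rcases hx with ⟨rfl, rfl⟩ | ⟨rfl, rfl⟩
        · exact hrr.2.2.1.symm
        · exact hrr.2.2.1
      have hwG : w ∈ G := by
        rcases hx with ⟨rfl, -⟩ | ⟨rfl, -⟩
        · exact hrr.1
        · exact hrr.2.1
      have hwp : w ∈ pc R := hwR
      refine ⟨x, hxB, ?_, Or.inr ?_⟩
      · rw [Finset.mem_insert, not_or]; exact ⟨hxw, hxW⟩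
      · have hcard : (R.erase r).card ≤ c := by
          rw [Finset.card_erase_of_mem hr]; omega
        have hc' : Compat G g K B W Z (R.erase r) (insert x B') (insert w W') Pf (insert w Q) :=
          { hB := hc.hB.trans (Finset.subset_insert _ _)
            dis := by
              rw [Finset.disjoint_insert_left, Finset.disjoint_insert_right, Finset.mem_insert, not_or]
              exact ⟨⟨hxw, hxW⟩, hwB, hc.dis⟩
            hW := by
              intro y hy
              rw [Finset.mem_insert] at hy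
              rcases hy with rfl | hy
              · exact Finset.mem_union_right _ (Finset.mem_insert_self _ _)
              · have := hc.hW hy
                simp only [Finset.mem_union, Finset.mem_insert] at this ⊢
                tauto
            hPZ := hc.hPZ
            hP := fun ω h1 h2 => hc.hP ω h1
              (Finset.disjoint_of_subset_right (Finset.subset_insert _ _) h2)
            hQG := by
              intro q hq
              rcases Finset.mem_insert.1 hq with rfl | hq
              · exact hwG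
              · exact hc.hQG q hq
            hR := by
              intro r' hr'
              have hr'R := Finset.mem_of_mem_erase hr'
              have hne := Finset.ne_of_mem_erase hr'
              obtain ⟨a1, a2, a5, a6, a7, a8, a9⟩ := hc.hR r' hr'R
              obtain ⟨b1, b2, b3, b4⟩ := hc.hRd r' hr'R r hr hne
              simp only [Finset.mem_insert, not_or]
              rcases hx with ⟨rfl, rfl⟩ | ⟨rfl, rfl⟩
              · exact ⟨a1, a2, a5, ⟨b2, a6⟩, ⟨b4, a7⟩, ⟨b1, a8⟩, ⟨b3, a9⟩⟩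
              · exact ⟨a1, a2, a5, ⟨b1, a6⟩, ⟨b3, a7⟩, ⟨b2, a8⟩, ⟨b4, a9⟩⟩
            hRd := fun r1 h1 r2 h2 hne =>
              hc.hRd r1 (Finset.mem_of_mem_erase h1) r2 (Finset.mem_of_mem_erase h2) hne
            hQ := by
              intro ω h1 h2
              have h3 : Disjoint ω B' :=
                Finset.disjoint_of_subset_right (Finset.subset_insert _ _) h2
              have hxω : x ∉ ω := fun h => Finset.disjoint_left.1 h2 h (Finset.mem_insert_self _ _)
              rcases hc.hQ ω h1 h3 with ⟨r', hr', e1, e2⟩ | hq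
              · left
                refine ⟨r', Finset.mem_erase.2 ⟨?_, hr'⟩, e1, e2⟩
                rintro rfl
                rcases hx with ⟨-, rfl⟩ | ⟨-, rfl⟩
                · exact hxω e2
                · exact hxω e1
              · right
                refine le_trans (Finset.card_le_card (Finset.inter_subset_inter_right ?_)) hq
                intro y hy
                rw [Finset.mem_union, Finset.mem_insert] at hy
                rw [Finset.mem_union]
                rcases hy with (rfl | hy) | hy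
                · exact Or.inr hwp
                · exact Or.inl hy
                · right
                  unfold pc at hy ⊢
                  rw [Finset.mem_union, Finset.mem_image, Finset.mem_image] at hy ⊢
                  rcases hy with ⟨r', hr', e⟩ | ⟨r', hr', e⟩
                  · exact Or.inl ⟨r', Finset.mem_of_mem_erase hr', e⟩
                  · exact Or.inr ⟨r', Finset.mem_of_mem_erase hr', e⟩ }
        intro w2 hw2 hw2'
        exact h1 (R.erase r) _ _ Pf _ hcard hc' w2 hw2 hw2'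
    · exact WinN_succ (le_max_right _ _) (h2 R B' W' Pf Q hRc hc w hwB hwW hwR)

/-- node `g` -/
theorem Sem_general {I : Finset P} {m : P} (kids : List Kid) (hm : m ∉ B ∧ m ∉ W ∧ m ∉ G)
    (hk : ∀ k ∈ kids, Sem G g (if k.D then K + 1 else K) (insert m B) (W ∪ k.A) k.Z)
    (hkZ : ∀ k ∈ kids, k.Z ⊆ Z) (hkI : ∀ k ∈ kids, k.Z ⊆ I)
    (hdef : ∃ k ∈ kids, k.D = true)
    (hcov : ∀ x ∈ I, x ∉ insert m B → x ∉ W → ∃ k ∈ kids, x ∈ k.A ∨ (k.D = true ∧ x ∉ k.Z))
    (hf : FlagOK G g K (insert m B) W Z) :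
    Sem G g K B W (insert m Z) := by
  intro c
  obtain ⟨n, hn⟩ := general_aux kids hk hkZ hkI hdef hcov hf c
  refine ⟨n + 1, fun R B' W' Pf Q hRc hc => ?_⟩
  obtain ⟨m', h1, h2, hc'⟩ := hc.play hm
  exact ⟨m', h1, h2, Or.inr fun w hw1 hw2 => hn R _ _ Pf Q hRc hc' w hw1 hw2⟩

/-! Top level consequences. -/

/-- no phantom stones -/
theorem Sem_top (h : Sem G g 0 B W Z) (hd : Disjoint B W) : ∃ n, WinN n B W := by
  obtain ⟨n, hn⟩ := h 0
  refine ⟨n, hn ∅ B W ∅ ∅ (by simp) ?_⟩
  exact
    { hB := subset_rfl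
      dis := hd
      hW := by simp
      hPZ := by simp
      hP := by simp
      hQG := by simp
      hR := by simp
      hRd := by simp
      hQ := by intro ω _ _; right; simp [pc] }

theorem gw_pos {ω : Finset P} {x : P} (hx : x ∈ ω) (hG : x ∈ G) : gw G g ω = g := by
  unfold gw
  rw [if_pos ⟨x, hx, hG⟩]

/-- one real stone `q` in `G` (uniform bound) -/
theorem Sem_top1 (hg : 1 ≤ g) (h : Sem G g 0 B W Z) (hd : Disjoint B W) :
    ∃ n, ∀ q ∈ G, q ∉ B → WinN n B (insert q W) := by
  obtain ⟨n, hn⟩ := h 0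
  refine ⟨n, fun q hqG hqB => hn ∅ B (insert q W) ∅ {q} (by simp) ?_⟩
  exact
    { hB := subset_rfl
      dis := by rw [Finset.disjoint_insert_right]; exact ⟨hqB, hd⟩
      hW := by
        intro x hx
        rw [Finset.mem_insert] at hx
        simp only [Finset.mem_union, Finset.mem_singleton]
        tauto
      hPZ := by simp
      hP := by simp
      hQG := by simpa using hqG
      hR := by simp
      hRd := by simp
      hQ := by
        intro ω _ _
        right
        have : ({q} ∪ pc ∅) ∩ ω = {q} ∩ ω := by simp [pc]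
        rw [this]
        by_cases hq : q ∈ ω
        · rw [gw_pos hq hqG]
          exact (Finset.card_le_card Finset.inter_subset_left).trans (by simpa using hg)
        · have : {q} ∩ ω = ∅ := by
            rw [← Finset.disjoint_iff_inter_eq_empty, Finset.disjoint_singleton_left]
            exact hq
          rw [this]; simp }

end lemmas
end Pool.Agent.H88.FIR
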