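import Pool.Agent.H74.FIR.Abs

/-! Five in a row: two far stones, symmetries, the strategy theorem. -/

set_option autoImplicit false

namespace Pool.Agent.H88.FIR

section top2

/-- positions of the local pairs when the two stones are at positions `0` and `δ` of a line -/
def ppos : ℕ → List (ℤ × ℤ)
  | 1 => [(-2, -1), (2, 3)]
  | 2 => [(-3, -2), (-1, 1), (3, 4)]
  | 3 => [(-2, -1), (1, 2), (4, 5)]
  | _ => [(-2, -1), (1, 2), (5, 6)]

def posCells (δ : ℕ) : List ℤ := 0 :: (δ : ℤ) :: ((ppos δ).map Prod.fst ++ (ppos δ).map Prod.snd)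

/-- margin needed for stones at distance `δ` -/
def mrg (δ : ℕ) : ℤ := if δ = 2 then 3 else 2

theorem pos_fact1 : ∀ δ ∈ [1, 2, 3, 4], ∀ r ∈ ppos δ,
    r.1 ≠ r.2 ∧ r.1 ≠ 0 ∧ r.1 ≠ (δ : ℤ) ∧ r.2 ≠ 0 ∧ r.2 ≠ (δ : ℤ) ∧
    (|r.1| ≤ mrg δ ∨ |r.1 - (δ : ℤ)| ≤ mrg δ) ∧ (|r.2| ≤ mrg δ ∨ |r.2 - (δ : ℤ)| ≤ mrg δ) := by
  decide

theorem pos_fact2 : ∀ δ ∈ [1, 2, 3, 4], ∀ r ∈ ppos δ, ∀ r' ∈ ppos δ, r ≠ r' →
    r.1 ≠ r'.1 ∧ r.1 ≠ r'.2 ∧ r.2 ≠ r'.1 ∧ r.2 ≠ r'.2 := by
  decide

theorem pos_fact3 : ∀ δ ∈ [1, 2, 3, 4], ∀ i ∈ posCells δ, ∀ j ∈ posCells δ,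
    ∀ s ∈ List.range 5, ∀ t ∈ List.range 5, i ≠ j → j - i = (t : ℤ) - (s : ℤ) →
    ∃ r ∈ ppos δ, i - s ≤ r.1 ∧ r.1 < i - s + 5 ∧ i - s ≤ r.2 ∧ r.2 < i - s + 5 := by
  decide

theorem pos_len : ∀ δ, (ppos δ).length ≤ 3 := by
  intro δ
  match δ with
  | 0 => decide
  | 1 => decide
  | 2 => decide
  | 3 => decide
  | n + 4 => exact le_refl 3

theorem mem_win {a d x : P} : x ∈ win a d ↔ ∃ k : ℕ, k < 5 ∧ x = a + (k : ℤ) • d := by
  unfold win
  simp only [Finset.mem_image, Finset.mem_range]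
  constructor
  · rintro ⟨k, hk, e⟩; exact ⟨k, hk, e.symm⟩
  · rintro ⟨k, hk, e⟩; exact ⟨k, hk, e.symm⟩

theorem dirs_indep {d e : P} (hd : d ∈ dirs) (he : e ∈ dirs) {i j : ℤ} (hi : i ≠ 0)
    (h : i • d = j • e) : d = e := by
  unfold dirs at hd he
  simp only [Finset.mem_insert, Finset.mem_singleton] at hd he
  rcases hd with rfl | rfl | rfl | rfl <;> rcases he with rfl | rfl | rfl | rfl <;>
    first
    | rfl
    | (exfalso
       simp only [Prod.smul_mk, smul_eq_mul, Prod.mk.injEq] at h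
       omega)

theorem dirs_max {d : P} (hd : d ∈ dirs) (i : ℤ) : max |(i • d).1| |(i • d).2| = |i| := by
  unfold dirs at hd
  simp only [Finset.mem_insert, Finset.mem_singleton] at hd
  rcases hd with rfl | rfl | rfl | rfl <;> simp

variable {G : Set P} {g : ℕ} {B Z : Finset P}

/-- two stones on a common window, `q' = q + δ d` -/
theorem top2_line (hg : 1 ≤ g)
    {n : ℕ} (hn : ∀ (R : Finset (P × P)) (B' W' Pf Q : Finset P), R.card ≤ 3 →
      Compat G g 0 B ∅ Z R B' W' Pf Q → WinN n B' W')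
    {q d : P} (hd : d ∈ dirs) {δ : ℕ} (hδ : δ ∈ [1, 2, 3, 4])
    (near0 : ∀ i : ℤ, (|i| ≤ mrg δ ∨ |i - (δ : ℤ)| ≤ mrg δ) → q + i • d ∈ G ∧ q + i • d ∉ B) :
    WinN n B {q, q + (δ : ℤ) • d} := by
  set f : ℤ → P := fun i => q + i • d with hf
  have finj : ∀ i j, f i = f j → i = j := fun i j h => line_inj hd h
  have hf0 : f 0 = q := by simp [hf]
  have hfδ : f (δ : ℤ) = q + (δ : ℤ) • d := rfl
  set R : Finset (P × P) := ((ppos δ).map (fun r => (f r.1, f r.2))).toFinset with hRdef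
  have hmemR : ∀ r, r ∈ R ↔ ∃ p ∈ ppos δ, (f p.1, f p.2) = r := by
    intro r
    rw [hRdef, List.mem_toFinset, List.mem_map]
  have near : ∀ i : ℤ, (|i| ≤ mrg δ ∨ |i - (δ : ℤ)| ≤ mrg δ) → f i ∈ G ∧ f i ∉ B := near0
  have hm0 : 0 ≤ mrg δ := by unfold mrg; split_ifs <;> norm_num
  have hqn := near 0 (Or.inl (by rw [abs_zero]; exact hm0))
  have hqn' := near (δ : ℤ) (Or.inr (by rw [sub_self, abs_zero]; exact hm0))
  have hQ0 : ∀ x ∈ ({q, q + (δ : ℤ) • d} : Finset P), x ∈ G ∧ x ∉ B := by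
    intro x hx
    rw [Finset.mem_insert, Finset.mem_singleton] at hx
    rcases hx with rfl | rfl
    · rw [hf0] at hqn; exact ⟨hqn.1, hqn.2⟩
    · exact ⟨hqn'.1, hqn'.2⟩
  refine hn R B _ ∅ {q, q + (δ : ℤ) • d} ?_ ?_
  · rw [hRdef]
    refine (List.toFinset_card_le _).trans ?_
    rw [List.length_map]
    exact pos_len δ
  · have hcells : ∀ x ∈ ({q, q + (δ : ℤ) • d} : Finset P) ∪ pc R, ∃ i ∈ posCells δ, x = f i := by
      intro x hx
      rw [Finset.mem_union, Finset.mem_insert, Finset.mem_singleton] at hx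
      unfold pc at hx
      rw [Finset.mem_union, Finset.mem_image, Finset.mem_image] at hx
      unfold posCells
      rcases hx with (rfl | rfl) | (⟨r, hr, e⟩ | ⟨r, hr, e⟩)
      · exact ⟨0, by simp, hf0.symm⟩
      · exact ⟨(δ : ℤ), by simp, rfl⟩
      · obtain ⟨p, hp, e'⟩ := (hmemR r).1 hr
        refine ⟨p.1, ?_, ?_⟩
        · simp only [List.mem_cons, List.mem_append, List.mem_map]
          exact Or.inr (Or.inr (Or.inl ⟨p, hp, rfl⟩))
        · rw [← e, ← e']
      · obtain ⟨p, hp, e'⟩ := (hmemR r).1 hr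
        refine ⟨p.2, ?_, ?_⟩
        · simp only [List.mem_cons, List.mem_append, List.mem_map]
          exact Or.inr (Or.inr (Or.inr ⟨p, hp, rfl⟩))
        · rw [← e, ← e']
    have hcellsG : ∀ x ∈ ({q, q + (δ : ℤ) • d} : Finset P) ∪ pc R, x ∈ G := by
      intro x hx
      rw [Finset.mem_union] at hx
      rcases hx with hx | hx
      · exact (hQ0 x hx).1
      · unfold pc at hx
        rw [Finset.mem_union, Finset.mem_image, Finset.mem_image] at hx
        rcases hx with ⟨r, hr, e⟩ | ⟨r, hr, e⟩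
        · obtain ⟨p, hp, e'⟩ := (hmemR r).1 hr
          have h1 := pos_fact1 δ hδ p hp
          rw [← e, ← e']
          exact (near p.1 h1.2.2.2.2.2.1).1
        · obtain ⟨p, hp, e'⟩ := (hmemR r).1 hr
          have h1 := pos_fact1 δ hδ p hp
          rw [← e, ← e']
          exact (near p.2 h1.2.2.2.2.2.2).1
    exact
      { hB := subset_rfl
        dis := by
          rw [Finset.disjoint_right]
          intro x hx
          exact (hQ0 x hx).2
        hW := by
          intro x hx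
          exact Finset.mem_union_right _ hx
        hPZ := by simp
        hP := by simp
        hQG := fun x hx => (hQ0 x hx).1
        hR := by
          intro r hr
          obtain ⟨p, hp, rfl⟩ := (hmemR r).1 hr
          obtain ⟨h1, h2, h3, h4, h5, h6, h7⟩ := pos_fact1 δ hδ p hp
          obtain ⟨a1, a3⟩ := near p.1 h6
          obtain ⟨b1, b3⟩ := near p.2 h7
          refine ⟨a1, b1, fun e => h1 (finj _ _ e), a3, b3, ?_, ?_⟩
          · rw [Finset.mem_insert, Finset.mem_singleton, not_or]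
            exact ⟨fun e => h2 (finj _ _ (e.trans hf0.symm)), fun e => h3 (finj _ _ (e.trans hfδ.symm))⟩
          · rw [Finset.mem_insert, Finset.mem_singleton, not_or]
            exact ⟨fun e => h4 (finj _ _ (e.trans hf0.symm)), fun e => h5 (finj _ _ (e.trans hfδ.symm))⟩
        hRd := by
          intro r hr r' hr' hne
          obtain ⟨p, hp, rfl⟩ := (hmemR r).1 hr
          obtain ⟨p', hp', rfl⟩ := (hmemR r').1 hr'
          have hpp : p ≠ p' := by rintro rfl; exact hne rfl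
          obtain ⟨h1, h2, h3, h4⟩ := pos_fact2 δ hδ p hp p' hp' hpp
          exact ⟨fun e => h1 (finj _ _ e), fun e => h2 (finj _ _ e), fun e => h3 (finj _ _ e),
            fun e => h4 (finj _ _ e)⟩
        hQ := by
          intro ω hω _
          by_cases hcard : ((({q, q + (δ : ℤ) • d} : Finset P) ∪ pc R) ∩ ω).card ≤ 1
          · right
            rcases Nat.eq_zero_or_pos ((({q, q + (δ : ℤ) • d} : Finset P) ∪ pc R) ∩ ω).card with h0 | h0
            · rw [h0]; exact Nat.zero_le _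
            · obtain ⟨x, hx⟩ := Finset.card_pos.1 h0
              rw [Finset.mem_inter] at hx
              rw [gw_pos hx.2 (hcellsG x hx.1)]
              exact hcard.trans hg
          · left
            have h1 : 1 < ((({q, q + (δ : ℤ) • d} : Finset P) ∪ pc R) ∩ ω).card := by omega
            obtain ⟨x, hx, y, hy, hxy⟩ := Finset.one_lt_card.1 h1
            rw [Finset.mem_inter] at hx hy
            obtain ⟨a, e, he, rfl⟩ := hω
            obtain ⟨i, hi, rfl⟩ := hcells x hx.1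
            obtain ⟨j, hj, rfl⟩ := hcells y hy.1
            obtain ⟨s, hs, es⟩ := mem_win.1 hx.2
            obtain ⟨t, ht, et⟩ := mem_win.1 hy.2
            have hij : i ≠ j := by rintro rfl; exact hxy rfl
            have hrel : (j - i) • d = ((t : ℤ) - (s : ℤ)) • e := by
              have : f j - f i = (a + (t : ℤ) • e) - (a + (s : ℤ) • e) := by rw [es, et]
              simp only [hf, add_sub_add_left_eq_sub] at this
              rw [sub_smul, sub_smul]; exact this
            have hde : d = e := dirs_indep hd he (sub_ne_zero.2 hij.symm) hrel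
            subst hde
            have hji : j - i = (t : ℤ) - (s : ℤ) := by
              refine line_inj (a := 0) hd ?_
              rw [hrel]
            obtain ⟨p, hp, b1, b2, b3, b4⟩ := pos_fact3 δ hδ i hi j hj s (List.mem_range.2 hs) t
              (List.mem_range.2 ht) hij hji
            have ha : a = q + (i - (s : ℤ)) • d := by
              have : a = (a + (s : ℤ) • d) - (s : ℤ) • d := by abel
              rw [this, ← es, sub_smul]
              simp only [hf]; abel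
            refine ⟨(f p.1, f p.2), (hmemR _).2 ⟨p, hp, rfl⟩, ?_, ?_⟩
            · refine mem_win.2 ⟨(p.1 - (i - s)).toNat, by omega, ?_⟩
              rw [Int.toNat_of_nonneg (by omega), ha, add_assoc, ← add_smul]
              simp only [hf]
              congr 2; ring
            · refine mem_win.2 ⟨(p.2 - (i - s)).toNat, by omega, ?_⟩
              rw [Int.toNat_of_nonneg (by omega), ha, add_assoc, ← add_smul]
              simp only [hf]
              congr 2; ring }

theorem top2_aux (hg : 1 ≤ g)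
    {n : ℕ} (hn : ∀ (R : Finset (P × P)) (B' W' Pf Q : Finset P), R.card ≤ 3 →
      Compat G g 0 B ∅ Z R B' W' Pf Q → WinN n B' W')
    {q q' d : P} (hd : d ∈ dirs) {δ : ℕ} (hδ : δ ∈ [1, 2, 3, 4]) (e : q' = q + (δ : ℤ) • d)
    (hm : ∀ x : P,
        (max |x.1 - q.1| |x.2 - q.2| ≤ (if max |q.1 - q'.1| |q.2 - q'.2| = 2 then 3 else 2) ∨
         max |x.1 - q'.1| |x.2 - q'.2| ≤ (if max |q.1 - q'.1| |q.2 - q'.2| = 2 then 3 else 2)) →
         x ∈ G ∧ x ∉ B) : WinN n B {q, q'} := by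
  have hdist : max |q.1 - q'.1| |q.2 - q'.2| = (δ : ℤ) := by
    rw [e, Prod.fst_add, Prod.snd_add]
    have h1 : q.1 - (q.1 + ((δ : ℤ) • d).1) = -((δ : ℤ) • d).1 := by ring
    have h2 : q.2 - (q.2 + ((δ : ℤ) • d).2) = -((δ : ℤ) • d).2 := by ring
    rw [h1, h2, abs_neg, abs_neg, dirs_max hd, Nat.abs_cast]
  have hif : (if max |q.1 - q'.1| |q.2 - q'.2| = 2 then (3 : ℤ) else 2) = mrg δ := by
    rw [hdist]
    unfold mrg
    by_cases h2 : δ = 2
    · subst h2; simp
    · rw [if_neg h2, if_neg (by exact_mod_cast h2)]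
  rw [hif] at hm
  subst e
  refine top2_line hg hn hd hδ fun i hi => hm _ ?_
  rcases hi with hi | hi
  · left
    have h1 : (q + i • d).1 - q.1 = (i • d).1 := by rw [Prod.fst_add]; ring
    have h2 : (q + i • d).2 - q.2 = (i • d).2 := by rw [Prod.snd_add]; ring
    rw [h1, h2, dirs_max hd]; exact hi
  · right
    have h1 : (q + i • d).1 - (q + (δ : ℤ) • d).1 = ((i - (δ : ℤ)) • d).1 := by
      simp only [Prod.fst_add, Prod.smul_fst, smul_eq_mul]; ring
    have h2 : (q + i • d).2 - (q + (δ : ℤ) • d).2 = ((i - (δ : ℤ)) • d).2 := by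
      simp only [Prod.snd_add, Prod.smul_snd, smul_eq_mul]; ring
    rw [h1, h2, dirs_max hd]; exact hi

/-- two real stones in `G`; if they lie in a common window they are neutralised by local pairing
(then a margin around them must lie in `G` and outside `B`).  (Used with `B = {b1, b3}`, `W = ∅`.) -/
theorem Sem_top2 (hg : 1 ≤ g) (h : Sem G g 0 B ∅ Z) :
    ∃ n, ∀ q q' : P, q ≠ q' → q ∈ G → q' ∈ G → q ∉ B → q' ∉ B →
      ((∃ ω, IsWin ω ∧ q ∈ ω ∧ q' ∈ ω) → ∀ x : P,
        (max |x.1 - q.1| |x.2 - q.2| ≤ (if max |q.1 - q'.1| |q.2 - q'.2| = 2 then 3 else 2) ∨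
         max |x.1 - q'.1| |x.2 - q'.2| ≤ (if max |q.1 - q'.1| |q.2 - q'.2| = 2 then 3 else 2)) →
         x ∈ G ∧ x ∉ B) →
      WinN n B {q, q'} := by
  obtain ⟨n, hn⟩ := h 3
  refine ⟨n, fun q q' hne hqG hqG' hqB hqB' hm => ?_⟩
  by_cases hw : ∃ ω, IsWin ω ∧ q ∈ ω ∧ q' ∈ ω
  · have hm' := hm hw
    obtain ⟨ω, ⟨a, d, hd, rfl⟩, h1, h2⟩ := hw
    obtain ⟨i, hi, ei⟩ := mem_win.1 h1
    obtain ⟨j, hj, ej⟩ := mem_win.1 h2
    have hij : i ≠ j := by
      rintro rfl
      exact hne (ei.trans ej.symm)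
    rcases Nat.lt_or_gt_of_ne hij with hlt | hlt
    · have e : q' = q + ((j - i : ℕ) : ℤ) • d := by
        rw [ei, ej, Nat.cast_sub hlt.le, sub_smul]; abel
      have hδ : (j - i) ∈ [1, 2, 3, 4] := by
        have : j - i = 1 ∨ j - i = 2 ∨ j - i = 3 ∨ j - i = 4 := by omega
        simpa using this
      exact top2_aux hg hn hd hδ e hm'
    · have e : q = q' + ((i - j : ℕ) : ℤ) • d := by
        rw [ei, ej, Nat.cast_sub hlt.le, sub_smul]; abel
      have hδ : (i - j) ∈ [1, 2, 3, 4] := by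
        have : i - j = 1 ∨ i - j = 2 ∨ i - j = 3 ∨ i - j = 4 := by omega
        simpa using this
      rw [Finset.pair_comm]
      refine top2_aux hg hn hd hδ e fun x hx => hm' x ?_
      rw [abs_sub_comm q'.1 q.1, abs_sub_comm q'.2 q.2] at hx
      exact hx.symm
  · have hQ0 : ∀ x ∈ ({q, q'} : Finset P), x ∈ G ∧ x ∉ B := by
      intro x hx
      rw [Finset.mem_insert, Finset.mem_singleton] at hx
      rcases hx with rfl | rfl
      · exact ⟨hqG, hqB⟩
      · exact ⟨hqG', hqB'⟩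
    refine hn ∅ B {q, q'} ∅ {q, q'} (by simp) ?_
    exact
      { hB := subset_rfl
        dis := by
          rw [Finset.disjoint_right]
          intro x hx
          exact (hQ0 x hx).2
        hW := by
          intro x hx
          exact Finset.mem_union_right _ hx
        hPZ := by simp
        hP := by simp
        hQG := fun x hx => (hQ0 x hx).1
        hR := by simp
        hRd := by simp
        hQ := by
          intro ω hω _
          right
          have e0 : (({q, q'} : Finset P) ∪ pc ∅) ∩ ω = {q, q'} ∩ ω := by simp [pc]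
          rw [e0]
          have hcard : (({q, q'} : Finset P) ∩ ω).card ≤ 1 := by
            rw [Finset.card_le_one]
            intro x hx y hy
            rw [Finset.mem_inter, Finset.mem_insert, Finset.mem_singleton] at hx hy
            rcases hx with ⟨rfl | rfl, hx⟩ <;> rcases hy with ⟨rfl | rfl, hy⟩
            · rfl
            · exact (hw ⟨ω, hω, hx, hy⟩).elim
            · exact (hw ⟨ω, hω, hy, hx⟩).elim
            · rfl
          rcases Nat.eq_zero_or_pos (({q, q'} : Finset P) ∩ ω).card with h0 | h0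
          · rw [h0]; exact Nat.zero_le _
          · obtain ⟨x, hx⟩ := Finset.card_pos.1 h0
            rw [Finset.mem_inter] at hx
            rw [gw_pos hx.2 (hQ0 x hx.1).1]
            exact hcard.trans hg }

end top2

/-! Symmetries -/
/-- a symmetry of the grid -/
structure Sym (f : P ≃ P) : Prop where
  five : ∀ S : Finset P, Five (S.map f.toEmbedding) ↔ Five S

theorem WinN_sym {f : P ≃ P} (hf : Sym f) {n : ℕ} : ∀ {B W : Finset P},
    WinN n (B.map f.toEmbedding) (W.map f.toEmbedding) ↔ WinN n B W := by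
  induction n with
  | zero => intro B W; exact Iff.rfl
  | succ n ih =>
    intro B W
    have hins : ∀ (x : P) (S : Finset P), insert (f x) (S.map f.toEmbedding) = (insert x S).map f.toEmbedding := by
      intro x S
      rw [Finset.map_insert]; rfl
    have hmem : ∀ (x : P) (S : Finset P), f x ∈ S.map f.toEmbedding ↔ x ∈ S := by
      intro x S
      exact Finset.mem_map' f.toEmbedding
    constructor
    · rintro ⟨m, h1, h2, h3⟩
      obtain ⟨m, rfl⟩ := f.surjective m
      rw [hmem] at h1 h2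
      refine ⟨m, h1, h2, ?_⟩
      rw [hins, hf.five] at h3
      refine h3.imp_right fun h3 w hw1 hw2 => ?_
      have := h3 (f w) (by rwa [hmem]) (by rwa [hmem])
      rw [hins, hf.five, ih] at this
      exact this
    · rintro ⟨m, h1, h2, h3⟩
      refine ⟨f m, by rwa [hmem], by rwa [hmem], ?_⟩
      rw [hins, hf.five]
      refine h3.imp_right fun h3 w hw1 hw2 => ?_
      obtain ⟨w, rfl⟩ := f.surjective w
      rw [hmem] at hw1 hw2
      rw [hins, hf.five, ih]
      exact h3 w hw1 hw2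

theorem five_of_neg {S : Finset P} {a d : P} (hd : -d ∈ dirs)
    (h : ∀ k : ℕ, k < 5 → a + (k : ℤ) • d ∈ S) : Five S := by
  refine ⟨a + (4 : ℤ) • d, -d, hd, fun k hk => ?_⟩
  have h1 := h (4 - k) (by omega)
  have e : a + (4 : ℤ) • d + (k : ℤ) • (-d) = a + ((4 - k : ℕ) : ℤ) • d := by
    rw [Nat.cast_sub (by omega), sub_smul, smul_neg]
    push_cast
    abel
  rw [e]; exact h1

theorem five_iff {S : Finset P} : Five S ↔ ∃ a d : P, (d ∈ dirs ∨ -d ∈ dirs) ∧
    ∀ k : ℕ, k < 5 → a + (k : ℤ) • d ∈ S := by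
  constructor
  · rintro ⟨a, d, hd, h⟩; exact ⟨a, d, Or.inl hd, h⟩
  · rintro ⟨a, d, hd | hd, h⟩
    · exact ⟨a, d, hd, h⟩
    · exact five_of_neg hd h

theorem Sym.refl : Sym (Equiv.refl P) := ⟨fun S => by
  have : S.map (Equiv.refl P).toEmbedding = S := by ext; simp
  rw [this]⟩

theorem Sym.trans {f h : P ≃ P} (hf : Sym f) (hh : Sym h) : Sym (f.trans h) := ⟨fun S => by
  have : S.map (f.trans h).toEmbedding = (S.map f.toEmbedding).map h.toEmbedding := by
    rw [Finset.map_map]; rfl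
  rw [this, hh.five, hf.five]⟩

theorem Sym.symm {f : P ≃ P} (hf : Sym f) : Sym f.symm := ⟨fun S => by
  have : (S.map f.symm.toEmbedding).map f.toEmbedding = S := by
    ext x; simp
  rw [← hf.five (S.map f.symm.toEmbedding), this]⟩

theorem five_transfer (f : P → P) (L : P → P) (hL : ∀ d, (d ∈ dirs ∨ -d ∈ dirs) → (L d ∈ dirs ∨ -(L d) ∈ dirs))
    (hf : ∀ (a d : P) (k : ℤ), f (a + k • d) = f a + k • L d) {S T : Finset P}
    (hST : ∀ x ∈ S, f x ∈ T) (h : Five S) : Five T := by
  rw [five_iff] at h ⊢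
  obtain ⟨a, d, hd, h⟩ := h
  refine ⟨f a, L d, hL d hd, fun k hk => ?_⟩
  rw [← hf]
  exact hST _ (h k hk)

theorem Sym_of {f : P ≃ P} (L L' : P → P)
    (hL : ∀ d, (d ∈ dirs ∨ -d ∈ dirs) → (L d ∈ dirs ∨ -(L d) ∈ dirs))
    (hf : ∀ (a d : P) (k : ℤ), f (a + k • d) = f a + k • L d)
    (hL' : ∀ d, (d ∈ dirs ∨ -d ∈ dirs) → (L' d ∈ dirs ∨ -(L' d) ∈ dirs))
    (hf' : ∀ (a d : P) (k : ℤ), f.symm (a + k • d) = f.symm a + k • L' d) : Sym f := ⟨fun S => by
  constructor
  · refine five_transfer f.symm L' hL' hf' ?_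
    intro x hx
    rw [Finset.mem_map_equiv] at hx
    exact hx
  · refine five_transfer f L hL hf ?_
    intro x hx
    rw [Finset.mem_map_equiv, Equiv.symm_apply_apply]
    exact hx⟩

/-- translations -/
theorem Sym_add (v : P) : Sym (Equiv.addRight v) :=
  Sym_of id id (fun _ h => h) (fun a d k => by simp only [Equiv.coe_addRight, id]; abel)
    (fun _ h => h) (fun a d k => by
      simp only [Equiv.addRight_symm, Equiv.coe_addRight, id]; abel)

theorem dirs_pm {d : P} : (d ∈ dirs ∨ -d ∈ dirs) ↔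
    d = (1, 0) ∨ d = (0, 1) ∨ d = (1, 1) ∨ d = (1, -1) ∨
    d = (-1, 0) ∨ d = (0, -1) ∨ d = (-1, -1) ∨ d = (-1, 1) := by
  unfold dirs
  simp only [Finset.mem_insert, Finset.mem_singleton]
  obtain ⟨x, y⟩ := d
  simp only [Prod.neg_mk, Prod.mk.injEq]
  omega

/-- reflection in the diagonal -/
theorem Sym_swap : Sym (Equiv.prodComm ℤ ℤ) := by
  have hL : ∀ d : P, (d ∈ dirs ∨ -d ∈ dirs) → (d.swap ∈ dirs ∨ -d.swap ∈ dirs) := by
    intro d hd
    rw [dirs_pm] at hd ⊢
    rcases hd with rfl | rfl | rfl | rfl | rfl | rfl | rfl | rfl <;> simp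
  refine Sym_of Prod.swap Prod.swap hL ?_ hL ?_
  · intro a d k; rfl
  · intro a d k; rfl

def negX : P ≃ P where
  toFun p := (-p.1, p.2)
  invFun p := (-p.1, p.2)
  left_inv p := by simp
  right_inv p := by simp

def negY : P ≃ P where
  toFun p := (p.1, -p.2)
  invFun p := (p.1, -p.2)
  left_inv p := by simp
  right_inv p := by simp

theorem Sym_negX : Sym negX := by
  have hL : ∀ d : P, (d ∈ dirs ∨ -d ∈ dirs) → (negX d ∈ dirs ∨ -negX d ∈ dirs) := by
    intro d hd
    rw [dirs_pm] at hd ⊢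
    rcases hd with rfl | rfl | rfl | rfl | rfl | rfl | rfl | rfl <;> simp [negX]
  refine Sym_of negX negX hL ?_ hL ?_
  · intro a d k
    simp only [negX, Equiv.coe_fn_mk, Prod.fst_add, Prod.snd_add, Prod.smul_fst, Prod.smul_snd,
      smul_eq_mul, Prod.smul_mk, Prod.mk_add_mk, Prod.mk.injEq]
    exact ⟨by ring, trivial⟩
  · intro a d k
    simp only [negX, Equiv.coe_fn_mk, Equiv.coe_fn_symm_mk, Prod.fst_add, Prod.snd_add, Prod.smul_fst,
      Prod.smul_snd, smul_eq_mul, Prod.smul_mk, Prod.mk_add_mk, Prod.mk.injEq]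
    exact ⟨by ring, trivial⟩

theorem Sym_negY : Sym negY := by
  have hL : ∀ d : P, (d ∈ dirs ∨ -d ∈ dirs) → (negY d ∈ dirs ∨ -negY d ∈ dirs) := by
    intro d hd
    rw [dirs_pm] at hd ⊢
    rcases hd with rfl | rfl | rfl | rfl | rfl | rfl | rfl | rfl <;> simp [negY]
  refine Sym_of negY negY hL ?_ hL ?_
  · intro a d k
    simp only [negY, Equiv.coe_fn_mk, Prod.fst_add, Prod.snd_add, Prod.smul_fst, Prod.smul_snd,
      smul_eq_mul, Prod.smul_mk, Prod.mk_add_mk, Prod.mk.injEq]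
    exact ⟨trivial, by ring⟩
  · intro a d k
    simp only [negY, Equiv.coe_fn_mk, Equiv.coe_fn_symm_mk, Prod.fst_add, Prod.snd_add, Prod.smul_fst,
      Prod.smul_snd, smul_eq_mul, Prod.smul_mk, Prod.mk_add_mk, Prod.mk.injEq]
    exact ⟨trivial, by ring⟩

/-- every cell can be moved to the sector `0 ≤ y ≤ x` by a symmetry fixing the origin -/
theorem exists_sym_sector (w : P) : ∃ f : P ≃ P, Sym f ∧ f 0 = 0 ∧ 0 ≤ (f w).2 ∧ (f w).2 ≤ (f w).1 := by
  obtain ⟨f, hf, f0, h1⟩ : ∃ f : P ≃ P, Sym f ∧ f 0 = 0 ∧ 0 ≤ (f w).1 := by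
    by_cases h : 0 ≤ w.1
    · exact ⟨Equiv.refl P, Sym.refl, rfl, h⟩
    · exact ⟨negX, Sym_negX, rfl, by simp only [negX, Equiv.coe_fn_mk]; omega⟩
  obtain ⟨f', hf', f0', h1', h2'⟩ : ∃ f : P ≃ P, Sym f ∧ f 0 = 0 ∧ 0 ≤ (f w).1 ∧ 0 ≤ (f w).2 := by
    by_cases h : 0 ≤ (f w).2
    · exact ⟨f, hf, f0, h1, h⟩
    · refine ⟨f.trans negY, hf.trans Sym_negY, ?_, ?_, ?_⟩
      · rw [Equiv.trans_apply, f0]; rfl
      · rw [Equiv.trans_apply]; exact h1
      · rw [Equiv.trans_apply]; simp only [negY, Equiv.coe_fn_mk]; omega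
  by_cases h : (f' w).2 ≤ (f' w).1
  · exact ⟨f', hf', f0', h2', h⟩
  · refine ⟨f'.trans (Equiv.prodComm ℤ ℤ), hf'.trans Sym_swap, ?_, ?_, ?_⟩
    · rw [Equiv.trans_apply, f0']; rfl
    · rw [Equiv.trans_apply]; exact h1'
    · rw [Equiv.trans_apply]
      show (f' w).1 ≤ (f' w).2
      omega

/-! The strategy theorem. -/

theorem exists_move (B W : Finset P) : ∃ m : P, m ∉ B ∧ m ∉ W ∧
    ∀ n, WinN (n + 1) B W → (∀ n', WinN n' B W → n + 1 ≤ n') →
      (Five (insert m B) ∨ ∀ w, w ∉ insert m B → w ∉ W →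
        ¬ Five (insert w W) ∧ WinN n (insert m B) (insert w W)) := by
  by_cases h : ∃ n, WinN n B W
  · obtain ⟨n0, h0, hmin⟩ : ∃ n0, WinN n0 B W ∧ ∀ n', WinN n' B W → n0 ≤ n' := by
      classical
      exact ⟨Nat.find h, Nat.find_spec h, fun n' hn' => Nat.find_min' h hn'⟩
    cases n0 with
    | zero => exact h0.elim
    | succ n0 =>
      obtain ⟨m, h1, h2, h3⟩ := h0
      refine ⟨m, h1, h2, fun n hn hn' => ?_⟩
      have e1 : n0 + 1 ≤ n + 1 := hmin _ hn
      have e2 : n + 1 ≤ n0 + 1 := hn' _ ⟨m, h1, h2, h3⟩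
      have : n = n0 := by omega
      subst this
      exact h3
  · obtain ⟨x, hx⟩ := Infinite.exists_notMem_finset (B ∪ W)
    rw [Finset.mem_union, not_or] at hx
    exact ⟨x, hx.1, hx.2, fun n hn _ => (h ⟨_, hn⟩).elim⟩

/-- strategy theorem: the frozen statement -/
theorem strategy (h : ∃ n, WinN n ∅ ∅) :
    ∃ σ : List (ℤ × ℤ) → ℤ × ℤ,
      ∀ p : ℕ → ℤ × ℤ,
        (∀ m : ℕ, p (2 * m) = σ (List.ofFn (fun i : Fin (2 * m) => p i))) →
        (∀ m i : ℕ, i < 2 * m + 1 → p i ≠ p (2 * m + 1)) →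
        (∀ m i : ℕ, i < 2 * m → p i ≠ p (2 * m)) ∧
        ∃ n : ℕ,
          (∃ a d : ℤ × ℤ,
              d ∈ ({((1 : ℤ), (0 : ℤ)), ((0 : ℤ), (1 : ℤ)), ((1 : ℤ), (1 : ℤ)),
                    ((1 : ℤ), (-1 : ℤ))} : Finset (ℤ × ℤ)) ∧
              ∀ k : ℕ, k < 5 → ∃ i : ℕ, i ≤ n ∧ p (2 * i) = a + (k : ℤ) • d) ∧
          ¬ (∃ b e : ℤ × ℤ,
              e ∈ ({((1 : ℤ), (0 : ℤ)), ((0 : ℤ), (1 : ℤ)), ((1 : ℤ), (1 : ℤ)),
                    ((1 : ℤ), (-1 : ℤ))} : Finset (ℤ × ℤ)) ∧
              ∀ k : ℕ, k < 5 → ∃ i : ℕ, i < n ∧ p (2 * i + 1) = b + (k : ℤ) • e) := by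
  choose mv hmvB hmvW hmv using exists_move
  refine ⟨fun L => mv ((Finset.range (L.length / 2)).image (fun i => L.getD (2 * i) 0))
    ((Finset.range (L.length / 2)).image (fun i => L.getD (2 * i + 1) 0)), fun p hp hleg => ?_⟩
  set Bs : ℕ → Finset P := fun m => (Finset.range m).image (fun i => p (2 * i)) with hBs
  set Ws : ℕ → Finset P := fun m => (Finset.range m).image (fun i => p (2 * i + 1)) with hWs
  have hmove : ∀ m, p (2 * m) = mv (Bs m) (Ws m) := by
    intro m
    rw [hp m]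
    have hlen : (List.ofFn (fun i : Fin (2 * m) => p i)).length / 2 = m := by
      rw [List.length_ofFn]; omega
    have hget : ∀ i, i < 2 * m → (List.ofFn (fun i : Fin (2 * m) => p i)).getD i 0 = p i := by
      intro i hi
      rw [List.getD_eq_getElem _ _ (by rw [List.length_ofFn]; exact hi), List.getElem_ofFn]
    simp only [hlen]
    congr 1
    · refine Finset.image_congr ?_
      intro i hi
      have : i < m := Finset.mem_range.1 hi
      exact hget _ (by omega)
    · refine Finset.image_congr ?_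
      intro i hi
      have : i < m := Finset.mem_range.1 hi
      exact hget _ (by omega)
  have hB1 : ∀ m, Bs (m + 1) = insert (p (2 * m)) (Bs m) := by
    intro m
    simp only [hBs, Finset.range_add_one, Finset.image_insert]
  have hW1 : ∀ m, Ws (m + 1) = insert (p (2 * m + 1)) (Ws m) := by
    intro m
    simp only [hWs, Finset.range_add_one, Finset.image_insert]
  refine ⟨?_, ?_⟩
  · intro m i hi he
    rcases Nat.even_or_odd' i with ⟨j, rfl | rfl⟩
    · have : p (2 * j) ∈ Bs m := Finset.mem_image.2 ⟨j, Finset.mem_range.2 (by omega), rfl⟩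
      rw [he, hmove m] at this
      exact hmvB _ _ this
    · have : p (2 * j + 1) ∈ Ws m := Finset.mem_image.2 ⟨j, Finset.mem_range.2 (by omega), rfl⟩
      rw [he, hmove m] at this
      exact hmvW _ _ this
  · have main : ∀ n m, WinN n (Bs m) (Ws m) → ¬ Five (Ws m) →
        ∃ k, Five (Bs (k + 1)) ∧ ¬ Five (Ws k) := by
      intro n
      induction n using Nat.strong_induction_on with
      | _ n ih =>
        intro m hn hm
        obtain ⟨n0, h0, hmin⟩ : ∃ n0, WinN n0 (Bs m) (Ws m) ∧ ∀ n', WinN n' (Bs m) (Ws m) → n0 ≤ n' := by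
          classical
          have hex : ∃ n', WinN n' (Bs m) (Ws m) := ⟨n, hn⟩
          exact ⟨Nat.find hex, Nat.find_spec hex, fun n' hn' => Nat.find_min' hex hn'⟩
        cases n0 with
        | zero => exact h0.elim
        | succ n0 =>
          have hle : n0 + 1 ≤ n := hmin _ hn
          rcases hmv (Bs m) (Ws m) n0 h0 hmin with h5 | hw
          · refine ⟨m, ?_, hm⟩
            rw [hB1, hmove m]; exact h5
          · have hwB : p (2 * m + 1) ∉ insert (mv (Bs m) (Ws m)) (Bs m) := by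
              rw [← hmove m, Finset.mem_insert, not_or]
              refine ⟨fun e => hleg m (2 * m) (by omega) e.symm, fun hmem => ?_⟩
              obtain ⟨j, hj, e⟩ := Finset.mem_image.1 hmem
              have := Finset.mem_range.1 hj
              exact hleg m (2 * j) (by omega) e
            have hwW : p (2 * m + 1) ∉ Ws m := by
              intro hmem
              obtain ⟨j, hj, e⟩ := Finset.mem_image.1 hmem
              have := Finset.mem_range.1 hj
              exact hleg m (2 * j + 1) (by omega) e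
            obtain ⟨h6, h7⟩ := hw _ hwB hwW
            rw [← hmove m, ← hB1, ← hW1] at h7
            rw [← hW1] at h6
            exact ih n0 (by omega) (m + 1) h7 h6
    obtain ⟨n, hn⟩ := h
    obtain ⟨k, h1, h2⟩ := main n 0 (by simpa [hBs, hWs] using hn) (by
      rintro ⟨a, d, -, h⟩
      have := h 0 (by norm_num)
      simp [hWs] at this)
    refine ⟨k, ?_, ?_⟩
    · obtain ⟨a, d, hd, h⟩ := h1
      refine ⟨a, d, hd, fun j hj => ?_⟩
      obtain ⟨i, hi, e⟩ := Finset.mem_image.1 (h j hj)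
      exact ⟨i, Nat.lt_succ_iff.1 (Finset.mem_range.1 hi), e⟩
    · rintro ⟨b, e, he, h⟩
      refine h2 ⟨b, e, he, fun j hj => ?_⟩
      obtain ⟨i, hi, e'⟩ := h j hj
      exact Finset.mem_image.2 ⟨i, Finset.mem_range.2 hi, e'⟩

end Pool.Agent.H88.FIR
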