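import Pool.Agent.H74.FIR.Sound

/-! Soundness of the boolean check `Ck.chk` used by the data modules, and game level consequences. -/

set_option autoImplicit false

namespace Pool.Agent.H88.FIR

open Pool.Agent.H88

attribute [local irreducible] Ck.ev Ck.st Ck.sts Ck.ONES Ck.MASK Ck.KK Ck.KB Ck.KW Ck.C23 Ck.C33 Ck.AM Ck.AMS Ck.X0

section
variable {G : Set P} {g bias UM : ℕ}

theorem sts_cons (X : ℕ) (a : List ℕ × List ℕ) (L : List (List ℕ × List ℕ)) :
    Ck.sts X (a :: L) = Ck.st X a.1 a.2 :: Ck.sts X L := by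
  unfold Ck.sts; rfl

theorem mem_sts {X : ℕ} {L : List (List ℕ × List ℕ)} {Y : ℕ} (h : Y ∈ Ck.sts X L) :
    ∃ p ∈ L, Y = Ck.st X p.1 p.2 := by
  induction L with
  | nil => unfold Ck.sts at h; exact absurd h (List.not_mem_nil)
  | cons a L ih =>
    rw [sts_cons] at h
    rcases List.mem_cons.1 h with h | h
    · exact ⟨a, List.mem_cons_self, h⟩
    · obtain ⟨p, hp, e⟩ := ih h
      exact ⟨p, List.mem_cons_of_mem _ hp, e⟩

/-- the claim of a position given by lists of codes minus 121 -/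
def Claim (G : Set P) (g bias : ℕ) (b w : List ℕ) : Prop := Good G g bias (Ck.st (Ck.X0 + bias) b w)

theorem chk_sound (hG : GType G g bias UM) {r s : ℕ} {L : List (List ℕ × List ℕ)} {b w : List ℕ}
    (hr : r + g ≤ 3) (h : Ck.chk bias UM r L s b w = true)
    (hL : ∀ p ∈ L, Claim G g bias p.1 p.2) : Claim G g bias b w := by
  have h' : Nat.ble 1 (Ck.ev (Ck.C33 + bias) UM (Ck.sts (Ck.X0 + bias) L) 200 r 0 Ck.LM s
      (Ck.st (Ck.X0 + bias) b w)) = true := by
    unfold Ck.chk at h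
    rw [F_eq, F_eq, F_eq] at h
    exact h
  exact sound hG (fun X hX => by
    obtain ⟨p, hp, rfl⟩ := mem_sts hX
    exact hL p hp) hr h'

/-- cells of a list of codes minus 121 -/
def cl (l : List ℕ) : Finset P := cellsOf ((l.map (· + 121)).toFinset)

theorem mem_cl {l : List ℕ} {x : P} : x ∈ cl l ↔ ∃ c ∈ l, pos (c + 121) = x := by
  unfold cl cellsOf
  rw [Finset.mem_image]
  constructor
  · rintro ⟨v, hv, e⟩
    rw [List.mem_toFinset, List.mem_map] at hv
    obtain ⟨c, hc, rfl⟩ := hv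
    exact ⟨c, hc, e⟩
  · rintro ⟨c, hc, e⟩
    exact ⟨c + 121, List.mem_toFinset.2 (List.mem_map.2 ⟨c, hc, rfl⟩), e⟩

theorem Claim.sem {b w : List ℕ} (h : Claim G g bias b w) (hn : (b ++ w).Nodup)
    (hi : ∀ c ∈ b ++ w, Inn (c + 121)) : ∃ Z, Sem G g 0 (cl b) (cl w) Z :=
  ⟨_, h _ _ (Rep_st hn hi)⟩

theorem cl_disj {b w : List ℕ} (hn : (b ++ w).Nodup) : Disjoint (cl b) (cl w) := by
  rw [Finset.disjoint_left]
  intro x hx hx'
  obtain ⟨c, hc, rfl⟩ := mem_cl.1 hx
  obtain ⟨c', hc', e⟩ := mem_cl.1 hx'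
  have e' := pos_inj e
  have : c = c' := by omega
  subst this
  exact (List.nodup_append.1 hn).2.2 c hc c hc' rfl

/-- exact position -/
theorem Claim.win {b w : List ℕ} (h : Claim G g bias b w) (hn : (b ++ w).Nodup)
    (hi : ∀ c ∈ b ++ w, Inn (c + 121)) : ∃ n, WinN n (cl b) (cl w) := by
  obtain ⟨Z, hZ⟩ := h.sem hn hi
  exact Sem_top hZ (cl_disj hn)

/-- one more white stone in `G` -/
theorem Claim.win1 (hg : 1 ≤ g) {b w : List ℕ} (h : Claim G g bias b w) (hn : (b ++ w).Nodup)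
    (hi : ∀ c ∈ b ++ w, Inn (c + 121)) :
    ∃ n, ∀ q ∈ G, q ∉ cl b → WinN n (cl b) (insert q (cl w)) := by
  obtain ⟨Z, hZ⟩ := h.sem hn hi
  exact Sem_top1 hg hZ (cl_disj hn)

/-- two more white stones in `G` -/
theorem Claim.win2 (hg : 1 ≤ g) {b : List ℕ} (h : Claim G g bias b []) (hn : b.Nodup)
    (hi : ∀ c ∈ b, Inn (c + 121)) :
    ∃ n, ∀ q q' : P, q ≠ q' → q ∈ G → q' ∈ G → q ∉ cl b → q' ∉ cl b →
      ((∃ ω, IsWin ω ∧ q ∈ ω ∧ q' ∈ ω) → ∀ x : P,
        (max |x.1 - q.1| |x.2 - q.2| ≤ (if max |q.1 - q'.1| |q.2 - q'.2| = 2 then 3 else 2) ∨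
         max |x.1 - q'.1| |x.2 - q'.2| ≤ (if max |q.1 - q'.1| |q.2 - q'.2| = 2 then 3 else 2)) →
         x ∈ G ∧ x ∉ cl b) →
      WinN n (cl b) {q, q'} := by
  obtain ⟨Z, hZ⟩ := h.sem (by simpa using hn) (by simpa using hi)
  exact Sem_top2 hg hZ

end

/-! ### game level steps -/

theorem not_five_of_card {S : Finset P} (h : S.card < 5) : ¬ Five S := by
  rintro ⟨a, d, hd, h5⟩
  have h1 : win a d ⊆ S := by
    intro x hx
    obtain ⟨k, hk, rfl⟩ := mem_win.1 hx
    exact h5 k hk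
  have h2 := Finset.card_le_card h1
  rw [win_card hd] at h2
  omega

/-- one Black move: if after `m` every White reply is answered with a uniform bound, Black wins -/
theorem WinN_step {B W : Finset P} (m : P) (hmB : m ∉ B) (hmW : m ∉ W) (hW : W.card ≤ 3)
    (h : ∃ n, ∀ w, w ∉ insert m B → w ∉ W → WinN n (insert m B) (insert w W)) : ∃ n, WinN n B W := by
  obtain ⟨n, hn⟩ := h
  refine ⟨n + 1, m, hmB, hmW, Or.inr fun w h1 h2 => ⟨?_, hn w h1 h2⟩⟩
  apply not_five_of_card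
  have := Finset.card_insert_le w W
  omega

/-- uniform bounds for a union of two conditions -/
theorem uni_or {p q : P → Prop} {B W : Finset P}
    (h1 : ∃ n, ∀ w, p w → w ∉ B → w ∉ W → WinN n B (insert w W))
    (h2 : ∃ n, ∀ w, q w → w ∉ B → w ∉ W → WinN n B (insert w W)) :
    ∃ n, ∀ w, (p w ∨ q w) → w ∉ B → w ∉ W → WinN n B (insert w W) := by
  obtain ⟨n1, h1⟩ := h1
  obtain ⟨n2, h2⟩ := h2
  refine ⟨max n1 n2, fun w hw hB hW => ?_⟩
  rcases hw with hw | hw
  · exact WinN_succ (le_max_left _ _) (h1 w hw hB hW)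
  · exact WinN_succ (le_max_right _ _) (h2 w hw hB hW)

/-- uniform bounds for finitely many cells -/
theorem uni_fin {B W : Finset P} (S : List P)
    (h : ∀ w ∈ S, w ∉ B → w ∉ W → ∃ n, WinN n B (insert w W)) :
    ∃ n, ∀ w, w ∈ S → w ∉ B → w ∉ W → WinN n B (insert w W) := by
  induction S with
  | nil => exact ⟨0, fun w hw => absurd hw List.not_mem_nil⟩
  | cons a S ih =>
    obtain ⟨n1, h1⟩ := ih (fun w hw => h w (List.mem_cons_of_mem _ hw))
    by_cases ha : a ∉ B ∧ a ∉ W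
    · obtain ⟨n2, h2⟩ := h a List.mem_cons_self ha.1 ha.2
      refine ⟨max n1 n2, fun w hw hB hW => ?_⟩
      rcases List.mem_cons.1 hw with rfl | hw
      · exact WinN_succ (le_max_right _ _) h2
      · exact WinN_succ (le_max_left _ _) (h1 w hw hB hW)
    · refine ⟨n1, fun w hw hB hW => ?_⟩
      rcases List.mem_cons.1 hw with rfl | hw
      · exact (ha ⟨hB, hW⟩).elim
      · exact h1 w hw hB hW

/-! ### standard classes -/

theorem GType_empty : GType ∅ 0 0 Ck.AM where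
  g1 := Nat.zero_le 1
  ex := by
    refine ⟨fun _ _ => 0, ?_, fun _ _ => le_refl 0, fun d _ s _ _ => ⟨fun _ => rfl, fun _ => rfl⟩⟩
    simp only [zero_mul, Finset.sum_const_zero]
  um := by
    intro j hj
    obtain ⟨v, hv, e⟩ := testBit_AM.1 hj
    exact ⟨v, hv, e, fun h => h⟩

end Pool.Agent.H88.FIR
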