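import Pool.Agent.H74.FIR.Chk

/-! Checking the class data (bonus number and usable mask) of an exceptional set. -/

set_option autoImplicit false

namespace Pool.Agent.H88.FIR

open Pool.Agent.H88

theorem val_def (f : ℕ → ℕ) (n : ℕ) : val f n = ∑ i ∈ Finset.range n, f i * 64 ^ i := by
  unfold val; rfl

theorem val_digits (n : ℕ) : ∀ M : ℕ, M < 64 ^ n → M = val (fun i => M / 64 ^ i % 64) n := by
  induction n with
  | zero =>
    intro M hM
    rw [val_def, Finset.range_zero, Finset.sum_empty]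
    rw [pow_zero] at hM
    omega
  | succ n ih =>
    intro M hM
    rw [val_def, Finset.sum_range_succ, ← val_def (fun i => M / 64 ^ i % 64)]
    have h1 : M / 64 ^ n < 64 := by
      rw [Nat.div_lt_iff_lt_mul (by positivity), Nat.mul_comm, ← pow_succ]
      exact hM
    have h2 := Nat.div_add_mod M (64 ^ n)
    have h3 := ih (M % 64 ^ n) (Nat.mod_lt _ (by positivity))
    have h4 : val (fun i => M % 64 ^ n / 64 ^ i % 64) n = val (fun i => M / 64 ^ i % 64) n := by
      rw [val_def, val_def]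
      refine Finset.sum_congr rfl fun i hi => ?_
      have hi' := Finset.mem_range.1 hi
      have h5 : M % 64 ^ n / 64 ^ i % 64 = M / 64 ^ i % 64 := by
        have e1 : (64 : ℕ) ^ n = 64 ^ i * (64 * 64 ^ (n - i - 1)) := by
          rw [← pow_succ', ← pow_add]
          congr 1; omega
        rw [e1, Nat.mod_mul_right_div_self, Nat.mod_mul_right_mod]
      rw [h5]
    rw [← h4, ← h3, Nat.mod_eq_of_lt h1]
    linarith [Nat.mul_comm (M / 64 ^ n) (64 ^ n)]

def winIn (d s : ℕ) : Bool := (List.range 5).any fun i => decide (Inn (s + i * ND d))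
def winG (Gb : ℕ → Bool) (d s : ℕ) : Bool := (List.range 5).any fun i => Gb (s + i * ND d)

/-- kernel check of the bonus number of a class with capacity 1 -/
def gok (Gb : ℕ → Bool) (bias : ℕ) : Bool :=
  decide (bias % 64 ^ 779 = 0) && (decide (bias / 64 ^ 779 < 64 ^ 4096) &&
    (List.range 4096).all fun i =>
      decide (bias / 64 ^ 779 / 64 ^ i % 64 ≤ 1) && (!winIn (i / 1024) (i % 1024) ||
        decide (bias / 64 ^ 779 / 64 ^ i % 64 = cond (winG Gb (i / 1024) (i % 1024)) 1 0)))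

theorem winIn_iff {d s : ℕ} : winIn d s = true ↔ ∃ v ∈ wcells d s, Inn v := by
  unfold winIn
  rw [List.any_eq_true]
  constructor
  · rintro ⟨i, hi, h⟩
    exact ⟨_, mem_wcells.2 ⟨i, List.mem_range.1 hi, rfl⟩, of_decide_eq_true h⟩
  · rintro ⟨v, hv, h⟩
    obtain ⟨i, hi, rfl⟩ := mem_wcells.1 hv
    exact ⟨i, List.mem_range.2 hi, decide_eq_true h⟩

theorem winG_iff {Gb : ℕ → Bool} {d s : ℕ} : winG Gb d s = true ↔ ∃ v ∈ wcells d s, Gb v = true := by
  unfold winG
  rw [List.any_eq_true]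
  constructor
  · rintro ⟨i, hi, h⟩
    exact ⟨_, mem_wcells.2 ⟨i, List.mem_range.1 hi, rfl⟩, h⟩
  · rintro ⟨v, hv, h⟩
    obtain ⟨i, hi, rfl⟩ := mem_wcells.1 hv
    exact ⟨i, List.mem_range.2 hi, h⟩

theorem GType_check {G : Set P} {Gb : ℕ → Bool} (hGb : ∀ v, Gb v = true ↔ pos v ∈ G) {bias UM : ℕ}
    (h1 : gok Gb bias = true) (h2 : UM = ∑ v ∈ inner.filter (fun v => Gb v = false), 64 ^ (v - 121)) :
    GType G 1 bias UM := by
  unfold gok at h1
  rw [Bool.and_eq_true, Bool.and_eq_true, List.all_eq_true] at h1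
  obtain ⟨h3, h4, h5⟩ := h1
  have h3 := of_decide_eq_true h3
  have h4 := of_decide_eq_true h4
  have h6 : ∀ d s, d < 4 → s < 1024 →
      (bias / 64 ^ 779 / 64 ^ (1024 * d + s) % 64 ≤ 1 ∧ ((∃ v ∈ wcells d s, Inn v) →
        bias / 64 ^ 779 / 64 ^ (1024 * d + s) % 64 = cond (winG Gb d s) 1 0)) := by
    intro d s hd hs
    have h7 := h5 (1024 * d + s) (List.mem_range.2 (by omega))
    have e1 : (1024 * d + s) / 1024 = d := by omega
    have e2 : (1024 * d + s) % 1024 = s := by omega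
    rw [e1, e2, Bool.and_eq_true, Bool.or_eq_true] at h7
    refine ⟨of_decide_eq_true h7.1, fun hex => ?_⟩
    rcases h7.2 with h8 | h8
    · rw [winIn_iff.2 hex] at h8
      exact absurd h8 (by decide)
    · exact of_decide_eq_true h8
  refine ⟨le_refl 1, ⟨fun d s => if d < 4 ∧ s < 1024 then
      bias / 64 ^ 779 / 64 ^ (1024 * d + s) % 64 else 0, ?_, ?_, ?_⟩, ?_⟩
  · rw [← wv_def, wv_eq]
    have h7 := val_digits 4096 _ h4
    have h8 : val (fun i => if i / 1024 < 4 ∧ i % 1024 < 1024 then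
        bias / 64 ^ 779 / 64 ^ (1024 * (i / 1024) + i % 1024) % 64 else 0) 4096 =
        val (fun i => bias / 64 ^ 779 / 64 ^ i % 64) 4096 := by
      rw [val_def, val_def]
      refine Finset.sum_congr rfl fun i hi => ?_
      have hi' := Finset.mem_range.1 hi
      have e : 1024 * (i / 1024) + i % 1024 = i := Nat.div_add_mod i 1024
      rw [if_pos ⟨by omega, by omega⟩, e]
    rw [h8, ← h7, ← pow64]
    have h9 := Nat.div_add_mod bias (64 ^ 779)
    rw [h3, Nat.add_zero] at h9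
    exact h9.symm
  · intro d s
    show (if d < 4 ∧ s < 1024 then bias / 64 ^ 779 / 64 ^ (1024 * d + s) % 64 else 0) ≤ 1
    split_ifs with h
    · exact (h6 d s h.1 h.2).1
    · exact Nat.zero_le 1
  · intro d hd s hs hex
    show (_ → (if d < 4 ∧ s < 1024 then bias / 64 ^ 779 / 64 ^ (1024 * d + s) % 64 else 0) = 1) ∧
      (_ → (if d < 4 ∧ s < 1024 then bias / 64 ^ 779 / 64 ^ (1024 * d + s) % 64 else 0) = 0)
    rw [if_pos ⟨hd, hs⟩, (h6 d s hd hs).2 hex]
    constructor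
    · rintro ⟨v, hv, hG⟩
      rw [winG_iff.2 ⟨v, hv, (hGb v).2 hG⟩]; rfl
    · intro hno
      have : winG Gb d s = false := by
        rw [Bool.eq_false_iff]
        intro h
        obtain ⟨v, hv, hG⟩ := winG_iff.1 h
        exact hno ⟨v, hv, (hGb v).1 hG⟩
      rw [this]; rfl
  · intro j hj
    rw [h2, ← sv_def, testBit_sv0 (fun v hv => mem_inner.1 (Finset.mem_filter.1 hv).1)] at hj
    obtain ⟨v, hv, e⟩ := hj
    rw [Finset.mem_filter, mem_inner] at hv
    refine ⟨v, hv.1, e, fun hG => ?_⟩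
    rw [(hGb v).2 hG] at hv
    exact absurd hv.2 (by decide)

/-- cells outside of a box (bounds in board coordinates) -/
def outBox (x0 x1 y0 y1 : ℕ) : Set P :=
  {p | ¬ ((x0 : ℤ) ≤ p.1 + 15 ∧ p.1 + 15 ≤ x1 ∧ (y0 : ℤ) ≤ p.2 + 15 ∧ p.2 + 15 ≤ y1)}

def outBoxB (x0 x1 y0 y1 : ℕ) (v : ℕ) : Bool :=
  !(Nat.ble x0 (v % 32) && Nat.ble (v % 32) x1 && Nat.ble y0 (v / 32) && Nat.ble (v / 32) y1)

theorem outBoxB_iff (x0 x1 y0 y1 v : ℕ) : outBoxB x0 x1 y0 y1 v = true ↔ pos v ∈ outBox x0 x1 y0 y1 := by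
  unfold outBoxB outBox pos
  rw [Set.mem_ofPred_eq, Bool.not_eq_true', Bool.and_eq_false_iff, Bool.and_eq_false_iff,
    Bool.and_eq_false_iff, Bool.eq_false_iff, Bool.eq_false_iff, Bool.eq_false_iff, Bool.eq_false_iff,
    Ne, Ne, Ne, Ne, Nat.ble_eq, Nat.ble_eq, Nat.ble_eq, Nat.ble_eq]
  push_cast
  omega

end Pool.Agent.H88.FIR
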