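import Mathlib
import Pool.Agent.H88.Ck
import Pool.Agent.H74.FIR.Abs2

/-! Digit arithmetic for the position numbers. -/

set_option autoImplicit false

namespace Pool.Agent.H88.FIR

open Pool.Agent.H88

/-- grid cell of the board code `v = x + 32 y` -/
def pos (v : ℕ) : P := (((v % 32 : ℕ) : ℤ) - 15, ((v / 32 : ℕ) : ℤ) - 15)
def Inn (v : ℕ) : Prop := 4 ≤ v % 32 ∧ v % 32 < 28 ∧ 4 ≤ v / 32 ∧ v / 32 < 28
instance (v : ℕ) : Decidable (Inn v) := by unfold Inn; infer_instance
def inner : Finset ℕ := (Finset.range 1024).filter Inn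
/-- strides of the four directions: (1,0), (0,1), (1,1), (-1,1) -/
def ND (d : ℕ) : ℕ := if d = 0 then 1 else if d = 1 then 32 else if d = 2 then 33 else 31
/-- cells of the window (d, s) -/
def wcells (d s : ℕ) : Finset ℕ := (Finset.range 5).image (fun i => s + i * ND d)

/-! ### base 64 digits -/

def val (f : ℕ → ℕ) (n : ℕ) : ℕ := ∑ i ∈ Finset.range n, f i * 64 ^ i

theorem val_lt {f : ℕ → ℕ} (hf : ∀ i, f i < 64) (n : ℕ) : val f n < 64 ^ n := by
  induction n with
  | zero => simp [val]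
  | succ n ih =>
    have h1 : val f (n + 1) = val f n + f n * 64 ^ n := Finset.sum_range_succ _ _
    have h2 := hf n
    have h3 : f n * 64 ^ n ≤ 63 * 64 ^ n := Nat.mul_le_mul_right _ (by omega)
    rw [h1, pow_succ]
    omega

theorem pow64 (n : ℕ) : 64 ^ n = 2 ^ (6 * n) := by
  rw [pow_mul]; norm_num

theorem testBit_val {f : ℕ → ℕ} (hf : ∀ i, f i < 64) (n : ℕ) : ∀ i j, j < 6 →
    (val f n).testBit (6 * i + j) = (decide (i < n) && (f i).testBit j) := by
  induction n with
  | zero => intro i j _; simp [val]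
  | succ n ih =>
    intro i j hj
    have h1 : val f (n + 1) = 2 ^ (6 * n) * f n + val f n := by
      rw [← pow64]
      unfold val
      rw [Finset.sum_range_succ]; ring
    have h2 : val f n < 2 ^ (6 * n) := by rw [← pow64]; exact val_lt hf n
    rw [h1, Nat.testBit_two_pow_mul_add _ h2]
    by_cases h3 : 6 * i + j < 6 * n
    · have h4 : i < n := by omega
      rw [if_pos h3, ih i j hj]
      simp [h4, Nat.lt_succ_of_lt h4]
    · have h4 : ¬ i < n := by omega
      rw [if_neg h3]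
      rcases Nat.lt_or_ge i (n + 1) with h5 | h5
      · have : i = n := by omega
        subst this
        simp
      · have h6 : (f n).testBit (6 * i + j - 6 * n) = false := by
          apply Nat.testBit_eq_false_of_lt
          refine (hf n).trans_le ?_
          have : 6 ≤ 6 * i + j - 6 * n := by omega
          calc 64 = 2 ^ 6 := by norm_num
            _ ≤ _ := Nat.pow_le_pow_right (by norm_num) this
        have h7 : ¬ i < n + 1 := by omega
        rw [h6]; simp [h7]

/-- sum over all window digits -/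
def wv (c : ℕ → ℕ → ℕ) : ℕ :=
  ∑ d ∈ Finset.range 4, ∑ s ∈ Finset.range 1024, c d s * 64 ^ (779 + 1024 * d + s)

theorem sum_blocks (g : ℕ → ℕ) (n : ℕ) : ∑ i ∈ Finset.range (1024 * n), g i =
    ∑ d ∈ Finset.range n, ∑ s ∈ Finset.range 1024, g (1024 * d + s) := by
  induction n with
  | zero => simp
  | succ n ih =>
    rw [Nat.mul_succ, Finset.sum_range_add, ih, Finset.sum_range_succ _ n]

theorem wv_eq (c : ℕ → ℕ → ℕ) : wv c = 2 ^ (6 * 779) * val (fun i => c (i / 1024) (i % 1024)) 4096 := by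
  have key : ∀ d, ∑ s ∈ Finset.range 1024, c d s * 64 ^ (779 + 1024 * d + s) =
      2 ^ (6 * 779) * ∑ s ∈ Finset.range 1024,
        c ((1024 * d + s) / 1024) ((1024 * d + s) % 1024) * 64 ^ (1024 * d + s) := by
    intro d
    rw [Finset.mul_sum]
    refine Finset.sum_congr rfl fun s hs => ?_
    have hs' := Finset.mem_range.1 hs
    have e1 : (1024 * d + s) / 1024 = d := by omega
    have e2 : (1024 * d + s) % 1024 = s := by omega
    rw [e1, e2, ← pow64, add_assoc, pow_add _ 779]
    exact mul_left_comm _ _ _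
  have hv : val (fun i => c (i / 1024) (i % 1024)) 4096 =
      ∑ d ∈ Finset.range 4, ∑ s ∈ Finset.range 1024,
        c ((1024 * d + s) / 1024) ((1024 * d + s) % 1024) * 64 ^ (1024 * d + s) :=
    sum_blocks (fun i => c (i / 1024) (i % 1024) * 64 ^ i) 4
  rw [hv]
  unfold wv
  rw [Finset.mul_sum]
  exact Finset.sum_congr rfl fun d _ => key d

theorem testBit_wv_hi {c : ℕ → ℕ → ℕ} (hc : ∀ d s, c d s < 64) {A : ℕ} (hA : A < 2 ^ (6 * 779))
    {d s j : ℕ} (hd : d < 4) (hs : s < 1024) (hj : j < 6) :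
    (A + wv c).testBit (6 * (779 + 1024 * d + s) + j) = (c d s).testBit j := by
  rw [wv_eq, Nat.add_comm A, Nat.testBit_two_pow_mul_add _ hA]
  rw [if_neg (by omega)]
  have e : 6 * (779 + 1024 * d + s) + j - 6 * 779 = 6 * (1024 * d + s) + j := by omega
  rw [e, testBit_val (fun i => hc _ _) _ _ _ hj]
  have e1 : (1024 * d + s) / 1024 = d := by omega
  have e2 : (1024 * d + s) % 1024 = s := by omega
  have e3 : 1024 * d + s < 4096 := by omega
  simp [e1, e2, e3]

theorem testBit_wv_lo {c : ℕ → ℕ → ℕ} {A : ℕ} (hA : A < 2 ^ (6 * 779))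
    {k : ℕ} (hk : k < 6 * 779) : (A + wv c).testBit k = A.testBit k := by
  rw [wv_eq, Nat.add_comm A, Nat.testBit_two_pow_mul_add _ hA, if_pos hk]

theorem testBit_wv_top {c : ℕ → ℕ → ℕ} (hc : ∀ d s, c d s < 64) {A : ℕ} (hA : A < 2 ^ (6 * 779))
    {k : ℕ} (hk : 6 * 4875 ≤ k) : (A + wv c).testBit k = false := by
  rw [wv_eq, Nat.add_comm A, Nat.testBit_two_pow_mul_add _ hA, if_neg (by omega)]
  have e : k - 6 * 779 = 6 * ((k - 6 * 779) / 6) + (k - 6 * 779) % 6 := by omega
  rw [e, testBit_val (fun i => hc _ _) _ _ _ (by omega)]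
  have : ¬ ((k - 6 * 779) / 6 < 4096) := by omega
  simp [this]

theorem wv_add (c c' : ℕ → ℕ → ℕ) : wv (fun d s => c d s + c' d s) = wv c + wv c' := by
  unfold wv
  simp only [add_mul, Finset.sum_add_distrib]

theorem wv_mul (a : ℕ) (c : ℕ → ℕ → ℕ) : wv (fun d s => a * c d s) = a * wv c := by
  unfold wv
  simp only [Finset.mul_sum, mul_assoc]

/-! ### constants -/

theorem ONES_eq' : Ck.ONES * 63 = 64 ^ 779 * (64 ^ 4096 - 1) := by decide +kernel
theorem MASK_eq' : Ck.MASK = 32 * Ck.ONES := by decide +kernel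
theorem C23_eq' : Ck.C23 = 23 * Ck.ONES := by decide +kernel
theorem C33_eq' : Ck.C33 = 33 * Ck.ONES := by decide +kernel
theorem KK_eq : Ck.KK = ∑ d ∈ Finset.range 4, ∑ i ∈ Finset.range 5, 64 ^ (900 + 1024 * d - i * ND d) := by
  decide +kernel
theorem KB_eq : Ck.KB = 4 * Ck.KK + 1 := by decide +kernel
theorem KW_eq : Ck.KW + 1 = Ck.KK := by decide +kernel
theorem AM_eq : Ck.AM = ∑ v ∈ inner, 64 ^ (v - 121) := by decide +kernel
theorem X0_eq : Ck.X0 = 28 * Ck.ONES + Ck.AM + 2 ^ 40 := by decide +kernel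
theorem AMS_eq : Ck.AMS = Ck.AM + (2 ^ 60 - 1) := by decide +kernel
theorem LM_eq : Ck.LM = 2 ^ 60 - 1 := by decide +kernel
theorem AMS_lo : Ck.AM % 2 ^ 66 = 0 := by decide +kernel

theorem geo64 (n : ℕ) : val (fun _ => 1) n * 63 + 1 = 64 ^ n := by
  induction n with
  | zero => simp [val]
  | succ n ih =>
    have h : val (fun _ => 1) (n + 1) = val (fun _ => 1) n + 1 * 64 ^ n := Finset.sum_range_succ _ _
    rw [h, pow_succ, ← ih]
    ring

theorem ONES_eq : Ck.ONES = wv (fun _ _ => 1) := by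
  have h1 : val (fun _ => 1) 4096 * 63 = 64 ^ 4096 - 1 := by
    rw [← geo64 4096, Nat.add_sub_cancel]
  have h2 : wv (fun _ _ => 1) * 63 = Ck.ONES * 63 := by
    rw [ONES_eq', wv_eq, mul_assoc, h1, ← pow64]
  exact (Nat.eq_of_mul_eq_mul_right (by norm_num) h2).symm

theorem MASK_eq : Ck.MASK = wv (fun _ _ => 32) := by
  rw [MASK_eq', ONES_eq, ← wv_mul]
theorem C23_eq : Ck.C23 = wv (fun _ _ => 23) := by
  rw [C23_eq', ONES_eq, ← wv_mul]
theorem C33_eq : Ck.C33 = wv (fun _ _ => 33) := by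
  rw [C33_eq', ONES_eq, ← wv_mul]

theorem testBit_MASK (k : ℕ) : Ck.MASK.testBit k = true ↔
    ∃ d s, d < 4 ∧ s < 1024 ∧ k = 6 * (779 + 1024 * d + s) + 5 := by
  have h0 : Ck.MASK = 0 + wv (fun _ _ => 32) := by rw [MASK_eq, Nat.zero_add]
  have hA : 0 < 2 ^ (6 * 779) := by positivity
  rw [h0]
  constructor
  · intro h
    rcases Nat.lt_or_ge k (6 * 779) with h1 | h1
    · rw [testBit_wv_lo hA h1] at h
      simp at h
    · rcases Nat.lt_or_ge k (6 * 4875) with h2 | h2
      · have e : k = 6 * (779 + 1024 * ((k / 6 - 779) / 1024) + (k / 6 - 779) % 1024) + k % 6 := by omega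
        have hd : (k / 6 - 779) / 1024 < 4 := by omega
        have hs : (k / 6 - 779) % 1024 < 1024 := by omega
        rw [e, testBit_wv_hi (fun _ _ => by norm_num) hA hd hs (by omega)] at h
        refine ⟨_, _, hd, hs, ?_⟩
        have h6 : k % 6 < 6 := by omega
        have : k % 6 = 5 := by
          generalize k % 6 = t at h h6
          interval_cases t <;> revert h <;> decide
        omega
      · rw [testBit_wv_top (fun _ _ => by norm_num) hA h2] at h
        simp at h
  · rintro ⟨d, s, hd, hs, rfl⟩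
    rw [testBit_wv_hi (fun _ _ => by norm_num) hA hd hs (by omega)]
    decide

/-! ### sums over sets of cells -/

def sv (S : Finset ℕ) : ℕ := ∑ v ∈ S, 64 ^ (v - 121)

theorem Inn_bd {v : ℕ} (h : Inn v) : 132 ≤ v ∧ v < 892 := by
  unfold Inn at h; omega

theorem mem_inner {v : ℕ} : v ∈ inner ↔ Inn v := by
  unfold inner
  rw [Finset.mem_filter, Finset.mem_range]
  constructor
  · exact fun h => h.2
  · exact fun h => ⟨by have := Inn_bd h; omega, h⟩

theorem sv_eq_val {S : Finset ℕ} (hS : ∀ v ∈ S, Inn v) :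
    sv S = 2 ^ 66 * val (fun i => if i + 132 ∈ S then 1 else 0) 768 := by
  unfold sv val
  rw [Finset.mul_sum]
  have h1 : ∀ i ∈ Finset.range 768, 2 ^ 66 * ((if i + 132 ∈ S then 1 else 0) * 64 ^ i) =
      if i + 132 ∈ S then 64 ^ (i + 132 - 121) else 0 := by
    intro i _
    split_ifs
    · have : i + 132 - 121 = i + 11 := by omega
      rw [this, pow_add]; norm_num; ring
    · simp
  rw [Finset.sum_congr rfl h1, ← Finset.sum_filter]
  refine Finset.sum_bij' (fun v _ => v - 132) (fun i _ => i + 132) ?_ ?_ ?_ ?_ ?_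
  · intro v hv
    have := Inn_bd (hS v hv)
    rw [Finset.mem_filter, Finset.mem_range]
    have e : v - 132 + 132 = v := by omega
    rw [e]
    exact ⟨by omega, hv⟩
  · intro i hi
    rw [Finset.mem_filter] at hi
    exact hi.2
  · intro v hv
    have := Inn_bd (hS v hv)
    omega
  · intro i _; omega
  · intro v hv
    have := Inn_bd (hS v hv)
    congr 1; omega

theorem sv_lt {S : Finset ℕ} (hS : ∀ v ∈ S, Inn v) : sv S < 2 ^ (6 * 779) - 2 ^ 66 := by
  rw [sv_eq_val hS]
  have h1 : val (fun i => if i + 132 ∈ S then 1 else 0) 768 < 64 ^ 768 :=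
    val_lt (fun i => by split_ifs <;> norm_num) 768
  have h2 : val (fun i => if i + 132 ∈ S then 1 else 0) 768 ≤ 64 ^ 768 - 2 := by
    by_contra hlt
    have e : val (fun i => if i + 132 ∈ S then 1 else 0) 768 = 64 ^ 768 - 1 := by omega
    have t := testBit_val (f := fun i => if i + 132 ∈ S then 1 else 0)
      (fun i => by split_ifs <;> norm_num) 768 0 1 (by norm_num)
    rw [e] at t
    have t1 : (64 ^ 768 - 1).testBit (6 * 0 + 1) = true := by decide +kernel
    rw [t1] at t
    by_cases hm : 0 + 132 ∈ S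
    · rw [if_pos hm] at t; revert t; decide
    · rw [if_neg hm] at t; revert t; decide
  generalize val (fun i => if i + 132 ∈ S then 1 else 0) 768 = t at h1 h2
  have h3 : (64 : ℕ) ^ 768 * 2 ^ 66 = 2 ^ (6 * 779) := by
    rw [pow64, ← pow_add]
  have h4 : 2 ^ 66 * t ≤ 2 ^ 66 * (64 ^ 768 - 2) := Nat.mul_le_mul_left _ h2
  have h5 : 2 ^ 66 * (64 ^ 768 - 2) = 64 ^ 768 * 2 ^ 66 - 2 * 2 ^ 66 := by
    rw [Nat.mul_comm, Nat.sub_mul]
  have h6 : 2 * 2 ^ 66 ≤ 64 ^ 768 * 2 ^ 66 := Nat.mul_le_mul_right _ (by decide +kernel)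
  rw [h3] at h5 h6
  have h7 : 0 < 2 ^ 66 := by positivity
  omega

theorem testBit_sv {S : Finset ℕ} (hS : ∀ v ∈ S, Inn v) {salt : ℕ} (hsalt : salt < 2 ^ 66) {k : ℕ} (hk : 66 ≤ k) :
    (salt + sv S).testBit k = true ↔ ∃ v ∈ S, k = 6 * (v - 121) := by
  rw [sv_eq_val hS, Nat.add_comm, Nat.testBit_two_pow_mul_add _ hsalt, if_neg (by omega)]
  have e : k - 66 = 6 * ((k - 66) / 6) + (k - 66) % 6 := by omega
  rw [e, testBit_val (fun i => by split_ifs <;> norm_num) _ _ _ (by omega)]
  have h6 : (k - 66) % 6 < 6 := by omega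
  constructor
  · intro h
    rw [Bool.and_eq_true, decide_eq_true_eq] at h
    obtain ⟨h1, h2⟩ := h
    split_ifs at h2 with h3
    · refine ⟨_, h3, ?_⟩
      have : (k - 66) % 6 = 0 := by
        generalize (k - 66) % 6 = t at h2 h6
        interval_cases t <;> revert h2 <;> decide
      omega
    · simp at h2
  · rintro ⟨v, hv, rfl⟩
    have hb := Inn_bd (hS v hv)
    have e1 : (6 * (v - 121) - 66) / 6 = v - 132 := by omega
    have e2 : (6 * (v - 121) - 66) % 6 = 0 := by omega
    have e3 : v - 132 + 132 = v := by omega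
    rw [e1, e2, e3, if_pos hv]
    have : v - 132 < 768 := by omega
    simp [this]

theorem testBit_AM {k : ℕ} : Ck.AM.testBit k = true ↔ ∃ v, Inn v ∧ k = 6 * (v - 121) := by
  have h0 : Ck.AM = 0 + sv inner := by rw [Nat.zero_add]; exact AM_eq
  rcases Nat.lt_or_ge k 66 with h | h
  · constructor
    · intro h1
      have h2 : (Ck.AM % 2 ^ 66).testBit k = true := by
        rw [Nat.testBit_mod_two_pow]; simp [h, h1]
      rw [AMS_lo] at h2
      simp at h2
    · rintro ⟨v, hv, rfl⟩
      have := Inn_bd hv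
      omega
  · rw [h0, testBit_sv (fun v hv => mem_inner.1 hv) (by norm_num) h]
    constructor
    · rintro ⟨v, hv, e⟩; exact ⟨v, mem_inner.1 hv, e⟩
    · rintro ⟨v, hv, e⟩; exact ⟨v, mem_inner.2 hv, e⟩

theorem ND_bd {d : ℕ} : 1 ≤ ND d ∧ ND d ≤ 33 := by
  unfold ND
  split_ifs <;> omega

theorem card_wcells (d s : ℕ) : (wcells d s).card = 5 := by
  unfold wcells
  rw [Finset.card_image_of_injective, Finset.card_range]
  intro i j h
  have h1 : i * ND d = j * ND d := by simpa using h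
  exact Nat.eq_of_mul_eq_mul_right (by have := @ND_bd d; omega) h1

/-- number of cells of `S` in the window -/
def cnt (S : Finset ℕ) (d s : ℕ) : ℕ := (S ∩ wcells d s).card

theorem cnt_le (S : Finset ℕ) (d s : ℕ) : cnt S d s ≤ 5 := by
  unfold cnt
  exact (Finset.card_le_card Finset.inter_subset_right).trans (card_wcells d s).le

theorem mem_wcells {d s v : ℕ} : v ∈ wcells d s ↔ ∃ i, i < 5 ∧ v = s + i * ND d := by
  unfold wcells
  simp only [Finset.mem_image, Finset.mem_range]
  constructor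
  · rintro ⟨k, hk, e⟩; exact ⟨k, hk, e.symm⟩
  · rintro ⟨k, hk, e⟩; exact ⟨k, hk, e.symm⟩

theorem cnt_eq (S : Finset ℕ) (d s : ℕ) :
    cnt S d s = ∑ v ∈ S, ∑ i ∈ Finset.range 5, if v = s + i * ND d then 1 else 0 := by
  unfold cnt
  have h1 : S ∩ wcells d s = S.filter (fun v => v ∈ wcells d s) := by
    ext v; simp [Finset.mem_inter, Finset.mem_filter]
  rw [h1, Finset.card_filter]
  refine Finset.sum_congr rfl fun v _ => ?_
  split_ifs with h
  · obtain ⟨i, hi, rfl⟩ := mem_wcells.1 h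
    rw [Finset.sum_eq_single i]
    · rw [if_pos rfl]
    · intro j _ hj
      rw [if_neg]
      intro e
      have h1 : i * ND d = j * ND d := by omega
      exact hj (Nat.eq_of_mul_eq_mul_right (by have := @ND_bd d; omega) h1).symm
    · intro h; exact (h (Finset.mem_range.2 hi)).elim
  · symm
    apply Finset.sum_eq_zero
    intro i hi
    rw [if_neg]
    intro e
    exact h (mem_wcells.2 ⟨i, Finset.mem_range.1 hi, e⟩)

/-- multiplying the sum of cells by `KK` counts cells per window -/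
theorem KK_sv {S : Finset ℕ} (hS : ∀ v ∈ S, Inn v) : Ck.KK * sv S = wv (cnt S) := by
  have h1 : ∀ v ∈ S, Ck.KK * 64 ^ (v - 121) = ∑ d ∈ Finset.range 4, ∑ i ∈ Finset.range 5,
      ∑ s ∈ Finset.range 1024, (if v = s + i * ND d then 1 else 0) * 64 ^ (779 + 1024 * d + s) := by
    intro v hv
    have hb := Inn_bd (hS v hv)
    rw [KK_eq, Finset.sum_mul]
    refine Finset.sum_congr rfl fun d hd => ?_
    rw [Finset.sum_mul]
    refine Finset.sum_congr rfl fun i hi => ?_
    have hi' := Finset.mem_range.1 hi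
    have hN := @ND_bd d
    have hiN : i * ND d ≤ 132 := by
      calc i * ND d ≤ 4 * 33 := Nat.mul_le_mul (by omega) hN.2
        _ = 132 := by norm_num
    rw [Finset.sum_eq_single (v - i * ND d)]
    · rw [if_pos (by omega), one_mul, ← pow_add]
      exact congrArg (fun k => 64 ^ k) (by omega)
    · intro s _ hs
      rw [if_neg (by omega), zero_mul]
    · intro h
      exact (h (Finset.mem_range.2 (by omega))).elim
  unfold sv
  rw [Finset.mul_sum, Finset.sum_congr rfl h1, Finset.sum_comm]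
  unfold wv
  refine Finset.sum_congr rfl fun d _ => ?_
  have h2 : ∀ s ∈ Finset.range 1024, cnt S d s * 64 ^ (779 + 1024 * d + s) =
      ∑ v ∈ S, ∑ i ∈ Finset.range 5, (if v = s + i * ND d then 1 else 0) * 64 ^ (779 + 1024 * d + s) := by
    intro s _
    rw [cnt_eq, Finset.sum_mul]
    refine Finset.sum_congr rfl fun v _ => ?_
    rw [Finset.sum_mul]
  have h3 : ∑ s ∈ Finset.range 1024, cnt S d s * 64 ^ (779 + 1024 * d + s) =
      ∑ s ∈ Finset.range 1024, ∑ v ∈ S, ∑ i ∈ Finset.range 5,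
        (if v = s + i * ND d then 1 else 0) * 64 ^ (779 + 1024 * d + s) := Finset.sum_congr rfl h2
  have h4 := Finset.sum_comm (s := Finset.range 1024) (t := S)
    (f := fun s v => ∑ i ∈ Finset.range 5,
      (if v = s + i * ND d then 1 else 0) * 64 ^ (779 + 1024 * d + s))
  have h5 : ∀ v ∈ S, (∑ s ∈ Finset.range 1024, ∑ i ∈ Finset.range 5,
      (if v = s + i * ND d then 1 else 0) * 64 ^ (779 + 1024 * d + s)) =
      ∑ i ∈ Finset.range 5, ∑ s ∈ Finset.range 1024,
      (if v = s + i * ND d then 1 else 0) * 64 ^ (779 + 1024 * d + s) := fun v _ =>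
    Finset.sum_comm (s := Finset.range 1024) (t := Finset.range 5)
      (f := fun s i => (if v = s + i * ND d then 1 else 0) * 64 ^ (779 + 1024 * d + s))
  exact ((h3.trans h4).trans (Finset.sum_congr rfl h5)).symm

theorem sv_union {S T : Finset ℕ} (h : Disjoint S T) : sv (S ∪ T) = sv S + sv T :=
  Finset.sum_union h

theorem wv_congr {c c' : ℕ → ℕ → ℕ} (h : ∀ d s, c d s = c' d s) : wv c = wv c' := by
  have : c = c' := by
    funext d s; exact h d s
  rw [this]

theorem wv_def (c : ℕ → ℕ → ℕ) : wv c = ∑ d ∈ Finset.range 4, ∑ s ∈ Finset.range 1024,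
    c d s * 64 ^ (779 + 1024 * d + s) := rfl

theorem sv_def (S : Finset ℕ) : sv S = ∑ v ∈ S, 64 ^ (v - 121) := rfl

attribute [irreducible] wv sv val inner

end Pool.Agent.H88.FIR
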