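import Pool.Agent.H74.FIR.Dig

/-! Position numbers: representation, windows, the tests `nf` and `fin`. -/

set_option autoImplicit false

namespace Pool.Agent.H88.FIR

open Pool.Agent.H88

/-- `bias` and the usable mask `UM` of a class with exceptional set `G`, capacity `g ≤ 1` -/
structure GType (G : Set P) (g bias UM : ℕ) : Prop where
  g1 : g ≤ 1
  ex : ∃ β : ℕ → ℕ → ℕ, bias = ∑ d ∈ Finset.range 4, ∑ s ∈ Finset.range 1024, β d s * 64 ^ (779 + 1024 * d + s) ∧
    (∀ d s, β d s ≤ g) ∧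
    ∀ d < 4, ∀ s < 1024, (∃ v ∈ wcells d s, Inn v) →
      (((∃ v ∈ wcells d s, pos v ∈ G) → β d s = g) ∧ ((¬ ∃ v ∈ wcells d s, pos v ∈ G) → β d s = 0))
  um : ∀ j, UM.testBit j = true → ∃ v, Inn v ∧ j = 6 * (v - 121) ∧ pos v ∉ G

/-- the number `X` represents the position (B, W) (board codes) -/
structure Rep (bias X : ℕ) (B W : Finset ℕ) : Prop where
  hB : ∀ v ∈ B, Inn v
  hW : ∀ v ∈ W, Inn v
  dis : Disjoint B W
  eq : (X : ℤ) = (Ck.X0 : ℤ) + bias
    + ∑ v ∈ W, ((Ck.KW : ℤ) * 64 ^ (v - 121) + 6 * (v - 121 : ℕ))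
    - ∑ v ∈ B, ((Ck.KB : ℤ) * 64 ^ (v - 121) + 6 * (v - 121 : ℕ))

/-- zone as a set of cells -/
def Zs (z : ℕ) : Finset P := (inner.filter (fun v => z.testBit (6 * (v - 121)) = true)).image pos
def cellsOf (B : Finset ℕ) : Finset P := B.image pos

/-- claim at level 0 attached to the number `X` (zone: all inner cells) -/
def Good (G : Set P) (g bias X : ℕ) : Prop :=
  ∀ B W : Finset ℕ, Rep bias X B W → Sem G g 0 (cellsOf B) (cellsOf W) (cellsOf (inner \ (B ∪ W)))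

/-! ### geometry -/

theorem pos_inj {v w : ℕ} (h : pos v = pos w) : v = w := by
  unfold pos at h
  rw [Prod.mk.injEq] at h
  omega

/-- direction of the code windows -/
def dv (d : ℕ) : P := if d = 0 then (1, 0) else if d = 1 then (0, 1) else if d = 2 then (1, 1) else (-1, 1)

theorem pos_line {d : ℕ} (hd : d < 4) {v s i k : ℕ} (hv : Inn v) (hi : i < 5) (hk : k < 5)
    (h : v = s + k * ND d) : pos (s + i * ND d) = pos v + ((i : ℤ) - (k : ℤ)) • dv d := by
  unfold Inn at hv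
  unfold pos dv
  have hd' : d = 0 ∨ d = 1 ∨ d = 2 ∨ d = 3 := by omega
  rcases hd' with rfl | rfl | rfl | rfl
  · simp only [ND, if_true] at h ⊢
    simp only [Prod.smul_mk, smul_eq_mul, Prod.mk_add_mk, Prod.mk.injEq]
    constructor <;> omega
  · simp only [ND, if_true, if_false, one_ne_zero] at h ⊢
    simp only [Prod.smul_mk, smul_eq_mul, Prod.mk_add_mk, Prod.mk.injEq]
    constructor <;> omega
  · simp only [ND, if_true, if_false, OfNat.ofNat_ne_zero, OfNat.ofNat_ne_one] at h ⊢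
    simp only [Prod.smul_mk, smul_eq_mul, Prod.mk_add_mk, Prod.mk.injEq]
    constructor <;> omega
  · simp only [ND, if_false, OfNat.ofNat_ne_zero, OfNat.ofNat_ne_one, Nat.reduceEqDiff] at h ⊢
    simp only [Prod.smul_mk, smul_eq_mul, Prod.mk_add_mk, Prod.mk.injEq]
    constructor <;> omega

theorem dv_dirs {d : ℕ} (hd : d < 4) : dv d ∈ dirs ∨ -dv d ∈ dirs := by
  have hd' : d = 0 ∨ d = 1 ∨ d = 2 ∨ d = 3 := by omega
  rcases hd' with rfl | rfl | rfl | rfl <;> simp [dv, dirs]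

/-- five black codes in a code window -/
theorem five_codes {B : Finset ℕ} (hB : ∀ v ∈ B, Inn v) {d s : ℕ} (hd : d < 4)
    (h : wcells d s ⊆ B) : Five (cellsOf B) := by
  have h0 : Inn s := hB s (h (mem_wcells.2 ⟨0, by norm_num, by simp⟩))
  rw [five_iff]
  refine ⟨pos s, dv d, dv_dirs hd, fun i hi => ?_⟩
  have h1 := pos_line (v := s) (s := s) (i := i) (k := 0) hd h0 hi (by norm_num) (by simp)
  have h2 : pos s + (i : ℤ) • dv d = pos (s + i * ND d) := by rw [h1]; simp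
  rw [h2]
  exact Finset.mem_image_of_mem _ (h (mem_wcells.2 ⟨i, hi, rfl⟩))

/-- a grid window through an inner cell is a code window -/
theorem win_code {ω : Finset P} (hω : IsWin ω) {v : ℕ} (hv : Inn v) (hvω : pos v ∈ ω) :
    ∃ d s, d < 4 ∧ s < 1024 ∧ v ∈ wcells d s ∧ ω = (wcells d s).image pos := by
  obtain ⟨a, e, he, rfl⟩ := hω
  obtain ⟨k, hk, hpk⟩ := mem_win.1 hvω
  have hb := Inn_bd hv
  have hN : ∀ d, k * ND d ≤ 132 := fun d => by
    calc k * ND d ≤ 4 * 33 := Nat.mul_le_mul (by omega) (@ND_bd d).2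
      _ = 132 := by norm_num
  -- forward directions
  have fwd : ∀ d, d < 4 → dv d = e → ∃ d s, d < 4 ∧ s < 1024 ∧ v ∈ wcells d s ∧
      win a e = (wcells d s).image pos := by
    intro d hd hde
    have hvs : v = (v - k * ND d) + k * ND d := by have := hN d; omega
    refine ⟨d, v - k * ND d, hd, by omega, mem_wcells.2 ⟨k, hk, hvs⟩, ?_⟩
    have key : ∀ i, i < 5 → pos ((v - k * ND d) + i * ND d) = a + (i : ℤ) • e := by
      intro i hi
      rw [pos_line hd hv hi hk hvs, hpk, hde, sub_smul]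
      abel
    ext x
    rw [mem_win, Finset.mem_image]
    constructor
    · rintro ⟨i, hi, rfl⟩
      exact ⟨_, mem_wcells.2 ⟨i, hi, rfl⟩, key i hi⟩
    · rintro ⟨w, hw, rfl⟩
      obtain ⟨i, hi, rfl⟩ := mem_wcells.1 hw
      exact ⟨i, hi, key i hi⟩
  unfold dirs at he
  simp only [Finset.mem_insert, Finset.mem_singleton] at he
  rcases he with rfl | rfl | rfl | rfl
  · exact fwd 0 (by norm_num) rfl
  · exact fwd 1 (by norm_num) rfl
  · exact fwd 2 (by norm_num) rfl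
  · have hN' : (4 - k) * ND 3 ≤ 132 := by
      calc (4 - k) * ND 3 ≤ 4 * 33 := Nat.mul_le_mul (by omega) (@ND_bd 3).2
        _ = 132 := by norm_num
    have hvs : v = (v - (4 - k) * ND 3) + (4 - k) * ND 3 := by omega
    refine ⟨3, v - (4 - k) * ND 3, by norm_num, by omega, mem_wcells.2 ⟨4 - k, by omega, hvs⟩, ?_⟩
    have key : ∀ i, i < 5 → pos ((v - (4 - k) * ND 3) + i * ND 3) =
        a + ((4 - i : ℕ) : ℤ) • ((1 : ℤ), (-1 : ℤ)) := by
      intro i hi
      rw [pos_line (by norm_num) hv hi (by omega) hvs, hpk]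
      obtain ⟨a1, a2⟩ := a
      simp only [dv, Prod.smul_mk, smul_eq_mul, Prod.mk_add_mk, OfNat.ofNat_ne_zero,
        OfNat.ofNat_ne_one, Nat.reduceEqDiff, if_false, Prod.mk.injEq]
      constructor <;> omega
    ext x
    rw [mem_win, Finset.mem_image]
    constructor
    · rintro ⟨i, hi, rfl⟩
      refine ⟨_, mem_wcells.2 ⟨4 - i, by omega, rfl⟩, ?_⟩
      rw [key (4 - i) (by omega)]
      have : 4 - (4 - i) = i := by omega
      rw [this]
    · rintro ⟨w, hw, rfl⟩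
      obtain ⟨i, hi, rfl⟩ := mem_wcells.1 hw
      exact ⟨4 - i, by omega, key i hi⟩

theorem card_cells (S : Finset ℕ) (d s : ℕ) : (cellsOf S ∩ (wcells d s).image pos).card = cnt S d s := by
  unfold cellsOf cnt
  rw [← Finset.image_inter _ _ (fun a b h => pos_inj h), Finset.card_image_of_injective _ (fun a b h => pos_inj h)]

theorem mem_cellsOf {S : Finset ℕ} {v : ℕ} : pos v ∈ cellsOf S ↔ v ∈ S := by
  unfold cellsOf
  rw [Finset.mem_image]
  constructor
  · rintro ⟨w, hw, e⟩; rwa [← pos_inj e]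
  · exact fun h => ⟨v, h, rfl⟩

/-! ### representation -/

def fr (B W : Finset ℕ) : Finset ℕ := inner \ (B ∪ W)
def cw (β : ℕ → ℕ → ℕ) (B W : Finset ℕ) (d s : ℕ) : ℕ := 28 + β d s + cnt W d s - 4 * cnt B d s
def slt (B W : Finset ℕ) : ℕ := 2 ^ 40 + ∑ v ∈ W, 6 * (v - 121) - ∑ v ∈ B, 6 * (v - 121)

theorem fr_inn {B W : Finset ℕ} : ∀ v ∈ fr B W, Inn v := fun v hv =>
  mem_inner.1 (Finset.mem_sdiff.1 hv).1

theorem mem_fr {B W : Finset ℕ} {v : ℕ} : v ∈ fr B W ↔ Inn v ∧ v ∉ B ∧ v ∉ W := by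
  unfold fr
  rw [Finset.mem_sdiff, mem_inner, Finset.mem_union, not_or]

theorem sum_salt_le {B : Finset ℕ} (hB : ∀ v ∈ B, Inn v) : ∑ v ∈ B, 6 * (v - 121) ≤ 2 ^ 30 := by
  have h1 : ∑ v ∈ B, 6 * (v - 121) ≤ ∑ v ∈ Finset.range 1024, 6 * (v - 121) :=
    Finset.sum_le_sum_of_subset (fun v hv => Finset.mem_range.2 (by have := Inn_bd (hB v hv); omega))
  have h2 : ∑ v ∈ Finset.range 1024, 6 * (v - 121) ≤ ∑ _v ∈ Finset.range 1024, 6144 :=
    Finset.sum_le_sum (fun v hv => by have := Finset.mem_range.1 hv; omega)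
  rw [Finset.sum_const, Finset.card_range] at h2
  have h3 : 1024 • 6144 ≤ 2 ^ 30 := by norm_num
  omega

theorem slt_lt {B W : Finset ℕ} (hW : ∀ v ∈ W, Inn v) : slt B W < 2 ^ 60 := by
  unfold slt
  have h1 := sum_salt_le hW
  norm_num at h1 ⊢
  omega

theorem repr_int {β : ℕ → ℕ → ℕ} {B W : Finset ℕ} (hB : ∀ v ∈ B, Inn v) (hW : ∀ v ∈ W, Inn v)
    (dis : Disjoint B W) :
    (Ck.X0 : ℤ) + (wv β : ℕ)
    + ∑ v ∈ W, ((Ck.KW : ℤ) * 64 ^ (v - 121) + 6 * (v - 121 : ℕ))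
    - ∑ v ∈ B, ((Ck.KB : ℤ) * 64 ^ (v - 121) + 6 * (v - 121 : ℕ)) =
    ((slt B W + sv (fr B W) + wv (cw β B W) : ℕ) : ℤ) := by
  have h1 : Ck.X0 = wv (fun _ _ => 28) + sv inner + 2 ^ 40 := by
    rw [X0_eq, ONES_eq, ← wv_mul, AM_eq, ← sv_def]
  have h2 : sv inner = sv (fr B W) + (sv B + sv W) := by
    have e1 : fr B W ∪ (B ∪ W) = inner := by
      unfold fr
      rw [Finset.sdiff_union_of_subset]
      intro v hv
      rw [Finset.mem_union] at hv
      rcases hv with hv | hv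
      · exact mem_inner.2 (hB v hv)
      · exact mem_inner.2 (hW v hv)
    have e2 : Disjoint (fr B W) (B ∪ W) := by unfold fr; exact Finset.sdiff_disjoint
    rw [← sv_union dis, ← sv_union e2, e1]
  have h3 : wv (cw β B W) + 4 * wv (cnt B) = wv (fun _ _ => 28) + wv β + wv (cnt W) := by
    rw [← wv_mul, ← wv_add, ← wv_add, ← wv_add]
    refine wv_congr fun d s => ?_
    unfold cw
    have := cnt_le B d s
    omega
  have hKB := KB_eq
  have hKW := KW_eq
  have h4 := KK_sv hB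
  have h5 := KK_sv hW
  have h6 : ∑ v ∈ W, ((Ck.KW : ℤ) * 64 ^ (v - 121) + 6 * (v - 121 : ℕ)) =
      (Ck.KW : ℤ) * (sv W : ℕ) + ((∑ v ∈ W, 6 * (v - 121) : ℕ) : ℤ) := by
    rw [sv_def]
    push_cast
    rw [Finset.sum_add_distrib, Finset.mul_sum]
  have h7 : ∑ v ∈ B, ((Ck.KB : ℤ) * 64 ^ (v - 121) + 6 * (v - 121 : ℕ)) =
      (Ck.KB : ℤ) * (sv B : ℕ) + ((∑ v ∈ B, 6 * (v - 121) : ℕ) : ℤ) := by
    rw [sv_def]
    push_cast
    rw [Finset.sum_add_distrib, Finset.mul_sum]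
  have h8 : slt B W + ∑ v ∈ B, 6 * (v - 121) = 2 ^ 40 + ∑ v ∈ W, 6 * (v - 121) := by
    unfold slt
    have := sum_salt_le hB
    norm_num at this ⊢
    omega
  rw [h6, h7]
  generalize ∑ v ∈ W, 6 * (v - 121) = tW at *
  generalize ∑ v ∈ B, 6 * (v - 121) = tB at *
  generalize slt B W = sl at *
  generalize wv (cw β B W) = w1 at *
  generalize wv (cnt B) = w2 at *
  generalize wv (cnt W) = w3 at *
  generalize wv β = w4 at *
  generalize wv (fun _ _ => 28) = w5 at *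
  generalize sv (fr B W) = s1 at *
  generalize sv inner = s2 at *
  generalize sv B = s3 at *
  generalize sv W = s4 at *
  generalize Ck.X0 = x0 at *
  generalize Ck.KK = kk at *
  generalize Ck.KB = kb at *
  generalize Ck.KW = kw at *
  subst h1 h2 hKB
  have h4' : (kk : ℤ) * s3 = w2 := by exact_mod_cast h4
  have h5' : (kk : ℤ) * s4 = w3 := by exact_mod_cast h5
  have h3' : (w1 : ℤ) + 4 * w2 = w5 + w4 + w3 := by exact_mod_cast h3
  have h8' : (sl : ℤ) + tB = 2 ^ 40 + tW := by exact_mod_cast h8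
  have hKW' : (kw : ℤ) = kk - 1 := by
    have : (kw : ℤ) + 1 = kk := by exact_mod_cast hKW
    linarith
  push_cast
  rw [hKW']
  linear_combination h5' - 4 * h4' - h3' - h8'

theorem Rep.repr {bias X : ℕ} {B W : Finset ℕ} {β : ℕ → ℕ → ℕ} (h : Rep bias X B W) (hβ : bias = wv β) :
    X = slt B W + sv (fr B W) + wv (cw β B W) := by
  have h1 := h.eq
  rw [hβ, repr_int h.hB h.hW h.dis] at h1
  exact_mod_cast h1

theorem low_lt {B W : Finset ℕ} (hW : ∀ v ∈ W, Inn v) {a : ℕ} (ha : a < 2 ^ 60) :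
    slt B W + a + sv (fr B W) < 2 ^ (6 * 779) := by
  have h1 := @sv_lt (fr B W) fr_inn
  have h2 := @slt_lt B W hW
  have h3 : (2 : ℕ) ^ 60 + 2 ^ 60 ≤ 2 ^ 66 := by norm_num
  have h4 : (2 : ℕ) ^ 66 ≤ 2 ^ (6 * 779) := Nat.pow_le_pow_right (by norm_num) (by norm_num)
  generalize (2 : ℕ) ^ (6 * 779) = t1 at *
  generalize (2 : ℕ) ^ 66 = t2 at *
  generalize (2 : ℕ) ^ 60 = t3 at *
  omega

theorem Rep.testBit {bias X : ℕ} {B W : Finset ℕ} {β : ℕ → ℕ → ℕ} (h : Rep bias X B W) (hβ : bias = wv β)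
    {v : ℕ} (hv : Inn v) : X.testBit (6 * (v - 121)) = true ↔ v ∈ fr B W := by
  have hb := Inn_bd hv
  rw [h.repr hβ, testBit_wv_lo (by simpa using low_lt h.hW (a := 0) (by norm_num)) (by omega),
    testBit_sv fr_inn (by have := @slt_lt B W h.hW; omega) (by omega)]
  constructor
  · rintro ⟨w, hw, e⟩
    have := Inn_bd (fr_inn w hw)
    have : v = w := by omega
    rwa [this]
  · exact fun hv => ⟨v, hv, rfl⟩

theorem shl_eq (a v : ℕ) : Nat.shiftLeft a (6 * v) = a * 64 ^ v := by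
  show a <<< (6 * v) = _
  rw [Nat.shiftLeft_eq, pow64]

theorem plB_eq (X v : ℕ) : Ck.plB X (6 * (v - 121)) = X - (Ck.KB * 64 ^ (v - 121) + 6 * (v - 121)) := by
  unfold Ck.plB
  rw [shl_eq]; rfl

theorem plW_eq (X v : ℕ) : Ck.plW X (6 * (v - 121)) = X + (Ck.KW * 64 ^ (v - 121) + 6 * (v - 121)) := by
  unfold Ck.plW
  rw [shl_eq]; rfl

theorem Rep_plW {bias X : ℕ} {B W : Finset ℕ} (h : Rep bias X B W) {v : ℕ} (hv : v ∈ fr B W) :
    Rep bias (Ck.plW X (6 * (v - 121))) B (insert v W) := by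
  obtain ⟨h1, h2, h3⟩ := mem_fr.1 hv
  refine ⟨h.hB, ?_, ?_, ?_⟩
  · intro w hw
    rcases Finset.mem_insert.1 hw with rfl | hw
    · exact h1
    · exact h.hW w hw
  · rw [Finset.disjoint_insert_right]; exact ⟨h2, h.dis⟩
  · rw [plW_eq, Finset.sum_insert h3]
    push_cast
    rw [h.eq]
    ring

theorem Rep_plB' {bias X : ℕ} {B W : Finset ℕ} (h : Rep bias X B W)
    {v : ℕ} (hv : v ∈ fr B W) :
    Ck.KB * 64 ^ (v - 121) + 6 * (v - 121) ≤ X ∧ Rep bias (Ck.plB X (6 * (v - 121))) (insert v B) W := by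
  obtain ⟨h1, h2, h3⟩ := mem_fr.1 hv
  have hB' : ∀ w ∈ insert v B, Inn w := by
    intro w hw
    rcases Finset.mem_insert.1 hw with rfl | hw
    · exact h1
    · exact h.hB w hw
  have hd' : Disjoint (insert v B) W := by
    rw [Finset.disjoint_insert_left]; exact ⟨h3, h.dis⟩
  have h0 : wv (fun _ _ => 0) = 0 :=
    (wv_congr (fun _ _ => (Nat.zero_mul 1).symm)).trans ((wv_mul 0 (fun _ _ => 1)).trans (Nat.zero_mul _))
  have h4 := repr_int (β := fun _ _ => 0) hB' h.hW hd'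
  have h5 := h.eq
  rw [Finset.sum_insert h2, h0, Nat.cast_zero, add_zero] at h4
  generalize slt (insert v B) W + sv (fr (insert v B) W) + wv (cw (fun _ _ => 0) (insert v B) W) = N at h4
  have h6 : (X : ℤ) - ((Ck.KB * 64 ^ (v - 121) + 6 * (v - 121) : ℕ) : ℤ) = (bias : ℤ) + (N : ℤ) := by
    rw [← h4, h5]
    push_cast
    ring
  have h7 : Ck.KB * 64 ^ (v - 121) + 6 * (v - 121) ≤ X := by
    have : (0 : ℤ) ≤ (bias : ℤ) + (N : ℤ) := add_nonneg (Int.natCast_nonneg _) (Int.natCast_nonneg _)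
    rw [← h6] at this
    have h8 := sub_nonneg.1 this
    exact_mod_cast h8
  refine ⟨h7, hB', h.hW, hd', ?_⟩
  rw [plB_eq, Nat.cast_sub h7, h6, ← h4, Finset.sum_insert h2]
  ring

theorem Rep_plB {bias X : ℕ} {B W : Finset ℕ} (h : Rep bias X B W)
    {v : ℕ} (hv : v ∈ fr B W) : Rep bias (Ck.plB X (6 * (v - 121))) (insert v B) W :=
  (Rep_plB' h hv).2

/-! ### the test `nf` -/

theorem testBit5 {x : ℕ} (hx : x < 64) : x.testBit 5 = true ↔ 32 ≤ x := by
  revert x; decide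

theorem exists_missing {Y M : ℕ} (h : Nat.land Y M ≠ M) : ∃ k, M.testBit k = true ∧ Y.testBit k = false := by
  by_contra hcon
  push Not at hcon
  apply h
  apply Nat.eq_of_testBit_eq
  intro k
  show (Y &&& M).testBit k = _
  rw [Nat.testBit_and]
  cases hM : M.testBit k with
  | false => simp
  | true =>
    have := hcon k hM
    rw [Bool.and_true]
    cases hY : Y.testBit k with
    | true => rfl
    | false => exact absurd hY this

theorem cw_lt {β : ℕ → ℕ → ℕ} (hβ1 : ∀ d s, β d s ≤ 1) {B W : Finset ℕ} (d s : ℕ) : cw β B W d s ≤ 34 := by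
  unfold cw
  have := hβ1 d s
  have := cnt_le W d s
  omega

theorem nf_five {bias X : ℕ} {B W : Finset ℕ} {β : ℕ → ℕ → ℕ} (h : Rep bias X B W) (hβ : bias = wv β)
    (hβ1 : ∀ d s, β d s ≤ 1) {v : ℕ} (hv : v ∈ fr B W) (hn : Ck.nf X (6 * (v - 121)) = false) :
    Five (insert (pos v) (cellsOf B)) := by
  obtain ⟨h1, h2⟩ := Rep_plB' h hv
  have hvb := Inn_bd (fr_inn v hv)
  unfold Ck.nf at hn
  have hn' : Nat.land (Nat.add (Nat.sub X (Nat.shiftLeft Ck.KB (6 * (v - 121)))) Ck.C23) Ck.MASK ≠ Ck.MASK := by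
    intro e
    rw [e, Nat.beq_refl] at hn
    exact absurd hn (by decide)
  obtain ⟨k, hk1, hk2⟩ := exists_missing hn'
  obtain ⟨d, s, hd, hs, rfl⟩ := (testBit_MASK k).1 hk1
  have e1 : Nat.add (Nat.sub X (Nat.shiftLeft Ck.KB (6 * (v - 121)))) Ck.C23 =
      (slt (insert v B) W + 6 * (v - 121) + sv (fr (insert v B) W)) +
        wv (fun d s => cw β (insert v B) W d s + 23) := by
    have e2 := h2.repr hβ
    rw [plB_eq] at e2
    rw [shl_eq]
    show X - Ck.KB * 64 ^ (v - 121) + Ck.C23 = _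
    rw [wv_add, ← C23_eq]
    have e3 : X - Ck.KB * 64 ^ (v - 121) =
        (slt (insert v B) W + sv (fr (insert v B) W) + wv (cw β (insert v B) W)) + 6 * (v - 121) := by
      rw [← e2]; omega
    rw [e3]
    ring
  have hA : slt (insert v B) W + 6 * (v - 121) + sv (fr (insert v B) W) < 2 ^ (6 * 779) :=
    low_lt h.hW (lt_of_lt_of_le (show 6 * (v - 121) < 2 ^ 20 by norm_num; omega) (by norm_num))
  rw [e1, testBit_wv_hi (fun d s => by have := @cw_lt β hβ1 (insert v B) W d s; omega) hA hd hs (by norm_num)] at hk2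
  have h5 : ¬ 32 ≤ cw β (insert v B) W d s + 23 := by
    rw [← testBit5 (by have := @cw_lt β hβ1 (insert v B) W d s; omega), hk2]
    decide
  have h6 : 5 ≤ cnt (insert v B) d s := by
    unfold cw at h5
    omega
  have h7 : wcells d s ⊆ insert v B := by
    have h8 : insert v B ∩ wcells d s = wcells d s :=
      Finset.eq_of_subset_of_card_le Finset.inter_subset_right (by rw [card_wcells]; exact h6)
    rw [← h8]
    exact Finset.inter_subset_left
  have h9 := five_codes h2.hB hd h7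
  unfold cellsOf at h9 ⊢
  rwa [Finset.image_insert] at h9

/-! ### zones -/

def zc (Z : ℕ) : Finset ℕ := inner.filter (fun v => Z.testBit (6 * (v - 121)) = true)

theorem mem_zc {Z v : ℕ} : v ∈ zc Z ↔ Inn v ∧ Z.testBit (6 * (v - 121)) = true := by
  unfold zc
  rw [Finset.mem_filter, mem_inner]

theorem Zs_eq (Z : ℕ) : Zs Z = cellsOf (zc Z) := rfl

theorem mem_Zs {Z v : ℕ} (hv : Inn v) : pos v ∈ Zs Z ↔ Z.testBit (6 * (v - 121)) = true := by
  rw [Zs_eq, mem_cellsOf, mem_zc]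
  exact ⟨fun h => h.2, fun h => ⟨hv, h⟩⟩

theorem testBit_sv0 {S : Finset ℕ} (hS : ∀ v ∈ S, Inn v) {k : ℕ} :
    (sv S).testBit k = true ↔ ∃ v ∈ S, k = 6 * (v - 121) := by
  rcases Nat.lt_or_ge k 66 with h | h
  · constructor
    · intro h1
      rw [sv_eq_val hS] at h1
      have h2 := Nat.testBit_two_pow_mul_add (i := 66) (b := 0)
        (val (fun i => if i + 132 ∈ S then 1 else 0) 768) (by norm_num) k
      rw [Nat.add_zero, if_pos h] at h2
      rw [h2] at h1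
      simp at h1
    · rintro ⟨v, hv, rfl⟩
      have := Inn_bd (hS v hv)
      omega
  · have := testBit_sv hS (salt := 0) (by norm_num) h
    rwa [Nat.zero_add] at this

theorem land_AM (Z : ℕ) : Nat.land Z Ck.AM = sv (zc Z) := by
  apply Nat.eq_of_testBit_eq
  intro k
  show (Z &&& Ck.AM).testBit k = _
  rw [Nat.testBit_and, Bool.eq_iff_iff, Bool.and_eq_true, testBit_AM,
    testBit_sv0 (fun v hv => (mem_zc.1 hv).1)]
  constructor
  · rintro ⟨h1, v, hv, rfl⟩
    exact ⟨v, mem_zc.2 ⟨hv, h1⟩, rfl⟩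
  · rintro ⟨v, hv, rfl⟩
    obtain ⟨h1, h2⟩ := mem_zc.1 hv
    exact ⟨h2, v, h1, rfl⟩

/-- bits of a zone number are free cells -/
def ZI (B W : Finset ℕ) (Z : ℕ) : Prop := ∀ j, 66 ≤ j → Z.testBit j = true → ∃ v ∈ fr B W, j = 6 * (v - 121)

theorem ZI.sub {B W : Finset ℕ} {Z : ℕ} (h : ZI B W Z) {v : ℕ} (hv : v ∈ zc Z) : v ∈ fr B W := by
  obtain ⟨h1, h2⟩ := mem_zc.1 hv
  have hb := Inn_bd h1
  obtain ⟨w, hw, e⟩ := h _ (by omega) h2
  have := Inn_bd (fr_inn w hw)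
  have : v = w := by omega
  rwa [this]

theorem wv_sub {c c' : ℕ → ℕ → ℕ} (h : ∀ d s, c' d s ≤ c d s) : wv c - wv c' = wv (fun d s => c d s - c' d s) := by
  have h1 : wv c = wv (fun d s => c d s - c' d s) + wv c' := by
    rw [← wv_add]
    refine wv_congr fun d s => ?_
    have := h d s
    omega
  rw [h1, Nat.add_sub_cancel]

theorem Zc_ne {x y y' : ℕ} (h : Ck.Zc x y = y') (hy : y' ≠ 0) : x = 0 ∧ y = y' := by
  cases x with
  | zero => exact ⟨rfl, h⟩
  | succ x => exact (hy h.symm).elim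

theorem fin_eq {CG X1 Kc Z m y : ℕ} (hy : Ck.fin CG X1 Kc Z m = y) (hy0 : y ≠ 0) :
    Nat.land (Nat.land (Nat.add X1 Kc) Ck.MASK)
      (Nat.sub CG (Nat.mul (Nat.land Z Ck.AM) Ck.KK)) = 0 ∧ y = Nat.lor Z (Ck.pt m) + 1 := by
  unfold Ck.fin at hy
  generalize Nat.land (Nat.add X1 Kc) Ck.MASK = t at hy ⊢
  generalize Nat.sub CG (Nat.mul (Nat.land Z Ck.AM) Ck.KK) = u at hy ⊢
  cases t with
  | zero => exact ⟨Nat.zero_and u, hy.symm⟩
  | succ x =>
    obtain ⟨h1, h2⟩ := Zc_ne hy hy0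
    exact ⟨h1, h2.symm⟩

theorem fin_flag {bias X K Z : ℕ} {B W : Finset ℕ} {β : ℕ → ℕ → ℕ} (h : Rep bias X B W) (hβ : bias = wv β)
    (hβ1 : ∀ d s, β d s ≤ 1) (hK : K ≤ 3)
    (h1 : Nat.land (Nat.land (Nat.add X (K * Ck.ONES)) Ck.MASK)
      (Nat.sub (Ck.C33 + bias) (Nat.mul (Nat.land Z Ck.AM) Ck.KK)) = 0)
    {d s : ℕ} (hd : d < 4) (hs : s < 1024) (hB0 : cnt B d s = 0)
    (hflag : 4 ≤ cnt W d s + K + β d s) : 2 + β d s ≤ cnt (zc Z) d s := by
  have e1 : Nat.add X (K * Ck.ONES) = (slt B W + sv (fr B W)) + wv (fun d s => cw β B W d s + K) := by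
    have e3 : wv (fun d s => cw β B W d s + K) = wv (cw β B W) + K * Ck.ONES := by
      rw [ONES_eq, ← wv_mul, ← wv_add]
      refine wv_congr fun d s => ?_
      rw [Nat.mul_one]
    rw [e3, ← Nat.add_assoc, ← h.repr hβ]
    rfl
  have hA : slt B W + sv (fr B W) < 2 ^ (6 * 779) := by
    have := low_lt (B := B) h.hW (a := 0) (by norm_num)
    rwa [Nat.add_zero] at this
  have hK3 : ∀ d s, cw β B W d s + K < 64 := fun d s => by
    have := @cw_lt β hβ1 B W d s
    omega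
  have b0 : (Nat.add X (K * Ck.ONES)).testBit (6 * (779 + 1024 * d + s) + 5) = true := by
    rw [e1, testBit_wv_hi hK3 hA hd hs (by norm_num), testBit5 (hK3 d s)]
    unfold cw
    omega
  have b1 : (Nat.land (Nat.add X (K * Ck.ONES)) Ck.MASK).testBit (6 * (779 + 1024 * d + s) + 5) = true := by
    have b2 : Ck.MASK.testBit (6 * (779 + 1024 * d + s) + 5) = true := (testBit_MASK _).2 ⟨d, s, hd, hs, rfl⟩
    generalize Ck.MASK = M at b2 ⊢
    generalize Nat.add X (K * Ck.ONES) = N at b0 ⊢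
    generalize 6 * (779 + 1024 * d + s) + 5 = k at b0 b2 ⊢
    show (N &&& M).testBit k = true
    rw [Nat.testBit_and, b0, b2]; rfl
  have e2 : Nat.sub (Ck.C33 + bias) (Nat.mul (Nat.land Z Ck.AM) Ck.KK) =
      0 + wv (fun d s => 33 + β d s - cnt (zc Z) d s) := by
    have e3 : Nat.mul (Nat.land Z Ck.AM) Ck.KK = wv (cnt (zc Z)) := by
      rw [land_AM]
      exact (Nat.mul_comm _ _).trans (KK_sv (fun v hv => (mem_zc.1 hv).1))
    have e4 : Ck.C33 + bias = wv (fun d s => 33 + β d s) := by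
      rw [C33_eq, hβ, ← wv_add]
    rw [e3, e4, Nat.zero_add]
    refine wv_sub fun d s => ?_
    have := cnt_le (zc Z) d s
    omega
  have b2 : (Nat.sub (Ck.C33 + bias) (Nat.mul (Nat.land Z Ck.AM) Ck.KK)).testBit
      (6 * (779 + 1024 * d + s) + 5) = false := by
    generalize Nat.sub (Ck.C33 + bias) (Nat.mul (Nat.land Z Ck.AM) Ck.KK) = N at h1 ⊢
    generalize Nat.land (Nat.add X (K * Ck.ONES)) Ck.MASK = M at h1 b1
    generalize 6 * (779 + 1024 * d + s) + 5 = k at b1 ⊢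
    have h3 : (M &&& N).testBit k = false := by
      have : M &&& N = 0 := h1
      rw [this]; exact Nat.zero_testBit k
    rw [Nat.testBit_and, b1, Bool.true_and] at h3
    exact h3
  have hc : ∀ d s, 33 + β d s - cnt (zc Z) d s < 64 := fun d s => by
    have := hβ1 d s
    omega
  rw [e2, testBit_wv_hi hc (Nat.two_pow_pos _) hd hs (by norm_num)] at b2
  have b3 : ¬ 32 ≤ 33 + β d s - cnt (zc Z) d s := by
    rw [← testBit5 (hc d s), b2]
    decide
  omega

theorem fin_spec {G : Set P} {g bias UM : ℕ} (hG : GType G g bias UM) {X K Z m y : ℕ} {B W : Finset ℕ}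
    (h : Rep bias X B W) (hK : K + g ≤ 3) (hZ : ZI B W Z)
    (hy : Ck.fin (Ck.C33 + bias) X (K * Ck.ONES) Z m = y) (hy0 : y ≠ 0) :
    FlagOK G g K (cellsOf B) (cellsOf W) (Zs Z) ∧ y = Nat.lor Z (Ck.pt m) + 1 := by
  obtain ⟨β, hβ0, hβg, hβG⟩ := hG.ex
  have hβ : bias = wv β := by rw [wv_def]; exact hβ0
  have hβ1 : ∀ d s, β d s ≤ 1 := fun d s => (hβg d s).trans hG.g1
  obtain ⟨h1, h2⟩ := fin_eq hy hy0
  refine ⟨⟨?_, ?_⟩, h2⟩
  · rw [Finset.disjoint_left]
    intro x hx hxW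
    rw [Zs_eq] at hx
    unfold cellsOf at hx
    obtain ⟨v, hv, rfl⟩ := Finset.mem_image.1 hx
    exact (mem_fr.1 (hZ.sub hv)).2.2 (mem_cellsOf.1 hxW)
  · intro ω hω hdis hflag
    have hgw : gw G g ω ≤ g := by unfold gw; split_ifs <;> omega
    have hWpos : 0 < (cellsOf W ∩ ω).card := by omega
    obtain ⟨x, hx⟩ := Finset.card_pos.1 hWpos
    rw [Finset.mem_inter] at hx
    have hxW := hx.1
    unfold cellsOf at hxW
    obtain ⟨v, hv, rfl⟩ := Finset.mem_image.1 hxW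
    have hvI := h.hW v hv
    obtain ⟨d, s, hd, hs, hvw, rfl⟩ := win_code hω hvI hx.2
    have hgβ : gw G g ((wcells d s).image pos) = β d s := by
      obtain ⟨g1, g2⟩ := hβG d hd s hs ⟨v, hvw, hvI⟩
      by_cases hex : ∃ v ∈ wcells d s, pos v ∈ G
      · rw [g1 hex]
        obtain ⟨w, hw, hwG⟩ := hex
        exact gw_pos (Finset.mem_image_of_mem _ hw) hwG
      · rw [g2 hex]
        unfold gw
        rw [if_neg]
        rintro ⟨x, hx, hxG⟩
        obtain ⟨w, hw, rfl⟩ := Finset.mem_image.1 hx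
        exact hex ⟨w, hw, hxG⟩
    rw [hgβ, card_cells] at hflag
    rw [hgβ, Zs_eq, card_cells]
    have hB0 : cnt B d s = 0 := by
      rw [← card_cells, Finset.card_eq_zero, ← Finset.disjoint_iff_inter_eq_empty]
      exact hdis.symm
    exact fin_flag h hβ hβ1 (by omega) h1 hd hs hB0 hflag

end Pool.Agent.H88.FIR
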