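import Pool.Agent.H74.FIR.RepL

/-! Soundness of the certificate evaluator. -/

set_option autoImplicit false

namespace Pool.Agent.H88.FIR

open Pool.Agent.H88

attribute [local irreducible] Ck.ONES Ck.MASK Ck.KK Ck.KB Ck.KW Ck.C23 Ck.C33 Ck.AM Ck.AMS Ck.X0

/-! ### control functions -/

theorem F_eq (x : ℕ) (f : ℕ → ℕ) : Ck.F x f = f x := rfl

theorem N_ne {x y : ℕ} {f : ℕ → ℕ} (h : Ck.N x f = y) (hy : y ≠ 0) : ∃ z, x = z + 1 ∧ f z = y := by
  cases x with
  | zero => exact (hy h.symm).elim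
  | succ x => exact ⟨x, rfl, h⟩

theorem Nc_ne {x y y' : ℕ} (h : Ck.Nc x y = y') (hy : y' ≠ 0) : x ≠ 0 ∧ y = y' := by
  cases x with
  | zero => exact (hy h.symm).elim
  | succ x => exact ⟨Nat.succ_ne_zero x, h⟩

theorem Bf_ne {b : Bool} {y y' : ℕ} (h : Ck.Bf b y = y') (hy : y' ≠ 0) : b = false ∧ y = y' := by
  cases b with
  | true => exact (hy h.symm).elim
  | false => exact ⟨rfl, h⟩

theorem Bt_ne {b : Bool} {y y' : ℕ} (h : Ck.Bt b y = y') (hy : y' ≠ 0) : b = true ∧ y = y' := by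
  cases b with
  | false => exact (hy h.symm).elim
  | true => exact ⟨rfl, h⟩

theorem It_zero (a b : ℕ) : Ck.It 0 a b = a := rfl
theorem It_succ (x a b : ℕ) : Ck.It (x + 1) a b = b := rfl

/-! ### bits -/

theorem testBit_pt {m j : ℕ} : (Ck.pt m).testBit j = true ↔ j = m := by
  unfold Ck.pt
  show ((1 : ℕ) <<< m).testBit j = true ↔ _
  rw [Nat.one_shiftLeft, Nat.testBit_two_pow, decide_eq_true_eq]
  exact eq_comm

theorem land_pt_ne {A m : ℕ} (h : Nat.land A (Ck.pt m) ≠ 0) : A.testBit m = true := by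
  by_contra hA
  apply h
  apply Nat.eq_of_testBit_eq
  intro j
  show (A &&& Ck.pt m).testBit j = _
  rw [Nat.testBit_and, Nat.zero_testBit]
  by_cases hj : j = m
  · subst hj
    simp [hA]
  · have : (Ck.pt m).testBit j = false := by
      rw [Bool.eq_false_iff]
      exact fun h => hj (testBit_pt.1 h)
    rw [this, Bool.and_false]

theorem testBit_land {A B j : ℕ} : (Nat.land A B).testBit j = true ↔ A.testBit j = true ∧ B.testBit j = true := by
  show (A &&& B).testBit j = true ↔ _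
  rw [Nat.testBit_and, Bool.and_eq_true]

theorem testBit_lor {A B j : ℕ} : (Nat.lor A B).testBit j = true ↔ A.testBit j = true ∨ B.testBit j = true := by
  show (A ||| B).testBit j = true ↔ _
  rw [Nat.testBit_or, Bool.or_eq_true]

theorem testBit_diff : ∀ (j U Q : ℕ), (Ck.diff U Q).testBit j = (U.testBit j && !Q.testBit j) := by
  intro j
  unfold Ck.diff
  show ∀ U Q : ℕ, Nat.testBit (U - (U &&& Q)) j = (Nat.testBit U j && !Nat.testBit Q j)
  have hle : ∀ U Q : ℕ, U &&& Q ≤ U := fun U Q => Nat.and_le_left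
  induction j with
  | zero =>
    intro U Q
    have h1 : (U &&& Q).testBit 0 = (U.testBit 0 && Q.testBit 0) := Nat.testBit_and _ _ _
    have h2 := hle U Q
    have h3 : (U &&& Q) / 2 ≤ U / 2 := Nat.div_le_div_right h2
    rw [Nat.testBit_zero] at h1
    rw [Nat.testBit_zero] at h1
    rw [Nat.testBit_zero] at h1
    rw [Nat.testBit_zero, Nat.testBit_zero, Nat.testBit_zero]
    have h4 : (U &&& Q) % 2 = (if U % 2 = 1 ∧ Q % 2 = 1 then 1 else 0) := by
      split_ifs with h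
      · have : decide ((U &&& Q) % 2 = 1) = true := by rw [h1]; simp [h.1, h.2]
        exact of_decide_eq_true this
      · have : decide ((U &&& Q) % 2 = 1) = false := by
          rw [h1]
          rw [Bool.and_eq_false_iff, decide_eq_false_iff_not, decide_eq_false_iff_not]
          tauto
        have := of_decide_eq_false this
        omega
    rcases Nat.mod_two_eq_zero_or_one U with hU | hU <;>
      rcases Nat.mod_two_eq_zero_or_one Q with hQ | hQ
    · have : (U - (U &&& Q)) % 2 = 0 := by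
        rw [if_neg (by omega)] at h4; omega
      simp [this, hU]
    · have : (U - (U &&& Q)) % 2 = 0 := by
        rw [if_neg (by omega)] at h4; omega
      simp [this, hU]
    · have : (U - (U &&& Q)) % 2 = 1 := by
        rw [if_neg (by omega)] at h4; omega
      simp [this, hU, hQ]
    · have : (U - (U &&& Q)) % 2 = 0 := by
        rw [if_pos ⟨hU, hQ⟩] at h4; omega
      simp [this, hU, hQ]
  | succ j ih =>
    intro U Q
    rw [Nat.testBit_succ, Nat.testBit_succ, Nat.testBit_succ, ← ih (U / 2) (Q / 2)]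
    congr 1
    have h1 : (U / 2 &&& Q / 2) = (U &&& Q) / 2 := (Nat.and_div_two).symm
    rw [h1]
    have h2 := hle U Q
    have h3 : (U &&& Q) % 2 ≤ U % 2 := by
      have h1 : (U &&& Q).testBit 0 = (U.testBit 0 && Q.testBit 0) := Nat.testBit_and _ _ _
      rw [Nat.testBit_zero] at h1
      rw [Nat.testBit_zero] at h1
      rw [Nat.testBit_zero] at h1
      by_cases h : (U &&& Q) % 2 = 1
      · have : decide (U % 2 = 1) = true := by
          rw [h] at h1
          have h5 : (decide (U % 2 = 1) && decide (Q % 2 = 1)) = true := by rw [← h1]; simp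
          rw [Bool.and_eq_true] at h5
          exact h5.1
        have := of_decide_eq_true this
        omega
      · omega
    omega

theorem diff_zero {U Q : ℕ} (h : Ck.diff U Q = 0) {j : ℕ} (hj : U.testBit j = true) : Q.testBit j = true := by
  have := testBit_diff j U Q
  rw [h, hj, Nat.zero_testBit, Bool.true_and] at this
  cases hQ : Q.testBit j with
  | true => rfl
  | false => rw [hQ] at this; exact absurd this (by decide)

/-! ### zones -/

theorem mem_Zs' {Z : ℕ} {x : P} : x ∈ Zs Z ↔ ∃ v, Inn v ∧ Z.testBit (6 * (v - 121)) = true ∧ pos v = x := by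
  unfold Zs
  rw [Finset.mem_image]
  constructor
  · rintro ⟨v, hv, e⟩
    rw [Finset.mem_filter, mem_inner] at hv
    exact ⟨v, hv.1, hv.2, e⟩
  · rintro ⟨v, h1, h2, e⟩
    exact ⟨v, by rw [Finset.mem_filter, mem_inner]; exact ⟨h1, h2⟩, e⟩

theorem Zs_lor (Z Z' : ℕ) : Zs (Nat.lor Z Z') = Zs Z ∪ Zs Z' := by
  ext x
  rw [Finset.mem_union, mem_Zs', mem_Zs', mem_Zs']
  constructor
  · rintro ⟨v, h1, h2, e⟩
    rcases testBit_lor.1 h2 with h2 | h2
    · exact Or.inl ⟨v, h1, h2, e⟩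
    · exact Or.inr ⟨v, h1, h2, e⟩
  · rintro (⟨v, h1, h2, e⟩ | ⟨v, h1, h2, e⟩)
    · exact ⟨v, h1, testBit_lor.2 (Or.inl h2), e⟩
    · exact ⟨v, h1, testBit_lor.2 (Or.inr h2), e⟩

theorem Zs_lor_pt {Z v : ℕ} (hv : Inn v) : Zs (Nat.lor Z (Ck.pt (6 * (v - 121)))) = insert (pos v) (Zs Z) := by
  have h0 : Zs (Ck.pt (6 * (v - 121))) = {pos v} := by
    ext x
    rw [Finset.mem_singleton, mem_Zs']
    constructor
    · rintro ⟨w, h1, h2, rfl⟩
      rw [testBit_pt] at h2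
      have h1 := Inn_bd h1
      have h3 := Inn_bd hv
      have : w = v := by omega
      rw [this]
    · rintro rfl
      exact ⟨v, hv, testBit_pt.2 rfl, rfl⟩
  rw [Zs_lor, h0, Finset.union_comm, Finset.insert_eq]

theorem Zs_sub_inner (Z : ℕ) : Zs Z ⊆ cellsOf inner :=
  Finset.image_subset_image (Finset.filter_subset _ _)

theorem ZI.lor {B W : Finset ℕ} {Z Z' : ℕ} (h : ZI B W Z) (h' : ZI B W Z') : ZI B W (Nat.lor Z Z') := by
  intro j hj hb
  rcases testBit_lor.1 hb with hb | hb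
  · exact h j hj hb
  · exact h' j hj hb

theorem ZI.pt {B W : Finset ℕ} {v : ℕ} (hv : v ∈ fr B W) : ZI B W (Ck.pt (6 * (v - 121))) := by
  intro j _ hb
  exact ⟨v, hv, testBit_pt.1 hb⟩

theorem ZI.mono {B W B' W' : Finset ℕ} {Z : ℕ} (h : ZI B' W' Z) (hs : fr B' W' ⊆ fr B W) : ZI B W Z := by
  intro j hj hb
  obtain ⟨v, hv, e⟩ := h j hj hb
  exact ⟨v, hs hv, e⟩

theorem fr_mono {B W B' W' : Finset ℕ} (h1 : B ⊆ B') (h2 : W ⊆ W') : fr B' W' ⊆ fr B W :=
  Finset.sdiff_subset_sdiff subset_rfl (Finset.union_subset_union h1 h2)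

/-- bits of a hint number are inner cells -/
def HI (H : ℕ) : Prop := ∀ j, 66 ≤ j → H.testBit j = true → ∃ v, Inn v ∧ j = 6 * (v - 121)

theorem HI.lor {H H' : ℕ} (h : HI H) (h' : HI H') : HI (Nat.lor H H') := by
  intro j hj hb
  rcases testBit_lor.1 hb with hb | hb
  · exact h j hj hb
  · exact h' j hj hb

theorem cellsOf_insert (v : ℕ) (B : Finset ℕ) : cellsOf (insert v B) = insert (pos v) (cellsOf B) := by
  unfold cellsOf
  rw [Finset.image_insert]

theorem cellsOf_union (A B : Finset ℕ) : cellsOf (A ∪ B) = cellsOf A ∪ cellsOf B := by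
  unfold cellsOf
  rw [Finset.image_union]

section main
variable {G : Set P} {g bias UM : ℕ}

theorem GType.exβ (hG : GType G g bias UM) : ∃ β, bias = wv β ∧ ∀ d s, β d s ≤ 1 := by
  obtain ⟨β, hβ, hβg, -⟩ := hG.ex
  exact ⟨β, by rw [wv_def]; exact hβ, fun d s => (hβg d s).trans hG.g1⟩

theorem cell_AM (hG : GType G g bias UM) {X m : ℕ} {B W : Finset ℕ} (h : Rep bias X B W)
    (hm : (Nat.land X Ck.AM).testBit m = true) : ∃ v ∈ fr B W, m = 6 * (v - 121) := by
  obtain ⟨β, hβ, -⟩ := hG.exβ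
  obtain ⟨h1, h2⟩ := testBit_land.1 hm
  obtain ⟨v, hv, rfl⟩ := testBit_AM.1 h2
  exact ⟨v, (h.testBit hβ hv).1 h1, rfl⟩

theorem cell_UM (hG : GType G g bias UM) {X m : ℕ} {B W : Finset ℕ} (h : Rep bias X B W)
    (hm : (Nat.land X UM).testBit m = true) : ∃ v ∈ fr B W, m = 6 * (v - 121) ∧ pos v ∉ G := by
  obtain ⟨β, hβ, -⟩ := hG.exβ
  obtain ⟨h1, h2⟩ := testBit_land.1 hm
  obtain ⟨v, hv, rfl, hg⟩ := hG.um _ h2
  exact ⟨v, (h.testBit hβ hv).1 h1, rfl, hg⟩

theorem ZI_H (hG : GType G g bias UM) {X H : ℕ} {B W : Finset ℕ} (h : Rep bias X B W) (hH : HI H) :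
    ZI B W (Nat.land H X) := by
  obtain ⟨β, hβ, -⟩ := hG.exβ
  intro j hj hb
  obtain ⟨h1, h2⟩ := testBit_land.1 hb
  obtain ⟨v, hv, rfl⟩ := hH j hj h1
  exact ⟨v, (h.testBit hβ hv).1 h2, rfl⟩

theorem hints_spec : ∀ (n s H : ℕ) (k : ℕ → ℕ → ℕ), ∃ s' H', Ck.hints n s H k = k s' H' := by
  intro n
  induction n with
  | zero => intro s H k; exact ⟨s, H, rfl⟩
  | succ n ih => intro s H k; exact ih _ _ k

theorem ohints_spec {X s y : ℕ} {k : ℕ → ℕ → ℕ} (h : Ck.ohints X s k = y) (hy : y ≠ 0) :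
    ∃ s' h', k s' h' = y ∧ ∀ j, h'.testBit j = true → (Nat.land X Ck.AM).testBit j = true := by
  unfold Ck.ohints at h
  generalize Nat.land s 1 = t at h
  cases t with
  | zero => exact ⟨_, 0, h, fun j hj => by simp at hj⟩
  | succ t =>
    rw [It_succ] at h
    obtain ⟨s', H', e⟩ := hints_spec (Nat.land (Nat.shiftRight s 1) 63) (Nat.shiftRight s 7) 0
      (fun s' h => Ck.Zc (Ck.diff h (Nat.land X Ck.AM)) (k s' h))
    have h' := e.symm.trans h
    obtain ⟨h1, h2⟩ := Zc_ne h' hy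
    exact ⟨s', H', h2, fun j hj => diff_zero h1 hj⟩

theorem ZI_hint (hG : GType G g bias UM) {X h' : ℕ} {B W : Finset ℕ} (h : Rep bias X B W)
    (hh : ∀ j, h'.testBit j = true → (Nat.land X Ck.AM).testBit j = true) : ZI B W h' :=
  fun j _ hb => cell_AM hG h (hh j hb)

theorem HI_hint {X h' : ℕ}
    (hh : ∀ j, h'.testBit j = true → (Nat.land X Ck.AM).testBit j = true) : HI h' :=
  fun j _ hb => testBit_AM.1 (testBit_land.1 (hh j hb)).2

theorem fr_insert_left {B W : Finset ℕ} {v w : ℕ} (h : w ∈ fr (insert v B) W) : w ∈ fr B W ∧ w ≠ v := by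
  obtain ⟨h1, h2, h3⟩ := mem_fr.1 h
  rw [Finset.mem_insert, not_or] at h2
  exact ⟨mem_fr.2 ⟨h1, h2.2, h3⟩, h2.1⟩

theorem notin_of_fr {B W : Finset ℕ} {v : ℕ} (h : v ∈ fr B W) : pos v ∉ cellsOf B ∧ pos v ∉ cellsOf W := by
  obtain ⟨_, h2, h3⟩ := mem_fr.1 h
  exact ⟨fun h => h2 (mem_cellsOf.1 h), fun h => h3 (mem_cellsOf.1 h)⟩

/-- leaf: double four -/
theorem leaf_spec (hG : GType G g bias UM) {X K H s y : ℕ} {B W : Finset ℕ} {k : ℕ → ℕ → ℕ}
    (h : Rep bias X B W) (hK : K + g ≤ 3) (hH : HI H)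
    (hy : Ck.leaf (Ck.C33 + bias) UM (K * Ck.ONES) H s X k = y) (hy0 : y ≠ 0) :
    ∃ s' z, k s' z = y ∧ ZI B W z ∧ Sem G g K (cellsOf B) (cellsOf W) (Zs z) := by
  obtain ⟨β, hβ, hβ1⟩ := hG.exβ
  unfold Ck.leaf at hy
  rw [F_eq] at hy
  obtain ⟨hm, hy⟩ := Nc_ne hy hy0
  obtain ⟨m, hmf, hme, hmG⟩ := cell_UM hG h (land_pt_ne hm)
  rw [F_eq, hme] at hy
  have h1 := Rep_plB h hmf
  unfold Ck.leaf1 at hy
  rw [F_eq, F_eq] at hy
  obtain ⟨ha, hy⟩ := Nc_ne hy hy0
  obtain ⟨a, haf, hae, haG⟩ := cell_UM hG h1 (land_pt_ne ha)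
  rw [hae] at hy
  obtain ⟨ha5, hy⟩ := Bf_ne hy hy0
  have h5a := nf_five h1 hβ hβ1 haf ha5
  unfold Ck.leaf2 at hy
  rw [F_eq] at hy
  obtain ⟨hb, hy⟩ := Nc_ne hy hy0
  obtain ⟨b, hbf, hbe, hbG⟩ := cell_UM hG h1 (land_pt_ne hb)
  rw [hbe] at hy
  obtain ⟨hab, hy⟩ := Bf_ne hy hy0
  obtain ⟨hb5, hy⟩ := Bf_ne hy hy0
  have h5b := nf_five h1 hβ hβ1 hbf hb5
  obtain ⟨s', h', hy, hh'⟩ := ohints_spec hy hy0
  obtain ⟨z, hz, hy⟩ := N_ne hy hy0
  have haI := fr_inn a haf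
  have hbI := fr_inn b hbf
  have hmI := fr_inn m hmf
  obtain ⟨Z, hZdef⟩ : ∃ Z, Z = Nat.lor (Nat.lor h' (Nat.land H (Ck.plB X (6 * (m - 121)))))
    (Nat.lor (Ck.pt (6 * (a - 121))) (Ck.pt (6 * (b - 121)))) := ⟨_, rfl⟩
  rw [← hZdef] at hz
  have hZI : ZI (insert m B) W Z := by
    rw [hZdef]
    exact ((ZI_hint hG h1 hh').lor (ZI_H hG h1 hH)).lor ((ZI.pt haf).lor (ZI.pt hbf))
  obtain ⟨hflag, hzz⟩ := fin_spec hG h1 hK hZI hz (Nat.succ_ne_zero z)
  have hzz' : z = Nat.lor Z (Ck.pt (6 * (m - 121))) := Nat.succ_injective hzz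
  refine ⟨s', z, hy, ?_, ?_⟩
  · rw [hzz']
    exact (hZI.mono (fr_mono (Finset.subset_insert _ _) subset_rfl)).lor (ZI.pt hmf)
  · rw [hzz', Zs_lor_pt hmI]
    have hna := notin_of_fr haf
    have hnb := notin_of_fr hbf
    have hnm := notin_of_fr hmf
    rw [cellsOf_insert] at hna hnb h5a h5b hflag
    refine Sem_double (a := pos a) (b := pos b) ⟨hnm.1, hnm.2, hmG⟩ ⟨hna.1, hna.2, haG⟩
      ⟨hnb.1, hnb.2, hbG⟩ ?_ h5a h5b ?_ ?_ hflag
    · intro e
      have e' := pos_inj e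
      subst e'
      rw [Nat.beq_refl] at hab
      exact absurd hab (by decide)
    · rw [mem_Zs haI, hZdef, testBit_lor, testBit_lor (A := Ck.pt _)]
      exact Or.inr (Or.inl (testBit_pt.2 rfl))
    · rw [mem_Zs hbI, hZdef, testBit_lor, testBit_lor (A := Ck.pt _)]
      exact Or.inr (Or.inr (testBit_pt.2 rfl))

/-- place white stones -/
theorem cells_spec (hG : GType G g bias UM) {B : Finset ℕ} : ∀ (n s X Q : ℕ) (W : Finset ℕ)
    (k : ℕ → ℕ → ℕ → ℕ) (y : ℕ), Rep bias X B W → Ck.cells n s X Q k = y → y ≠ 0 →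
    ∃ s' X' Q' A, k s' X' Q' = y ∧ Rep bias X' B (W ∪ A) ∧ (∀ v ∈ A, v ∈ fr B W) ∧
      (∀ j, Q'.testBit j = true ↔ Q.testBit j = true ∨ ∃ v ∈ A, j = 6 * (v - 121)) := by
  intro n
  induction n with
  | zero =>
    intro s X Q W k y h hy _
    exact ⟨s, X, Q, ∅, hy, by simpa using h, by simp, by simp⟩
  | succ n ih =>
    intro s X Q W k y h hy hy0
    change Ck.F (Ck.cell s) (fun c => Ck.Nc (Nat.land (Nat.land X Ck.AM) (Ck.pt c)) <|
      Ck.F (Ck.plW X c) fun X' => Ck.cells n (Nat.shiftRight s 10) X' (Nat.lor Q (Ck.pt c)) k) = y at hy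
    rw [F_eq] at hy
    obtain ⟨hc, hy⟩ := Nc_ne hy hy0
    obtain ⟨v, hv, hve⟩ := cell_AM hG h (land_pt_ne hc)
    rw [F_eq, hve] at hy
    obtain ⟨s', X', Q', A, h1, h2, h3, h4⟩ := ih _ _ _ _ _ _ (Rep_plW h hv) hy hy0
    refine ⟨s', X', Q', insert v A, h1, ?_, ?_, ?_⟩
    · have : W ∪ insert v A = insert v W ∪ A := by
        ext x; simp only [Finset.mem_union, Finset.mem_insert]; tauto
      rw [this]; exact h2
    · intro w hw
      rcases Finset.mem_insert.1 hw with rfl | hw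
      · exact hv
      · exact fr_mono subset_rfl (Finset.subset_insert _ _) (h3 w hw)
    · intro j
      rw [h4, testBit_lor, testBit_pt]
      constructor
      · rintro ((h5 | h5) | ⟨w, hw, e⟩)
        · exact Or.inl h5
        · exact Or.inr ⟨v, Finset.mem_insert_self _ _, h5⟩
        · exact Or.inr ⟨w, Finset.mem_insert_of_mem hw, e⟩
      · rintro (h5 | ⟨w, hw, e⟩)
        · exact Or.inl (Or.inl h5)
        · rcases Finset.mem_insert.1 hw with rfl | hw
          · exact Or.inl (Or.inr e)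
          · exact Or.inr ⟨w, hw, e⟩

/-- correctness of an evaluator -/
def EvOK (G : Set P) (g bias : ℕ) (e : ℕ → ℕ → ℕ → ℕ → ℕ → ℕ) : Prop :=
  ∀ (r H s X K : ℕ) (B W : Finset ℕ) (y : ℕ), Rep bias X B W → K + r + g ≤ 3 → HI H →
    e r (K * Ck.ONES) H s X = y → y ≠ 0 →
    ∃ z, y = z + 1 ∧ ZI B W z ∧ Sem G g K (cellsOf B) (cellsOf W) (Zs z)

theorem sub_spec (hG : GType G g bias UM) {e : ℕ → ℕ → ℕ → ℕ → ℕ → ℕ} (he : EvOK G g bias e)
    {gen r H s X K y : ℕ} {B W : Finset ℕ} {k : ℕ → ℕ → ℕ} (h : Rep bias X B W)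
    (hK : K + r + g ≤ 3) (hH : HI H)
    (hy : Ck.sub (Ck.C33 + bias) UM e gen r (K * Ck.ONES) H s X k = y) (hy0 : y ≠ 0) :
    ∃ s' z, k s' z = y ∧ ZI B W z ∧ Sem G g K (cellsOf B) (cellsOf W) (Zs z) := by
  unfold Ck.sub at hy
  cases gen with
  | zero => exact leaf_spec hG h (by omega) hH hy hy0
  | succ gen =>
    rw [It_succ, F_eq, F_eq] at hy
    obtain ⟨z, hz, hy⟩ := N_ne hy hy0
    obtain ⟨z', hz', h1, h2⟩ := he _ _ _ _ _ _ _ _ h hK hH hz (Nat.succ_ne_zero z)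
    have : z = z' := Nat.succ_injective hz'
    subst this
    exact ⟨_, z, hy, h1, h2⟩

theorem kids_spec (hG : GType G g bias UM) {e : ℕ → ℕ → ℕ → ℕ → ℕ → ℕ} (he : EvOK G g bias e)
    {r1 K H H1 X1 : ℕ} {B W : Finset ℕ} (h : Rep bias X1 B W)
    (hK : K + (r1 + 1) + g ≤ 3) (hH : HI H) (hH1 : HI H1) : ∀ (n s U Z : ℕ) (k : ℕ → ℕ → ℕ) (y : ℕ),
    Ck.kids (Ck.C33 + bias) UM e (r1 + 1) r1 (K * Ck.ONES) ((K + 1) * Ck.ONES) H H1 X1 n s U Z k = y →
    y ≠ 0 → ZI B W Z →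
    ∃ (l : List Kid) (U' Z' : ℕ), k U' Z' = y ∧
      (∀ kd ∈ l, Sem G g (if kd.D then K + 1 else K) (cellsOf B) (cellsOf W ∪ kd.A) kd.Z) ∧
      (∀ kd ∈ l, kd.Z ⊆ Zs Z') ∧ Zs Z ⊆ Zs Z' ∧ ZI B W Z' ∧ (∀ kd ∈ l, kd.Z ⊆ cellsOf inner) ∧
      (∀ v, Inn v → U.testBit (6 * (v - 121)) = true → U'.testBit (6 * (v - 121)) = true ∨
        ∃ kd ∈ l, pos v ∈ kd.A ∨ (kd.D = true ∧ pos v ∉ kd.Z)) := by
  intro n
  induction n with
  | zero =>
    intro s U Z k y hy _ hZ
    exact ⟨[], U, Z, hy, by simp, by simp, subset_rfl, hZ, by simp, fun v _ hv => Or.inl hv⟩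
  | succ n ih =>
    intro s U Z k y hy hy0 hZ
    change Ck.F (Nat.land s 1) (fun D =>
      Ck.cells (Nat.add (Nat.land (Nat.shiftRight s 2) 3) (Nat.sub 1 D))
        (Nat.shiftRight s 4) X1 0 fun s' X' Q =>
      Ck.sub (Ck.C33 + bias) UM e (Nat.land s 2) (Ck.It D (r1 + 1) r1)
        (Ck.It D (K * Ck.ONES) ((K + 1) * Ck.ONES)) (Ck.It D H H1) s' X' fun s'' z =>
      Ck.F (Ck.diff (Ck.It D U (Nat.land U z)) Q) fun U' =>
        Ck.kids (Ck.C33 + bias) UM e (r1 + 1) r1 (K * Ck.ONES) ((K + 1) * Ck.ONES) H H1 X1 n s'' U'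
          (Nat.lor Z z) k) = y at hy
    rw [F_eq] at hy
    generalize Nat.land s 1 = D at hy
    obtain ⟨s', X', Q, A, hy, hX', hA, hQ⟩ := cells_spec hG _ _ _ _ _ _ _ h hy hy0
    have step : ∃ s'' z D', (Ck.F (Ck.diff (Ck.It D U (Nat.land U z)) Q) fun U' =>
        Ck.kids (Ck.C33 + bias) UM e (r1 + 1) r1 (K * Ck.ONES) ((K + 1) * Ck.ONES) H H1 X1 n s'' U'
          (Nat.lor Z z) k) = y ∧ ZI B (W ∪ A) z ∧
        Sem G g (if D' = true then K + 1 else K) (cellsOf B) (cellsOf (W ∪ A)) (Zs z) ∧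
        (∀ j, U.testBit j = true → (Ck.It D U (Nat.land U z)).testBit j = true ∨
          (D' = true ∧ z.testBit j = false)) := by
      cases D with
      | zero =>
        obtain ⟨s'', z, h1, h2, h3⟩ := sub_spec hG he hX' hK hH hy hy0
        exact ⟨s'', z, false, h1, h2, h3, fun j hj => Or.inl hj⟩
      | succ D =>
        obtain ⟨s'', z, h1, h2, h3⟩ := sub_spec hG he hX' (K := K + 1) (r := r1) (by omega) hH1 hy hy0
        refine ⟨s'', z, true, h1, h2, h3, fun j hj => ?_⟩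
        rw [It_succ, testBit_land]
        cases hz : z.testBit j with
        | true => exact Or.inl ⟨hj, rfl⟩
        | false => exact Or.inr ⟨rfl, rfl⟩
    obtain ⟨s'', z, D', hy, hz, hsem, hU⟩ := step
    rw [F_eq] at hy
    have hz' : ZI B W z := hz.mono (fr_mono subset_rfl Finset.subset_union_left)
    obtain ⟨l, U', Z', h1, h2, h3, h4, h5, h6, h7⟩ := ih _ _ _ _ _ hy hy0 (hZ.lor hz')
    rw [Zs_lor] at h4
    refine ⟨⟨cellsOf A, D', Zs z⟩ :: l, U', Z', h1, ?_, ?_, ?_, h5, ?_, ?_⟩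
    · intro kd hkd
      rcases List.mem_cons.1 hkd with rfl | hkd
      · rw [← cellsOf_union]; exact hsem
      · exact h2 kd hkd
    · intro kd hkd
      rcases List.mem_cons.1 hkd with rfl | hkd
      · exact Finset.subset_union_right.trans h4
      · exact h3 kd hkd
    · exact Finset.subset_union_left.trans h4
    · intro kd hkd
      rcases List.mem_cons.1 hkd with rfl | hkd
      · exact Zs_sub_inner z
      · exact h6 kd hkd
    · intro v hv hvU
      rcases hU _ hvU with h8 | ⟨h8, h9⟩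
      · by_cases hvQ : Q.testBit (6 * (v - 121)) = true
        · right
          rcases (hQ _).1 hvQ with h10 | ⟨w, hw, e⟩
          · simp at h10
          · have b1 := Inn_bd hv
            have b2 := Inn_bd (fr_inn w (hA w hw))
            have : v = w := by omega
            subst this
            exact ⟨_, List.mem_cons_self, Or.inl (mem_cellsOf.2 hw)⟩
        · have h10 : (Ck.diff (Ck.It D U (Nat.land U z)) Q).testBit (6 * (v - 121)) = true := by
            rw [testBit_diff, h8, Bool.eq_false_iff.2 hvQ]; rfl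
          rcases h7 v hv h10 with h11 | ⟨kd, hkd, h11⟩
          · exact Or.inl h11
          · exact Or.inr ⟨kd, List.mem_cons_of_mem _ hkd, h11⟩
      · right
        refine ⟨_, List.mem_cons_self, Or.inr ⟨h8, ?_⟩⟩
        rw [mem_Zs hv, h9]
        decide

theorem nodeS_spec (hG : GType G g bias UM) {e : ℕ → ℕ → ℕ → ℕ → ℕ → ℕ} (he : EvOK G g bias e)
    {r H s X K y : ℕ} {B W : Finset ℕ} (h : Rep bias X B W)
    (hK : K + r + g ≤ 3) (hH : HI H)
    (hy : Ck.nodeS (Ck.C33 + bias) UM e r (K * Ck.ONES) H s X = y) (hy0 : y ≠ 0) :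
    ∃ z, y = z + 1 ∧ ZI B W z ∧ Sem G g K (cellsOf B) (cellsOf W) (Zs z) := by
  obtain ⟨β, hβ, hβ1⟩ := hG.exβ
  unfold Ck.nodeS at hy
  rw [F_eq] at hy
  obtain ⟨hm, hy⟩ := Nc_ne hy hy0
  obtain ⟨m, hmf, hme, hmG⟩ := cell_UM hG h (land_pt_ne hm)
  rw [F_eq, hme, F_eq] at hy
  have h1 := Rep_plB h hmf
  obtain ⟨ha, hy⟩ := Nc_ne hy hy0
  obtain ⟨a, haf, hae, haG⟩ := cell_UM hG h1 (land_pt_ne ha)
  rw [hae] at hy
  obtain ⟨ha5, hy⟩ := Bf_ne hy hy0
  have h5a := nf_five h1 hβ hβ1 haf ha5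
  obtain ⟨z, hz, hy⟩ := N_ne hy hy0
  obtain ⟨z', hz', h2, h3⟩ := he _ _ _ _ _ _ _ _ (Rep_plW h1 haf) hK hH hz (Nat.succ_ne_zero z)
  have : z = z' := Nat.succ_injective hz'
  subst this
  have haI := fr_inn a haf
  have hmI := fr_inn m hmf
  have hzI : ZI (insert m B) W z := h2.mono (fr_mono subset_rfl (Finset.subset_insert _ _))
  have hZI : ZI (insert m B) W (Nat.lor z (Ck.pt (6 * (a - 121)))) := hzI.lor (ZI.pt haf)
  obtain ⟨hflag, hzz⟩ := fin_spec hG h1 (by omega) hZI hy hy0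
  refine ⟨_, hzz, ?_, ?_⟩
  · exact (hZI.mono (fr_mono (Finset.subset_insert _ _) subset_rfl)).lor (ZI.pt hmf)
  · rw [Zs_lor_pt hmI]
    have hna := notin_of_fr haf
    have hnm := notin_of_fr hmf
    rw [cellsOf_insert] at hna h5a hflag
    rw [cellsOf_insert, cellsOf_insert] at h3
    refine Sem_single (a := pos a) (Z1 := Zs z) ⟨hnm.1, hnm.2, hmG⟩ ⟨hna.1, hna.2, haG⟩ h5a h3 ?_ ?_ hflag
    · rw [Zs_lor]; exact Finset.subset_union_left
    · rw [Zs_lor_pt haI]; exact Finset.mem_insert_self _ _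

theorem nodeG_spec (hG : GType G g bias UM) {e : ℕ → ℕ → ℕ → ℕ → ℕ → ℕ} (he : EvOK G g bias e)
    {r H s X K y : ℕ} {B W : Finset ℕ} (h : Rep bias X B W)
    (hK : K + r + g ≤ 3) (hH : HI H)
    (hy : Ck.nodeG (Ck.C33 + bias) UM e r (K * Ck.ONES) H s X = y) (hy0 : y ≠ 0) :
    ∃ z, y = z + 1 ∧ ZI B W z ∧ Sem G g K (cellsOf B) (cellsOf W) (Zs z) := by
  obtain ⟨β, hβ, hβ1⟩ := hG.exβ
  unfold Ck.nodeG at hy
  obtain ⟨r1, rfl, hy⟩ := N_ne hy hy0
  rw [F_eq] at hy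
  obtain ⟨hm, hy⟩ := Nc_ne hy hy0
  obtain ⟨m, hmf, hme, hmG⟩ := cell_UM hG h (land_pt_ne hm)
  rw [F_eq, hme] at hy
  have h1 := Rep_plB h hmf
  obtain ⟨s', h', hy, hh'⟩ := ohints_spec hy hy0
  rw [F_eq, F_eq] at hy
  have hK1 : Nat.add (K * Ck.ONES) Ck.ONES = (K + 1) * Ck.ONES := (Nat.succ_mul K Ck.ONES).symm
  rw [hK1] at hy
  have hH1 : HI (Nat.lor H h') := hH.lor (HI_hint hh')
  unfold Ck.nodeG2 at hy
  obtain ⟨s2, z0, hy, hz0, hsem0⟩ := sub_spec hG he h1 (K := K + 1) (r := r1) (by omega) hH1 hy hy0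
  obtain ⟨l, U', Z', hy, k2, k3, k4, k5, k6, k7⟩ := kids_spec hG he h1 hK hH hH1 _ _ _ _ _ _ hy hy0 hz0
  obtain ⟨hU, hy⟩ := Zc_ne hy hy0
  obtain ⟨hflag, hzz⟩ := fin_spec hG h1 (by omega) k5 hy hy0
  have hmI := fr_inn m hmf
  refine ⟨_, hzz, ?_, ?_⟩
  · exact (k5.mono (fr_mono (Finset.subset_insert _ _) subset_rfl)).lor (ZI.pt hmf)
  · rw [Zs_lor_pt hmI]
    have hnm := notin_of_fr hmf
    rw [cellsOf_insert] at hflag hsem0 k2
    refine Sem_general (I := cellsOf inner) (⟨∅, true, Zs z0⟩ :: l) ⟨hnm.1, hnm.2, hmG⟩ ?_ ?_ ?_ ?_ ?_ hflag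
    · intro kd hkd
      rcases List.mem_cons.1 hkd with rfl | hkd
      · simpa using hsem0
      · exact k2 kd hkd
    · intro kd hkd
      rcases List.mem_cons.1 hkd with rfl | hkd
      · exact k4
      · exact k3 kd hkd
    · intro kd hkd
      rcases List.mem_cons.1 hkd with rfl | hkd
      · exact Zs_sub_inner z0
      · exact k6 kd hkd
    · exact ⟨_, List.mem_cons_self, rfl⟩
    · intro x hx _ _
      unfold cellsOf at hx
      obtain ⟨v, hv, rfl⟩ := Finset.mem_image.1 hx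
      have hvI := mem_inner.1 hv
      by_cases hvz : pos v ∈ Zs z0
      · rcases k7 v hvI ((mem_Zs hvI).1 hvz) with h8 | ⟨kd, hkd, h8⟩
        · exfalso
          have : (Nat.land U' Ck.AM).testBit (6 * (v - 121)) = true :=
            testBit_land.2 ⟨h8, testBit_AM.2 ⟨v, hvI, rfl⟩⟩
          rw [hU] at this
          simp at this
        · exact ⟨kd, List.mem_cons_of_mem _ hkd, h8⟩
      · exact ⟨_, List.mem_cons_self, Or.inr ⟨rfl, hvz⟩⟩

theorem nodeF_spec (hG : GType G g bias UM)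
    {s X K y : ℕ} {B W : Finset ℕ} (h : Rep bias X B W)
    (hy : Ck.nodeF UM s X = y) (hy0 : y ≠ 0) :
    ∃ z, y = z + 1 ∧ ZI B W z ∧ Sem G g K (cellsOf B) (cellsOf W) (Zs z) := by
  obtain ⟨β, hβ, hβ1⟩ := hG.exβ
  unfold Ck.nodeF at hy
  rw [F_eq] at hy
  obtain ⟨hm, hy⟩ := Nc_ne hy hy0
  obtain ⟨m, hmf, hme, hmG⟩ := cell_UM hG h (land_pt_ne hm)
  rw [hme] at hy
  obtain ⟨h5, hy⟩ := Bf_ne hy hy0
  have hnm := notin_of_fr hmf
  have hmI := fr_inn m hmf
  refine ⟨Ck.pt (6 * (m - 121)), hy.symm, ZI.pt hmf, ?_⟩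
  exact Sem_five ⟨hnm.1, hnm.2, hmG⟩ (nf_five h hβ hβ1 hmf h5) ((mem_Zs hmI).2 (testBit_pt.2 rfl))

theorem nodeH_spec (hG : GType G g bias UM) {e : ℕ → ℕ → ℕ → ℕ → ℕ → ℕ} (he : EvOK G g bias e)
    {r H s X K y : ℕ} {B W : Finset ℕ} (h : Rep bias X B W)
    (hK : K + r + g ≤ 3) (hH : HI H)
    (hy : Ck.nodeH e r (K * Ck.ONES) H s X = y) (hy0 : y ≠ 0) :
    ∃ z, y = z + 1 ∧ ZI B W z ∧ Sem G g K (cellsOf B) (cellsOf W) (Zs z) := by
  unfold Ck.nodeH at hy
  rw [F_eq] at hy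
  obtain ⟨hm, hy⟩ := Nc_ne hy hy0
  obtain ⟨m, hmf, hme⟩ := cell_AM hG h (land_pt_ne hm)
  rw [hme] at hy
  obtain ⟨z, hz, hy⟩ := N_ne hy hy0
  obtain ⟨z', hz', h2, h3⟩ := he _ _ _ _ _ _ _ _ h hK hH hz (Nat.succ_ne_zero z)
  have : z = z' := Nat.succ_injective hz'
  subst this
  refine ⟨Nat.lor z (Ck.pt (6 * (m - 121))), hy.symm, h2.lor (ZI.pt hmf), ?_⟩
  refine Sem_mono ?_ (le_refl _) h3
  rw [Zs_lor]; exact Finset.subset_union_left

theorem nth_mem {L : List ℕ} : ∀ {i : ℕ}, Ck.nth L i ≠ 0 → Ck.nth L i ∈ L := by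
  induction L with
  | nil => intro i h; exact (h rfl).elim
  | cons a L ih =>
    intro i h
    cases i with
    | zero => exact List.mem_cons_self
    | succ i => exact List.mem_cons_of_mem _ (ih h)

theorem Rep.pos {X : ℕ} {B W : Finset ℕ} {β : ℕ → ℕ → ℕ} (h : Rep bias X B W) (hβ : bias = wv β) : X ≠ 0 := by
  have h1 := h.repr hβ
  have h2 : 0 < slt B W := by
    unfold slt
    have := sum_salt_le h.hB
    norm_num at this ⊢
    omega
  omega

theorem nodeR_spec (hG : GType G g bias UM) {L : List ℕ} (hL : ∀ X ∈ L, Good G g bias X)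
    {s X K y : ℕ} {B W : Finset ℕ} (h : Rep bias X B W)
    (hy : Ck.nodeR L (K * Ck.ONES) s X = y) (hy0 : y ≠ 0) :
    ∃ z, y = z + 1 ∧ ZI B W z ∧ Sem G g K (cellsOf B) (cellsOf W) (Zs z) := by
  obtain ⟨β, hβ, hβ1⟩ := hG.exβ
  unfold Ck.nodeR at hy
  obtain ⟨h1, hy1⟩ := Bt_ne hy hy0
  obtain ⟨h2, hy2⟩ := Bt_ne hy1 hy0
  have h1' := Nat.eq_of_beq_eq_true h1
  have h2' : K * Ck.ONES = 0 := Nat.eq_of_beq_eq_true h2
  have hK : K = 0 := by
    rcases Nat.mul_eq_zero.1 h2' with h3 | h3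
    · exact h3
    · exact absurd h3 (by decide +kernel)
  subst hK
  have hXL : X ∈ L := by
    rw [← h1']
    apply nth_mem
    rw [h1']
    exact h.pos hβ
  have hsem := hL X hXL B W h
  have hbits : ∀ j, 66 ≤ j → Ck.AMS.testBit j = true → Ck.AM.testBit j = true := by
    intro j hj hb
    have e : Ck.AMS = Ck.AM + (2 ^ 60 - 1) := AMS_eq
    have e2 : Ck.AM = 2 ^ 66 * (Ck.AM / 2 ^ 66) := by
      have := Nat.div_add_mod Ck.AM (2 ^ 66)
      rw [AMS_lo, Nat.add_zero] at this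
      exact this.symm
    rw [e, e2, Nat.testBit_two_pow_mul_add _ (by norm_num), if_neg (by omega)] at hb
    rw [e2]
    have := Nat.testBit_two_pow_mul_add (i := 66) (b := 0) (Ck.AM / 2 ^ 66) (by norm_num) j
    rw [Nat.add_zero, if_neg (by omega)] at this
    rw [this]; exact hb
  have hAMS : ∀ v, Inn v → Ck.AMS.testBit (6 * (v - 121)) = true := by
    intro v hv
    have hb := Inn_bd hv
    have e : Ck.AMS = Ck.AM + (2 ^ 60 - 1) := AMS_eq
    have e2 : Ck.AM = 2 ^ 66 * (Ck.AM / 2 ^ 66) := by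
      have := Nat.div_add_mod Ck.AM (2 ^ 66)
      rw [AMS_lo, Nat.add_zero] at this
      exact this.symm
    have h5 : Ck.AM.testBit (6 * (v - 121)) = true := testBit_AM.2 ⟨v, hv, rfl⟩
    have := Nat.testBit_two_pow_mul_add (i := 66) (b := 0) (Ck.AM / 2 ^ 66) (by norm_num) (6 * (v - 121))
    rw [Nat.add_zero, if_neg (by omega), ← e2, h5] at this
    rw [e, e2, Nat.testBit_two_pow_mul_add _ (by norm_num), if_neg (by omega)]
    exact this.symm
  refine ⟨Nat.land X Ck.AMS, hy2.symm, ?_, ?_⟩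
  · intro j hj hb
    obtain ⟨b1, b2⟩ := testBit_land.1 hb
    exact cell_AM hG h (testBit_land.2 ⟨b1, hbits j hj b2⟩)
  · refine Sem_mono ?_ (le_refl _) hsem
    intro x hx
    unfold cellsOf at hx
    obtain ⟨v, hv, rfl⟩ := Finset.mem_image.1 hx
    have hvI : Inn v := fr_inn v hv
    rw [mem_Zs hvI, testBit_land]
    exact ⟨(h.testBit hβ hvI).2 hv, hAMS v hvI⟩

theorem node_spec (hG : GType G g bias UM) {L : List ℕ} (hL : ∀ X ∈ L, Good G g bias X)
    {e : ℕ → ℕ → ℕ → ℕ → ℕ → ℕ} (he : EvOK G g bias e) :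
    EvOK G g bias (Ck.node (Ck.C33 + bias) UM L e) := by
  intro r H s X K B W y h hK hH hy hy0
  unfold Ck.node at hy
  generalize Nat.land s 3 = t at hy
  match t, hy with
  | 0, hy => exact nodeS_spec hG he h hK hH hy hy0
  | 1, hy =>
    obtain ⟨s', z, h1, h2, h3⟩ := leaf_spec hG h (by omega) hH hy hy0
    exact ⟨z, h1.symm, h2, h3⟩
  | 2, hy => exact nodeG_spec hG he h hK hH hy hy0
  | n + 3, hy =>
    change Ck.nodeE UM L e r (K * Ck.ONES) H s X = y at hy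
    unfold Ck.nodeE at hy
    rw [F_eq] at hy
    generalize Nat.land (Nat.shiftRight s 2) 3 = o at hy
    match o, hy with
    | 0, hy => exact nodeF_spec hG h hy hy0
    | 1, hy => exact nodeH_spec hG he h hK hH hy hy0
    | n + 2, hy => exact nodeR_spec hG hL h hy hy0

theorem ev_spec (hG : GType G g bias UM) {L : List ℕ} (hL : ∀ X ∈ L, Good G g bias X) (fuel : ℕ) :
    EvOK G g bias (Ck.ev (Ck.C33 + bias) UM L fuel) := by
  induction fuel with
  | zero =>
    intro r H s X K B W y h hK hH hy hy0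
    exact (hy0 hy.symm).elim
  | succ fuel ih => exact node_spec hG hL ih

/-- MAIN THEOREM of module B -/
theorem sound (hG : GType G g bias UM) {L : List ℕ}
    (hL : ∀ X ∈ L, Good G g bias X) {fuel r s X : ℕ} (hr : r + g ≤ 3)
    (h : Nat.ble 1 (Ck.ev (Ck.C33 + bias) UM L fuel r 0 Ck.LM s X) = true) : Good G g bias X := by
  intro B W hX
  have h1 : 1 ≤ Ck.ev (Ck.C33 + bias) UM L fuel r 0 Ck.LM s X := Nat.le_of_ble_eq_true h
  have hLM : HI Ck.LM := by
    intro j hj hb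
    rw [LM_eq, Nat.testBit_two_pow_sub_one, decide_eq_true_eq] at hb
    omega
  obtain ⟨z, -, h2, h3⟩ := ev_spec hG hL fuel r Ck.LM s X 0 B W _ hX (by omega) hLM
    (by rw [Nat.zero_mul]) (by omega)
  refine Sem_mono ?_ (le_refl _) h3
  rw [Zs_eq]
  exact Finset.image_subset_image (fun v hv => h2.sub hv)

theorem stB_spec {bias : ℕ} : ∀ (l : List ℕ) (X : ℕ) (B W : Finset ℕ), Rep bias X B W →
    l.Nodup → (∀ c ∈ l, c + 121 ∈ fr B W) →
    Rep bias (Ck.stB X l) (B ∪ (l.map (· + 121)).toFinset) W := by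
  intro l
  induction l with
  | nil => intro X B W h _ _; simpa [Ck.stB] using h
  | cons a l ih =>
    intro X B W h hn hl
    have ha := hl a List.mem_cons_self
    have h1 := Rep_plB h ha
    have e : 6 * (a + 121 - 121) = Nat.mul a 6 := by
      show _ = a * 6
      omega
    rw [e] at h1
    have h2 := ih _ _ _ h1 (List.nodup_cons.1 hn).2 (fun c hc => by
      obtain ⟨b1, b2, b3⟩ := mem_fr.1 (hl c (List.mem_cons_of_mem _ hc))
      refine mem_fr.2 ⟨b1, ?_, b3⟩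
      rw [Finset.mem_insert, not_or]
      refine ⟨fun e => ?_, b2⟩
      have : c = a := by omega
      subst this
      exact (List.nodup_cons.1 hn).1 hc)
    have e2 : B ∪ ((a :: l).map (· + 121)).toFinset = insert (a + 121) B ∪ (l.map (· + 121)).toFinset := by
      ext x
      rw [List.map_cons, List.toFinset_cons, Finset.mem_union, Finset.mem_union, Finset.mem_insert,
        Finset.mem_insert, or_left_comm, or_assoc]
    have e3 : Ck.stB X (a :: l) = Ck.stB (Ck.plB X (Nat.mul a 6)) l := rfl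
    rw [e2, e3]
    exact h2

theorem stW_spec {bias : ℕ} : ∀ (l : List ℕ) (X : ℕ) (B W : Finset ℕ), Rep bias X B W →
    l.Nodup → (∀ c ∈ l, c + 121 ∈ fr B W) →
    Rep bias (Ck.stW X l) B (W ∪ (l.map (· + 121)).toFinset) := by
  intro l
  induction l with
  | nil => intro X B W h _ _; simpa [Ck.stW] using h
  | cons a l ih =>
    intro X B W h hn hl
    have ha := hl a List.mem_cons_self
    have h1 := Rep_plW h ha
    have e : 6 * (a + 121 - 121) = Nat.mul a 6 := by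
      show _ = a * 6
      omega
    rw [e] at h1
    have h2 := ih _ _ _ h1 (List.nodup_cons.1 hn).2 (fun c hc => by
      obtain ⟨b1, b2, b3⟩ := mem_fr.1 (hl c (List.mem_cons_of_mem _ hc))
      refine mem_fr.2 ⟨b1, b2, ?_⟩
      rw [Finset.mem_insert, not_or]
      refine ⟨fun e => ?_, b3⟩
      have : c = a := by omega
      subst this
      exact (List.nodup_cons.1 hn).1 hc)
    have e2 : W ∪ ((a :: l).map (· + 121)).toFinset = insert (a + 121) W ∪ (l.map (· + 121)).toFinset := by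
      ext x
      rw [List.map_cons, List.toFinset_cons, Finset.mem_union, Finset.mem_union, Finset.mem_insert,
        Finset.mem_insert, or_left_comm, or_assoc]
    have e3 : Ck.stW X (a :: l) = Ck.stW (Ck.plW X (Nat.mul a 6)) l := rfl
    rw [e2, e3]
    exact h2

/-- initial position from lists of stones -/
theorem Rep_st {bias : ℕ} {bl wl : List ℕ} (hn : (bl ++ wl).Nodup)
    (hi : ∀ c ∈ bl ++ wl, Inn (c + 121)) :
    Rep bias (Ck.st (Ck.X0 + bias) bl wl) ((bl.map (· + 121)).toFinset) ((wl.map (· + 121)).toFinset) := by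
  have h0 : Rep bias (Ck.X0 + bias) ∅ ∅ := by
    refine ⟨fun v hv => absurd hv (Finset.notMem_empty v), fun v hv => absurd hv (Finset.notMem_empty v),
      Finset.disjoint_empty_left _, ?_⟩
    rw [Finset.sum_empty, Finset.sum_empty, Nat.cast_add]
    ring
  have hn' := List.nodup_append.1 hn
  have h1 := stB_spec bl _ _ _ h0 hn'.1 (fun c hc => mem_fr.2
    ⟨hi c (List.mem_append_left _ hc), by simp, by simp⟩)
  rw [Finset.empty_union] at h1
  have h2 := stW_spec wl _ _ _ h1 hn'.2.1 (fun c hc => mem_fr.2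
    ⟨hi c (List.mem_append_right _ hc), by
      rw [List.mem_toFinset, List.mem_map]
      rintro ⟨b, hb, e⟩
      have : b = c := by omega
      exact hn'.2.2 b hb c hc this, by simp⟩)
  rw [Finset.empty_union] at h2
  exact h2

end main

end Pool.Agent.H88.FIR
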